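import Mathlib

/-!
# Counting subsets
-/

set_option autoImplicit false

namespace Pool.Agent.NumRank

private theorem exists_perm_map {α : Type*} [Fintype α] [DecidableEq α] (S S' : Finset α)
    (h : S.card = S'.card) : ∃ σ : Equiv.Perm α, S.map σ.toEmbedding = S' := by
  classical
  have e : {x // x ∈ S} ≃ {x // x ∈ S'} := Fintype.equivOfCardEq (by simpa using h)
  refine ⟨e.extendSubtype, ?_⟩
  apply Finset.eq_of_subset_of_card_le
  · intro y hy
    obtain ⟨x, hx, rfl⟩ := Finset.mem_map.1 hy
    exact e.extendSubtype_mem x hx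
  · rw [Finset.card_map, h]

theorem card_of_letters {Ω : Type*} [Fintype Ω] [Nonempty Ω] {m k : ℕ}
    (l : Fin (m + 1) → Ω → ℚ) (hval : ∀ x ω, l x ω = 0 ∨ l x ω = 1)
    (hinj : ∀ ω ω', (∀ x, l x ω = l x ω') → ω = ω')
    (hsw : ∀ x y, x ≠ y → ∃ π : Equiv.Perm Ω, ∀ z ω, l z (π ω) = l (Equiv.swap x y z) ω)
    (hk : ∀ ω, (Finset.univ.filter fun x => l x ω = 1).card = k) (hk1 : 1 ≤ k) :
    Fintype.card Ω = (m + 1).choose k ∧ ∑ ω, l 0 ω = (m.choose (k - 1) : ℕ) := by
  classical
  let φ : Ω → Finset (Fin (m + 1)) := fun ω => Finset.univ.filter fun x => l x ω = 1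
  have hmem : ∀ ω x, x ∈ φ ω ↔ l x ω = 1 := fun ω x => by simp [φ]
  have hφ : Function.Injective φ := by
    intro ω ω' h
    apply hinj
    intro x
    have h1 : l x ω = 1 ↔ l x ω' = 1 := by rw [← hmem, ← hmem, h]
    rcases hval x ω with h2 | h2 <;> rcases hval x ω' with h3 | h3
    · rw [h2, h3]
    · have := h1.2 h3
      rw [h2, h3] at *
      exact absurd this (by norm_num)
    · have := h1.1 h2
      rw [h3] at this
      exact absurd this (by norm_num)
    · rw [h2, h3]
  have hclosed : ∀ σ : Equiv.Perm (Fin (m + 1)), ∀ ω, ∃ ω', φ ω' = (φ ω).map σ.toEmbedding := by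
    intro σ
    induction σ using Equiv.Perm.swap_induction_on with
    | one => exact fun ω => ⟨ω, by ext x; rw [Finset.mem_map_equiv]; exact Iff.rfl⟩
    | swap_mul f x y hxy ih =>
      intro ω
      obtain ⟨ω₁, h1⟩ := ih ω
      obtain ⟨π, hπ⟩ := hsw x y hxy
      refine ⟨π ω₁, ?_⟩
      ext z
      rw [hmem, hπ, ← hmem, h1]
      simp only [Finset.mem_map_equiv]
      rw [show (Equiv.swap x y * f).symm z = f.symm (Equiv.swap x y z) from rfl]
  have himg : Finset.univ.image φ = Finset.powersetCard k Finset.univ := by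
    apply Finset.Subset.antisymm
    · intro S hS
      obtain ⟨ω, -, rfl⟩ := Finset.mem_image.1 hS
      exact Finset.mem_powersetCard.2 ⟨Finset.subset_univ _, hk ω⟩
    · intro S hS
      obtain ⟨-, hc⟩ := Finset.mem_powersetCard.1 hS
      obtain ⟨ω₀⟩ := ‹Nonempty Ω›
      obtain ⟨σ, hσ⟩ := exists_perm_map (φ ω₀) S ((hk ω₀).trans hc.symm)
      obtain ⟨ω, hω⟩ := hclosed σ ω₀
      exact Finset.mem_image.2 ⟨ω, Finset.mem_univ _, hω.trans hσ⟩
  have hcard : ∀ p : Finset (Fin (m + 1)) → Prop, [DecidablePred p] →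
      (Finset.univ.filter fun ω => p (φ ω)).card =
        ((Finset.powersetCard k Finset.univ).filter p).card := by
    intro p _
    rw [← himg, Finset.filter_image, Finset.card_image_of_injective _ hφ]
  constructor
  · have h := congrArg Finset.card himg
    rw [Finset.card_image_of_injective _ hφ, Finset.card_powersetCard, Finset.card_univ,
      Finset.card_univ, Fintype.card_fin] at h
    exact h
  · obtain ⟨j, rfl⟩ : ∃ j, k = j + 1 := ⟨k - 1, by omega⟩
    have h1 : ∑ ω, l 0 ω = ((Finset.univ.filter fun ω => (0 : Fin (m + 1)) ∈ φ ω).card : ℚ) := by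
      rw [Finset.card_filter, Nat.cast_sum]
      refine Finset.sum_congr rfl fun ω _ => ?_
      rcases hval 0 ω with h | h
      · rw [if_neg, h]
        · simp
        · rw [hmem, h]
          norm_num
      · rw [if_pos ((hmem ω 0).2 h), h]
        simp
    rw [h1, hcard (fun S => (0 : Fin (m + 1)) ∈ S)]
    have h2 : ((Finset.powersetCard (j + 1) (Finset.univ : Finset (Fin (m + 1)))).filter
        fun S => ¬ (0 : Fin (m + 1)) ∈ S) =
        Finset.powersetCard (j + 1) (Finset.univ.erase (0 : Fin (m + 1))) := by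
      ext S
      simp only [Finset.mem_filter, Finset.mem_powersetCard, Finset.subset_univ, true_and]
      constructor
      · rintro ⟨hc, h0⟩
        exact ⟨fun x hx => Finset.mem_erase.2 ⟨fun h => h0 (h ▸ hx), Finset.mem_univ _⟩, hc⟩
      · rintro ⟨hs, hc⟩
        exact ⟨hc, fun h0 => (Finset.mem_erase.1 (hs h0)).1 rfl⟩
    have h3 := Finset.card_filter_add_card_filter_not (s := Finset.powersetCard (j + 1)
      (Finset.univ : Finset (Fin (m + 1)))) (fun S => (0 : Fin (m + 1)) ∈ S)
    rw [h2, Finset.card_powersetCard, Finset.card_powersetCard, Finset.card_erase_of_mem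
      (Finset.mem_univ _), Finset.card_univ, Fintype.card_fin, Nat.add_sub_cancel,
      Nat.choose_succ_succ'] at h3
    have h4 : ((Finset.powersetCard (j + 1) (Finset.univ : Finset (Fin (m + 1)))).filter
        fun S => (0 : Fin (m + 1)) ∈ S).card = m.choose j := by omega
    rw [h4]
    simp

end Pool.Agent.NumRank
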