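import Pool.Agent.NumRank.Letters
import Pool.Agent.NumRank.CountSub

/-!
# Exterior powers
-/

set_option autoImplicit false
set_option linter.unusedSectionVars false

namespace Pool.Agent.NumRank

open Pool.Agent.PrimePow.CC

variable {Ω : Type*} [Fintype Ω] {L : AddSubgroup (Ω → ℚ)} {e f h k : Ω → ℚ}

private theorem choose_move {π : Equiv.Perm Ω} (H : Rf L h π) (hf : f ∈ L) (ω : Ω) :
    f (π ω) = f ω - cf f h * h ω := by
  obtain ⟨a, ha, ha'⟩ := H.coef hf
  have hc : cf f h = a := by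
    unfold cf
    rw [← ha']
    field_simp [H.dot_self_pos.ne']
  rw [ha, hc]

private theorem choose_swap {m : ℕ} {l : Fin (m + 1) → Ω → ℚ} (hlL : ∀ x, l x ∈ L)
    (hcf : ∀ x y z, x ≠ y →
      cf (l z) (l x - l y) = (if z = x then 1 else 0) - if z = y then 1 else 0)
    {π : Equiv.Perm Ω} {x y : Fin (m + 1)} (hxy : x ≠ y) (H : Rf L (l x - l y) π)
    (z : Fin (m + 1)) (ω : Ω) : l z (π ω) = l (Equiv.swap x y z) ω := by
  rw [choose_move H (hlL z) ω, hcf x y z hxy, Pi.sub_apply]
  by_cases h1 : z = x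
  · subst h1
    rw [Equiv.swap_apply_left, if_pos rfl, if_neg hxy]
    ring
  · by_cases h2 : z = y
    · subst h2
      rw [Equiv.swap_apply_right, if_pos rfl, if_neg h1]
      ring
    · rw [Equiv.swap_apply_of_ne_of_ne h1 h2, if_neg h1, if_neg h2]
      ring

theorem one_or_choose' (D : Dt L e) (hM : ∀ h k, Rt L h → Rt L k → h ⬝ᵥ h = k ⬝ᵥ k)
    (hΦ : ∀ γ γ', Rt L γ → Rt L γ' → cf e γ = 1 → cf e γ' = 1 → cf γ γ' ≠ 0) :
    (∀ h, Rt L h → ∀ x y, h x = 1 → h y = 1 → x = y) ∨
    ∃ N k : ℕ, 2 ≤ k ∧ k + 2 ≤ N ∧ Fintype.card Ω = N.choose k ∧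
      ∑ ω, e ω = ((N - 1).choose (k - 1) : ℕ) := by
  classical
  obtain ⟨m, l, hl0, hlL, hl01, hroot, hRt, hcf⟩ := exists_letters D hM hΦ
  obtain ⟨ω₁, hω₁⟩ := D.ex1
  obtain ⟨ω₀, hω₀⟩ := D.ex0
  have : Nonempty Ω := ⟨ω₁⟩
  -- points are determined by the letters
  have hinj : ∀ ω ω', (∀ x, l x ω = l x ω') → ω = ω' := by
    intro ω ω' h
    apply D.uniq
    intro g hg
    obtain ⟨x, y, -, rfl⟩ := hroot g hg
    rw [Pi.sub_apply, Pi.sub_apply, h x, h y]
  -- the number of letters
  have hcard : ∀ ω, (Finset.univ.filter fun x => l x ω = 1).card =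
      (Finset.univ.filter fun x => l x ω₁ = 1).card := by
    have h1 := D.tr {ω | (Finset.univ.filter fun x => l x ω = 1).card =
      (Finset.univ.filter fun x => l x ω₁ = 1).card} ⟨ω₁, rfl⟩ (by
      intro g π H ω hω
      rw [Set.mem_ofPred_eq] at hω ⊢
      obtain ⟨x, y, hxy, rfl⟩ := hroot g ⟨π, H⟩
      rw [← hω]
      refine Finset.card_bij (fun z _ => Equiv.swap x y z) ?_ ?_ ?_
      · intro z hz
        rw [Finset.mem_filter] at hz ⊢
        refine ⟨Finset.mem_univ _, ?_⟩
        rw [← choose_swap hlL hcf hxy H z ω]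
        exact hz.2
      · intro z _ z' _ hzz
        exact (Equiv.swap x y).injective hzz
      · intro z hz
        rw [Finset.mem_filter] at hz
        refine ⟨Equiv.swap x y z, ?_, Equiv.swap_apply_self x y z⟩
        rw [Finset.mem_filter]
        refine ⟨Finset.mem_univ _, ?_⟩
        rw [choose_swap hlL hcf hxy H _ ω, Equiv.swap_apply_self]
        exact hz.2)
    intro ω
    have h2 : ω ∈ {ω | (Finset.univ.filter fun x => l x ω = 1).card =
      (Finset.univ.filter fun x => l x ω₁ = 1).card} := h1 ▸ Set.mem_univ ω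
    exact h2
  obtain ⟨k, hk⟩ : ∃ k, (Finset.univ.filter fun x => l x ω₁ = 1).card = k := ⟨_, rfl⟩
  rw [hk] at hcard
  have hk1 : 1 ≤ k := by
    rw [← hk, Nat.one_le_iff_ne_zero, Ne, Finset.card_eq_zero]
    intro h0
    have h1 : (0 : Fin (m + 1)) ∈ (Finset.univ.filter fun x => l x ω₁ = 1) := by
      rw [Finset.mem_filter]
      exact ⟨Finset.mem_univ _, by rw [hl0]; exact hω₁⟩
    rw [h0] at h1
    exact absurd h1 (Finset.notMem_empty _)
  have hcompl : ∀ (b : Fin (m + 1)) (ω : Ω), l b ω = 0 →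
      (Finset.univ.filter fun x => l x ω = 1) ⊆ Finset.univ.erase b := by
    intro b ω hb x hx
    rw [Finset.mem_filter] at hx
    rw [Finset.mem_erase]
    refine ⟨?_, Finset.mem_univ _⟩
    rintro rfl
    rw [hb] at hx
    exact zero_ne_one hx.2
  have herase : ∀ b : Fin (m + 1), (Finset.univ.erase b).card = m := by
    intro b
    rw [Finset.card_erase_of_mem (Finset.mem_univ _), Finset.card_univ, Fintype.card_fin]
    rfl
  have hkm : k ≤ m := by
    have h1 := Finset.card_le_card (hcompl 0 ω₀ (by rw [hl0]; exact hω₀))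
    rw [hcard, herase] at h1
    exact h1
  have hsw : ∀ x y, x ≠ y → ∃ π : Equiv.Perm Ω, ∀ z ω, l z (π ω) = l (Equiv.swap x y z) ω := by
    intro x y hxy
    obtain ⟨π, H⟩ := hRt x y hxy
    exact ⟨π, fun z ω => choose_swap hlL hcf hxy H z ω⟩
  obtain ⟨hc1, hc2⟩ := card_of_letters l hl01 hinj hsw hcard hk1
  -- equality of points with the same letters
  have hsame : ∀ ω ω', (Finset.univ.filter fun x => l x ω = 1) =
      (Finset.univ.filter fun x => l x ω' = 1) → ω = ω' := by
    intro ω ω' h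
    apply hinj
    intro x
    have h1 : l x ω = 1 ↔ l x ω' = 1 := by
      have h2 : x ∈ (Finset.univ.filter fun x => l x ω = 1) ↔
          x ∈ (Finset.univ.filter fun x => l x ω' = 1) := by rw [h]
      rw [Finset.mem_filter, Finset.mem_filter] at h2
      simpa using h2
    rcases hl01 x ω with h3 | h3 <;> rcases hl01 x ω' with h4 | h4
    · rw [h3, h4]
    · exact absurd (h1.2 h4) (by rw [h3]; norm_num)
    · exact absurd (h1.1 h3) (by rw [h4]; norm_num)
    · rw [h3, h4]
  have hval : ∀ (a b : Fin (m + 1)) (ω : Ω), (l a - l b) ω = 1 → l a ω = 1 ∧ l b ω = 0 := by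
    intro a b ω h
    rw [Pi.sub_apply] at h
    rcases hl01 a ω with h3 | h3 <;> rcases hl01 b ω with h4 | h4 <;> rw [h3, h4] at h <;>
      norm_num at h
    exact ⟨h3, h4⟩
  by_cases hk2 : 2 ≤ k
  · by_cases hkm2 : k + 2 ≤ m + 1
    · right
      refine ⟨m + 1, k, hk2, hkm2, hc1, ?_⟩
      rw [hl0] at hc2
      rw [hc2]
      rfl
    · left
      have hkm' : k = m := by omega
      intro g hg ω ω' h1 h2
      obtain ⟨a, b, -, rfl⟩ := hroot g hg
      have h3 : ∀ ω, (l a - l b) ω = 1 →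
          (Finset.univ.filter fun x => l x ω = 1) = Finset.univ.erase b := by
        intro ω h
        apply Finset.eq_of_subset_of_card_le (hcompl b ω (hval a b ω h).2)
        rw [herase, hcard, hkm']
      exact hsame ω ω' (by rw [h3 ω h1, h3 ω' h2])
  · left
    have hk1' : k = 1 := by omega
    intro g hg ω ω' h1 h2
    obtain ⟨a, b, -, rfl⟩ := hroot g hg
    have h3 : ∀ ω, (l a - l b) ω = 1 →
        (Finset.univ.filter fun x => l x ω = 1) = {a} := by
      intro ω h
      symm
      apply Finset.eq_of_subset_of_card_le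
      · rw [Finset.singleton_subset_iff, Finset.mem_filter]
        exact ⟨Finset.mem_univ _, (hval a b ω h).1⟩
      · rw [hcard, hk1', Finset.card_singleton]
    exact hsame ω ω' (by rw [h3 ω h1, h3 ω' h2])

end Pool.Agent.NumRank
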