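import Pool.Agent.NumRank.FrameTypes

/-!
# Values and degrees of the roots of each type
-/

set_option autoImplicit false
set_option linter.unusedSectionVars false

namespace Pool.Agent.NumRank

open Pool.Agent.PrimePow.CC

variable {Ω : Type*} [Fintype Ω] {L : AddSubgroup (Ω → ℚ)} {e f h k θ γ δ β κ ξ : Ω → ℚ}
  {ω : Ω}

private theorem fv_pm (hM : ∀ h k, Rt L h → Rt L k → h ⬝ᵥ h = k ⬝ᵥ k) {p q : Ω → ℚ}
    (T : Rt L θ) (P : Rt L p) (h0 : cf p q = 0) (hp : cf θ p ≠ 0) (hq : cf θ q ≠ 0) :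
    cf θ p = 1 ∨ cf θ p = -1 := by
  rcases cf_cases hM T P with h1 | h1 | h1 | h1 | h1
  · subst h1
    exact absurd h0 hq
  · subst h1
    rw [cf_neg, h0, neg_zero] at hq
    exact absurd rfl hq
  · exact Or.inr h1
  · exact absurd h1 hp
  · exact Or.inl h1

private theorem fv_xi (F : Frame L e ω γ δ β κ ξ) {p : Ω → ℚ}
    (h : cf γ p + cf δ p + cf β p + cf κ p = 2) : cf ξ p = 1 := by
  have h1 : cf (γ + δ + β + κ) p = cf ((2 : ℚ) • ξ) p := by rw [F.sum]
  rw [cf_add, cf_add, cf_add, cf_smul] at h1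
  linarith

/-- the values of the roots of the first vertical type -/
private theorem fv_V (D : Dt L e) (hM : ∀ h k, Rt L h → Rt L k → h ⬝ᵥ h = k ⬝ᵥ k)
    (F : Frame L e ω γ δ β κ ξ) (T : Rt L θ) (h1 : cf θ γ = 1 ∨ cf θ γ = -1)
    (h2 : cf θ δ = 1 ∨ cf θ δ = -1) : 2 * θ ω = cf θ γ + cf θ δ := by
  have key : ∀ θ, Rt L θ → cf θ γ = 1 → cf θ δ = 1 → θ ω = 1 := by
    intro θ T h1 h2
    have T1 := sub_root D.toLat T F.rγ h1
    have h3 : cf (θ - γ) δ = 1 := by rw [cf_sub, h2, F.o12, sub_zero]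
    have T2 := sub_root D.toLat T1 F.rδ h3
    have h4 := Rt_val T2 ω
    have h5 := Rt_val T ω
    rw [Pi.sub_apply, Pi.sub_apply, F.vγ, F.vδ] at h4
    rcases h5 with h5 | h5 | h5
    · rw [h5] at h4
      norm_num at h4
    · rw [h5] at h4
      norm_num at h4
    · exact h5
  have o21 : cf δ γ = 0 := (Rt_symm F.rγ F.rδ).2 F.o12
  rcases h1 with h1 | h1 <;> rcases h2 with h2 | h2
  · rw [key θ T h1 h2, h1, h2]
    norm_num
  · have T1 := add_root D.toLat T F.rδ h2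
    have h3 := key _ T1 (by rw [cf_add, h1, o21, add_zero])
      (by rw [cf_add, h2, Rt_self F.rδ]; norm_num)
    rw [Pi.add_apply, F.vδ] at h3
    rw [h1, h2]
    linarith
  · have T1 := add_root D.toLat T F.rγ h1
    have h3 := key _ T1 (by rw [cf_add, h1, Rt_self F.rγ]; norm_num)
      (by rw [cf_add, h2, F.o12, add_zero])
    rw [Pi.add_apply, F.vγ] at h3
    rw [h1, h2]
    linarith
  · have h3 := key _ T.neg (by rw [cf_neg, h1, neg_neg]) (by rw [cf_neg, h2, neg_neg])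
    rw [Pi.neg_apply] at h3
    rw [h1, h2]
    linarith

theorem frame_val (D : Dt L e) (hM : ∀ h k, Rt L h → Rt L k → h ⬝ᵥ h = k ⬝ᵥ k)
    (F : Frame L e ω γ δ β κ ξ) (T : Rt L θ) (h1 : TV γ δ β κ θ) :
    2 * θ ω = cf θ γ + cf θ δ := by
  have o21 : cf δ γ = 0 := (Rt_symm F.rγ F.rδ).2 F.o12
  have o31 : cf β γ = 0 := (Rt_symm F.rγ F.rβ).2 F.o13
  have o41 : cf κ γ = 0 := (Rt_symm F.rγ F.rκ).2 F.o14
  have o32 : cf β δ = 0 := (Rt_symm F.rδ F.rβ).2 F.o23
  have o42 : cf κ δ = 0 := (Rt_symm F.rδ F.rκ).2 F.o24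
  have o43 : cf κ β = 0 := (Rt_symm F.rβ F.rκ).2 F.o34
  rcases h1 with ⟨-, -, h3, h4⟩ | ⟨h3, h4, h5, h6⟩
  · exact fv_V D hM F T (fv_pm hM T F.rγ F.o12 h3 h4) (fv_pm hM T F.rδ o21 h4 h3)
  · have xγ : cf ξ γ = 1 := fv_xi F (by rw [Rt_self F.rγ, o21, o31, o41]; norm_num)
    have xδ : cf ξ δ = 1 := fv_xi F (by rw [Rt_self F.rδ, F.o12, o32, o42]; norm_num)
    have xω : ξ ω = 1 := by
      have h7 := congrFun F.sum ω
      rw [Pi.add_apply, Pi.add_apply, Pi.add_apply, Pi.smul_apply, F.vγ, F.vδ, F.vβ, F.vκ,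
        smul_eq_mul] at h7
      linarith
    have key : ∀ θ, Rt L θ → cf θ γ = 0 → cf θ δ = 0 → cf θ β = 1 → cf θ κ = 1 → θ ω = 0 := by
      intro θ T h1 h2 h3 h4
      have h5 := F.xi hM (θ := θ)
      rw [h1, h2, h3, h4] at h5
      have h6 : cf θ ξ = 1 := by linarith
      have T1 := sub_root D.toLat T F.rξ h6
      have h7 : cf (θ - ξ) γ = -1 := by rw [cf_sub, h1, xγ]; norm_num
      have h8 : cf (θ - ξ) δ = -1 := by rw [cf_sub, h2, xδ]; norm_num
      have h9 := fv_V D hM F T1 (Or.inr h7) (Or.inr h8)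
      rw [h7, h8, Pi.sub_apply, xω] at h9
      linarith
    have h7 := fv_pm hM T F.rβ F.o34 h5 h6
    have h8 := fv_pm hM T F.rκ o43 h6 h5
    rw [h3, h4]
    rcases h7 with h7 | h7 <;> rcases h8 with h8 | h8
    · rw [key θ T h3 h4 h7 h8]
      norm_num
    · have T1 := add_root D.toLat T F.rκ h8
      have h9 := key _ T1 (by rw [cf_add, h3, o41, add_zero]) (by rw [cf_add, h4, o42, add_zero])
        (by rw [cf_add, h7, o43, add_zero]) (by rw [cf_add, h8, Rt_self F.rκ]; norm_num)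
      rw [Pi.add_apply, F.vκ] at h9
      linarith
    · have T1 := add_root D.toLat T F.rβ h7
      have h9 := key _ T1 (by rw [cf_add, h3, o31, add_zero]) (by rw [cf_add, h4, o32, add_zero])
        (by rw [cf_add, h7, Rt_self F.rβ]; norm_num) (by rw [cf_add, h8, F.o34, add_zero])
      rw [Pi.add_apply, F.vβ] at h9
      linarith
    · have h9 := key _ T.neg (by rw [cf_neg, h3, neg_zero]) (by rw [cf_neg, h4, neg_zero])
        (by rw [cf_neg, h7, neg_neg]) (by rw [cf_neg, h8, neg_neg])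
      rw [Pi.neg_apply] at h9
      linarith

/-- the degrees of the roots of the first skew type -/
private theorem fv_S (D : Dt L e) (hM : ∀ h k, Rt L h → Rt L k → h ⬝ᵥ h = k ⬝ᵥ k)
    (F : Frame L e ω γ δ β κ ξ) (T : Rt L θ) (h1 : cf θ γ = 1 ∨ cf θ γ = -1)
    (h2 : cf θ β = 1 ∨ cf θ β = -1) : 2 * cf e θ = cf θ γ + cf θ β := by
  have key : ∀ θ, Rt L θ → cf θ γ = 1 → cf θ β = 1 → cf e θ = 1 := by
    intro θ T h1 h2
    have T1 := sub_root D.toLat T F.rγ h1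
    have h3 : cf (θ - γ) β = 1 := by rw [cf_sub, h2, F.o13, sub_zero]
    have T2 := sub_root D.toLat T1 F.rβ h3
    have h4 := D.eps T2
    have h5 := D.eps T
    rw [cf_sub_right hM T1 F.rβ T2, cf_sub_right hM T F.rγ T1, F.eγ, F.eβ] at h4
    rcases h5 with h5 | h5 | h5
    · rw [h5] at h4
      norm_num at h4
    · rw [h5] at h4
      norm_num at h4
    · exact h5
  have o31 : cf β γ = 0 := (Rt_symm F.rγ F.rβ).2 F.o13
  rcases h1 with h1 | h1 <;> rcases h2 with h2 | h2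
  · rw [key θ T h1 h2, h1, h2]
    norm_num
  · have T1 := add_root D.toLat T F.rβ h2
    have h3 := key _ T1 (by rw [cf_add, h1, o31, add_zero])
      (by rw [cf_add, h2, Rt_self F.rβ]; norm_num)
    rw [cf_add_right hM T F.rβ T1, F.eβ] at h3
    rw [h1, h2]
    linarith
  · have T1 := add_root D.toLat T F.rγ h1
    have h3 := key _ T1 (by rw [cf_add, h1, Rt_self F.rγ]; norm_num)
      (by rw [cf_add, h2, F.o13, add_zero])
    rw [cf_add_right hM T F.rγ T1, F.eγ] at h3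
    rw [h1, h2]
    linarith
  · have h3 := key _ T.neg (by rw [cf_neg, h1, neg_neg]) (by rw [cf_neg, h2, neg_neg])
    rw [cf_neg_right] at h3
    rw [h1, h2]
    linarith

theorem frame_eps (D : Dt L e) (hM : ∀ h k, Rt L h → Rt L k → h ⬝ᵥ h = k ⬝ᵥ k)
    (F : Frame L e ω γ δ β κ ξ) (T : Rt L θ) (h1 : TS γ δ β κ θ) :
    2 * cf e θ = cf θ γ + cf θ β := by
  have o21 : cf δ γ = 0 := (Rt_symm F.rγ F.rδ).2 F.o12
  have o31 : cf β γ = 0 := (Rt_symm F.rγ F.rβ).2 F.o13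
  have o41 : cf κ γ = 0 := (Rt_symm F.rγ F.rκ).2 F.o14
  have o32 : cf β δ = 0 := (Rt_symm F.rδ F.rβ).2 F.o23
  have o42 : cf κ δ = 0 := (Rt_symm F.rδ F.rκ).2 F.o24
  have o43 : cf κ β = 0 := (Rt_symm F.rβ F.rκ).2 F.o34
  rcases h1 with ⟨-, -, h3, h4⟩ | ⟨h3, h4, h5, h6⟩
  · exact fv_S D hM F T (fv_pm hM T F.rγ F.o13 h3 h4) (fv_pm hM T F.rβ o31 h4 h3)
  · have xγ : cf ξ γ = 1 := fv_xi F (by rw [Rt_self F.rγ, o21, o31, o41]; norm_num)
    have xβ : cf ξ β = 1 := fv_xi F (by rw [Rt_self F.rβ, F.o13, F.o23, o43]; norm_num)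
    have xe : cf e ξ = 1 := by
      have h7 := F.xi hM (θ := e)
      rw [F.eγ, F.eδ, F.eβ, F.eκ] at h7
      linarith
    have key : ∀ θ, Rt L θ → cf θ γ = 0 → cf θ δ = 1 → cf θ β = 0 → cf θ κ = 1 →
        cf e θ = 0 := by
      intro θ T h1 h2 h3 h4
      have h5 := F.xi hM (θ := θ)
      rw [h1, h2, h3, h4] at h5
      have h6 : cf θ ξ = 1 := by linarith
      have T1 := sub_root D.toLat T F.rξ h6
      have h7 : cf (θ - ξ) γ = -1 := by rw [cf_sub, h1, xγ]; norm_num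
      have h8 : cf (θ - ξ) β = -1 := by rw [cf_sub, h3, xβ]; norm_num
      have h9 := fv_S D hM F T1 (Or.inr h7) (Or.inr h8)
      rw [h7, h8, cf_sub_right hM T F.rξ T1, xe] at h9
      linarith
    have h7 := fv_pm hM T F.rδ F.o24 h5 h6
    have h8 := fv_pm hM T F.rκ o42 h6 h5
    rw [h3, h4]
    rcases h7 with h7 | h7 <;> rcases h8 with h8 | h8
    · rw [key θ T h3 h7 h4 h8]
      norm_num
    · have T1 := add_root D.toLat T F.rκ h8
      have h9 := key _ T1 (by rw [cf_add, h3, o41, add_zero]) (by rw [cf_add, h7, o42, add_zero])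
        (by rw [cf_add, h4, o43, add_zero]) (by rw [cf_add, h8, Rt_self F.rκ]; norm_num)
      rw [cf_add_right hM T F.rκ T1, F.eκ] at h9
      linarith
    · have T1 := add_root D.toLat T F.rδ h7
      have h9 := key _ T1 (by rw [cf_add, h3, o21, add_zero])
        (by rw [cf_add, h7, Rt_self F.rδ]; norm_num) (by rw [cf_add, h4, F.o23, add_zero])
        (by rw [cf_add, h8, F.o24, add_zero])
      rw [cf_add_right hM T F.rδ T1, F.eδ] at h9
      linarith
    · have h9 := key _ T.neg (by rw [cf_neg, h3, neg_zero]) (by rw [cf_neg, h7, neg_neg])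
        (by rw [cf_neg, h4, neg_zero]) (by rw [cf_neg, h8, neg_neg])
      rw [cf_neg_right] at h9
      linarith

end Pool.Agent.NumRank
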