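import Pool.Agent.NumRank.FrameExcl
import Pool.Agent.NumRank.FrameVal

/-!
# Four orthogonal roots force balance
-/

set_option autoImplicit false
set_option linter.unusedSectionVars false

namespace Pool.Agent.NumRank

open Pool.Agent.PrimePow.CC

variable {Ω : Type*} [Fintype Ω] {L : AddSubgroup (Ω → ℚ)} {e f h k : Ω → ℚ}

/-- the first linear form -/
private noncomputable def fdA (γ δ : Ω → ℚ) (ω : Ω) : (Ω → ℚ) →ₗ[ℚ] ℚ where
  toFun f := 2 * f ω - cf f γ - cf f δ
  map_add' f g := by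
    rw [cf_add, cf_add, Pi.add_apply]
    ring
  map_smul' c f := by
    rw [cf_smul, cf_smul, Pi.smul_apply, smul_eq_mul, smul_eq_mul, RingHom.id_apply]
    ring

/-- the second linear form -/
private noncomputable def fdB (u : Ω → ℚ) : (Ω → ℚ) →ₗ[ℚ] ℚ where
  toFun f := f ⬝ᵥ u
  map_add' f g := add_dotProduct f g u
  map_smul' c f := smul_dotProduct c f u

/-- the roots not orthogonal to the frame -/
private def fdS (γ δ β κ : Ω → ℚ) (f : Ω → ℚ) : Prop :=
  ¬ (cf f γ = 0 ∧ cf f δ = 0 ∧ cf f β = 0 ∧ cf f κ = 0)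

private theorem fdS_stable {γ δ β κ : Ω → ℚ} (f g : Ω → ℚ) (hf : ¬ fdS γ δ β κ f)
    (hg : fdS γ δ β κ g) : fdS γ δ β κ (g - cf g f • f) := by
  unfold fdS at hf hg ⊢
  rw [not_not] at hf
  obtain ⟨h1, h2, h3, h4⟩ := hf
  rw [cf_sub, cf_sub, cf_sub, cf_sub, cf_smul, cf_smul, cf_smul, cf_smul, h1, h2, h3, h4,
    mul_zero, sub_zero, sub_zero, sub_zero, sub_zero]
  exact hg

theorem balanced_of_frame (D : Dt L e) (hM : ∀ h k, Rt L h → Rt L k → h ⬝ᵥ h = k ⬝ᵥ k)
    {ω : Ω} {γ δ β κ ξ : Ω → ℚ} (F : Frame L e ω γ δ β κ ξ) :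
    2 * ∑ ω, e ω = Fintype.card Ω := by
  have hS1 : ∃ h, Rt L h ∧ fdS γ δ β κ h := by
    refine ⟨γ, F.rγ, fun h => ?_⟩
    have h1 := h.1
    rw [Rt_self F.rγ] at h1
    norm_num at h1
  by_cases hTS : ∃ η, Rt L η ∧ TS γ δ β κ η
  · -- no root of vertical type
    obtain ⟨η, hη, hηS⟩ := hTS
    have hall : ∀ h, Rt L h → h ⬝ᵥ (e + e - γ - β) = 0 := by
      intro h H
      refine D.spread (fdS γ δ β κ) hS1 (fun f g _ _ => fdS_stable f g)
        (fdB (e + e - γ - β)) (fun θ T hθ => ?_) H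
      change θ ⬝ᵥ (e + e - γ - β) = 0
      have n1 : γ ⬝ᵥ γ = θ ⬝ᵥ θ := hM _ _ F.rγ T
      have n2 : δ ⬝ᵥ δ = θ ⬝ᵥ θ := hM _ _ F.rδ T
      have n3 : β ⬝ᵥ β = θ ⬝ᵥ θ := hM _ _ F.rβ T
      have n4 : κ ⬝ᵥ κ = θ ⬝ᵥ θ := hM _ _ F.rκ T
      have m1 := cf_mul (f := θ) (Rt_sq_ne F.rγ)
      have m3 := cf_mul (f := θ) (Rt_sq_ne F.rβ)
      have m5 := cf_mul (f := e) (Rt_sq_ne T)
      have key : 2 * cf e θ = cf θ γ + cf θ β := by
        rcases frame_types D hM F T with h1 | h1 | h1 | h1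
        · have p1 := cf_mul (f := e) (Rt_sq_ne F.rγ)
          have p2 := cf_mul (f := e) (Rt_sq_ne F.rδ)
          have p3 := cf_mul (f := e) (Rt_sq_ne F.rβ)
          have p4 := cf_mul (f := e) (Rt_sq_ne F.rκ)
          rw [F.eγ, n1] at p1
          rw [F.eδ, n2] at p2
          rw [F.eβ, n3] at p3
          rw [F.eκ, n4] at p4
          have h2 := congrArg (fun z => z ⬝ᵥ e) h1
          simp only [add_dotProduct, smul_dotProduct, smul_eq_mul] at h2
          have h3 : (2 * cf e θ - (cf θ γ + cf θ β)) * (θ ⬝ᵥ θ) = 0 := by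
            linear_combination 2 * m5 + 2 * h2 - cf θ γ * p1 - cf θ δ * p2 - cf θ β * p3 -
              cf θ κ * p4
          have h4 := (mul_eq_zero.1 h3).resolve_right (Rt_sq_ne T)
          linarith
        · exact absurd h1 hθ
        · exact absurd hηS fun h2 => frame_excl D hM F T hη h1 h2
        · exact frame_eps D hM F T h1
      rw [dotProduct_sub, dotProduct_sub, dotProduct_add, dotProduct_comm θ γ,
        dotProduct_comm θ β]
      rw [n1] at m1
      rw [n3] at m3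
      linear_combination (θ ⬝ᵥ θ) / 2 * key - m5 + m1 / 2 + m3 / 2
    have hmem : e + e - γ - β ∈ L :=
      L.sub_mem (L.sub_mem (L.add_mem D.he D.he) (Rt_mem F.rγ)) (Rt_mem F.rβ)
    have hconst : ∀ x, (e + e - γ - β) x = 1 := by
      intro x
      rw [D.toLat.const hmem (fun h π H => hall h ⟨π, H⟩) x ω, Pi.sub_apply, Pi.sub_apply,
        Pi.add_apply, F.eω, F.vγ, F.vβ]
      norm_num
    have hsum : ∑ x, (e + e - γ - β) x = Fintype.card Ω := by
      rw [Finset.sum_congr rfl fun x _ => hconst x]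
      simp
    simp only [Pi.sub_apply, Pi.add_apply, Finset.sum_sub_distrib, Finset.sum_add_distrib] at hsum
    rw [Rt_sum F.rγ, Rt_sum F.rβ] at hsum
    linarith
  · -- no root of skew type
    push Not at hTS
    have hall : ∀ h, Rt L h → 2 * h ω - cf h γ - cf h δ = 0 := by
      intro h H
      refine D.spread (fdS γ δ β κ) hS1 (fun f g _ _ => fdS_stable f g)
        (fdA γ δ ω) (fun θ T hθ => ?_) H
      change 2 * θ ω - cf θ γ - cf θ δ = 0
      rcases frame_types D hM F T with h1 | h1 | h1 | h1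
      · have h2 := congrFun h1 ω
        simp only [Pi.add_apply, Pi.smul_apply, smul_eq_mul] at h2
        rw [F.vγ, F.vδ, F.vβ, F.vκ] at h2
        linarith
      · exact absurd h1 hθ
      · have h2 := frame_val D hM F T h1
        linarith
      · exact absurd h1 (hTS θ T)
    obtain ⟨π, hπ, -⟩ := Rt_move F.rγ
    obtain ⟨ρ, hρ, -⟩ := Rt_move F.rδ
    refine D.balanced_of_anti (x := ω) (y := π (ρ ω)) fun h H => ?_
    rw [hπ h (Rt_mem H), hρ h (Rt_mem H), hρ γ (Rt_mem F.rγ), F.vγ, F.vδ, F.o12]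
    have h1 := hall h H
    linarith

end Pool.Agent.NumRank
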