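import Pool.Agent.NumRank.Frame

/-!
# Existence of four orthogonal roots
-/

set_option autoImplicit false
set_option linter.unusedSectionVars false

namespace Pool.Agent.NumRank

open Pool.Agent.PrimePow.CC

variable {Ω : Type*} [Fintype Ω] {L : AddSubgroup (Ω → ℚ)} {e f h k : Ω → ℚ}

/-- no root is orthogonal to `γ` and has the pairings one with `δ` and `β` -/
private theorem core_no23 (D : Dt L e) (hM : ∀ h k, Rt L h → Rt L k → h ⬝ᵥ h = k ⬝ᵥ k)
    {ω : Ω} {γ δ β θ : Ω → ℚ} (eω : e ω = 1) (G : Rt L γ) (Δ : Rt L δ) (B : Rt L β)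
    (o23 : cf δ β = 0) (o13 : cf γ β = 0) (o12 : cf γ δ = 0) (vγ : γ ω = 1) (vδ : δ ω = 1)
    (vβ : β ω = 0) (eγ : cf e γ = 1) (eδ : cf e δ = 0) (eβ : cf e β = 1) (T : Rt L θ)
    (hγ : cf θ γ = 0) (hδ : cf θ δ = 1) (hβ : cf θ β = 1) : False := by
  have hL := D.toLat
  have A := sub_root hL T Δ hδ
  have B' := sub_root hL T B hβ
  have eA : cf e (θ - δ) = cf e θ := by
    rw [cf_sub_right hM T Δ A, eδ, sub_zero]
  have eB' : cf e (θ - β) = cf e θ - 1 := by
    rw [cf_sub_right hM T B B', eβ]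
  have vA : (θ - δ) ω = θ ω - 1 := by rw [Pi.sub_apply, vδ]
  have hx : θ ω = 0 ∨ θ ω = 1 := by
    rcases Rt_val T ω with h1 | h1 | h1
    · exfalso
      rcases Rt_val A ω with h2 | h2 | h2 <;> rw [vA, h1] at h2 <;> norm_num at h2
    · exact Or.inl h1
    · exact Or.inr h1
  have hy : cf e θ = 0 ∨ cf e θ = 1 := by
    rcases D.eps T with h1 | h1 | h1
    · exfalso
      rcases D.eps B' with h2 | h2 | h2 <;> rw [eB', h1] at h2 <;> norm_num at h2
    · exact Or.inl h1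
    · exact Or.inr h1
  rcases hy with hy | hy
  · have hβ' : cf β θ = 1 := by rw [cf_symm hM B T, hβ]
    have C := sub_root hL B T hβ'
    have eC : cf e (β - θ) = 1 := by
      rw [cf_sub_right hM B T C, eβ, hy, sub_zero]
    have oC : cf (β - θ) γ = 0 := by
      rw [cf_sub, hγ, cf_symm hM B G, o13, sub_zero]
    have h1 := D.disj C G eC eγ oC ω
    rw [vγ] at h1
    have h2 : (β - θ) ω = 0 := h1.resolve_right one_ne_zero
    rw [Pi.sub_apply, vβ, zero_sub, neg_eq_zero] at h2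
    have hβA : cf β (θ - δ) = 1 := by
      rw [cf_sub_right hM T Δ A, hβ', cf_symm hM B Δ, o23, sub_zero]
    have E := sub_root hL B A hβA
    have eE : cf e (β - (θ - δ)) = 1 := by
      rw [cf_sub_right hM B A E, eβ, eA, hy, sub_zero]
    have oE : cf (β - (θ - δ)) γ = 0 := by
      rw [cf_sub, cf_sub, hγ, cf_symm hM B G, o13, cf_symm hM Δ G, o12]
      norm_num
    have h3 := D.disj E G eE eγ oE ω
    rw [vγ] at h3
    have h4 : (β - (θ - δ)) ω = 0 := h3.resolve_right one_ne_zero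
    rw [Pi.sub_apply, vA, vβ, h2] at h4
    norm_num at h4
  · have h1 := D.disj T G hy eγ hγ ω
    rw [vγ] at h1
    have h2 : θ ω = 0 := h1.resolve_right one_ne_zero
    have h3 := D.val1 A (by rw [eA, hy]) eω
    rw [vA, h2] at h3
    norm_num at h3

/-- make the pairing with one root positive -/
private theorem flip_one (hL : Lat L) (hM : ∀ h k, Rt L h → Rt L k → h ⬝ᵥ h = k ⬝ᵥ k)
    {p q r θ : Ω → ℚ} (P : Rt L p) (T : Rt L θ) (hpq : cf p q = 0) (hpr : cf p r = 0)
    (h0 : cf θ p ≠ 0) (h1 : ¬ θ = p) (h2 : ¬ θ = -p) :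
    ∃ θ', Rt L θ' ∧ cf θ' p = 1 ∧ cf θ' q = cf θ q ∧ cf θ' r = cf θ r := by
  rcases cf_cases hM T P with h | h | h | h | h
  · exact absurd h h1
  · exact absurd h h2
  · refine ⟨θ - cf θ p • p, Rt_refl P T hL, ?_, cf_flip_orth hpq, cf_flip_orth hpr⟩
    rw [cf_flip P, h, neg_neg]
  · exact absurd h h0
  · exact ⟨θ, T, h, rfl, rfl⟩

theorem exists_frame (D : Dt L e) (hM : ∀ h k, Rt L h → Rt L k → h ⬝ᵥ h = k ⬝ᵥ k)
    (h1 : ∃ γ γ', Rt L γ ∧ Rt L γ' ∧ cf e γ = 1 ∧ cf e γ' = 1 ∧ cf γ γ' = 0)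
    (h2 : ∃ ω γ γ', Rt L γ ∧ Rt L γ' ∧ γ ω = 1 ∧ γ' ω = 1 ∧ cf γ γ' = 0) :
    ∃ ω γ δ β κ ξ, Frame L e ω γ δ β κ ξ := by
  have hL := D.toLat
  obtain ⟨γ, ω, G, eγ, eω, vγ⟩ := D.ex_root
  obtain ⟨δ, Δ, vδ, o12⟩ := partner_val D hM h2 G vγ
  obtain ⟨β, B, eβ, o13⟩ := partner_one D hM h1 G eγ
  have vβ : β ω = 0 := by
    have h := D.disj G B eγ eβ o13 ω
    rw [vγ] at h
    exact h.resolve_left one_ne_zero
  have eδ : cf e δ = 0 := by
    rcases D.eps Δ with h | h | h
    · exfalso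
      have h3 := D.val1 Δ.neg (by rw [cf_neg_right, h, neg_neg]) eω
      rw [Pi.neg_apply, vδ] at h3
      norm_num at h3
    · exact h
    · exfalso
      have h3 := D.disj G Δ eγ h o12 ω
      rw [vγ, vδ] at h3
      norm_num at h3
  have o21 : cf δ γ = 0 := by rw [cf_symm hM Δ G, o12]
  have o31 : cf β γ = 0 := by rw [cf_symm hM B G, o13]
  have o23 : cf δ β = 0 := by
    rcases cf_cases hM Δ B with h | h | h | h | h
    · rw [h, vβ] at vδ
      norm_num at vδ
    · rw [h, Pi.neg_apply, vβ] at vδ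
      norm_num at vδ
    · exfalso
      have R := add_root hL Δ B h
      have h3 := D.disj G R eγ (by rw [cf_add_right hM Δ B R, eδ, eβ, zero_add])
        (by rw [cf_add_right hM Δ B R, o12, o13, zero_add]) ω
      rw [vγ, Pi.add_apply, vδ, vβ] at h3
      norm_num at h3
    · exact h
    · exfalso
      have h' : cf β δ = 1 := by rw [cf_symm hM B Δ, h]
      have R := sub_root hL B Δ h'
      have h3 := D.val1 R (by rw [cf_sub_right hM B Δ R, eδ, eβ, sub_zero]) eω
      rw [Pi.sub_apply, vδ, vβ] at h3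
      norm_num at h3
  have o32 : cf β δ = 0 := by rw [cf_symm hM B Δ, o23]
  have no23 : ∀ θ, Rt L θ → cf θ γ = 0 → cf θ δ ≠ 0 → cf θ β = 0 := by
    intro θ T hγ hδ
    by_contra hβ
    obtain ⟨θ₁, T₁, a1, a2, a3⟩ := flip_one hL hM Δ T o23 o21 hδ
      (by rintro rfl; exact hβ o23) (by rintro rfl; exact hβ (by rw [cf_neg, o23, neg_zero]))
    obtain ⟨θ₂, T₂, b1, b2, b3⟩ := flip_one hL hM B T₁ o32 o31 (by rw [a2]; exact hβ)
      (by rintro rfl; rw [o32] at a1; exact zero_ne_one a1)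
      (by rintro rfl; rw [cf_neg, o32, neg_zero] at a1; exact zero_ne_one a1)
    exact core_no23 D hM eω G Δ B o23 o13 o12 vγ vδ vβ eγ eδ eβ T₂
      (by rw [b3, a3, hγ]) (by rw [b2, a1]) b1
  obtain ⟨ξ₀, X₀, l1, l2⟩ := D.link Δ B
  rw [dotProduct_comm, ← cf_ne_zero Δ] at l1
  rw [dotProduct_comm, ← cf_ne_zero B] at l2
  obtain ⟨ξ₁, X₁, a1, a2, -⟩ := flip_one hL hM Δ X₀ o23 o21 l1
    (by rintro rfl; exact l2 o23) (by rintro rfl; exact l2 (by rw [cf_neg, o23, neg_zero]))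
  obtain ⟨ξ₂, X₂, b1, b2, -⟩ := flip_one hL hM B X₁ o32 o31 (by rw [a2]; exact l2)
    (by rintro rfl; rw [o32] at a1; exact zero_ne_one a1)
    (by rintro rfl; rw [cf_neg, o32, neg_zero] at a1; exact zero_ne_one a1)
  rw [a1] at b2
  have hγ2 : cf ξ₂ γ ≠ 0 := by
    intro h
    have h3 := no23 ξ₂ X₂ h (by rw [b2]; exact one_ne_zero)
    rw [b1] at h3
    exact one_ne_zero h3
  obtain ⟨ξ, X, c1, c2, c3⟩ := flip_one hL hM G X₂ o12 o13 hγ2
    (by rintro rfl; rw [o12] at b2; exact zero_ne_one b2)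
    (by rintro rfl; rw [cf_neg, o12, neg_zero] at b2; exact zero_ne_one b2)
  rw [b2] at c2
  rw [b1] at c3
  -- values
  have R1 := sub_root hL X G c1
  have R12 : Rt L (ξ - γ - δ) := sub_root hL R1 Δ (by rw [cf_sub, c2, o12, sub_zero])
  have R13 : Rt L (ξ - γ - β) := sub_root hL R1 B (by rw [cf_sub, c3, o13, sub_zero])
  have R123 : Rt L (ξ - γ - δ - β) :=
    sub_root hL R12 B (by rw [cf_sub, cf_sub, c3, o13, o23, sub_zero, sub_zero])
  have vξ : ξ ω = 1 := by
    rcases Rt_val X ω with h | h | h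
    · exfalso
      rcases Rt_val R12 ω with h3 | h3 | h3 <;>
        rw [Pi.sub_apply, Pi.sub_apply, vγ, vδ, h] at h3 <;> norm_num at h3
    · exfalso
      rcases Rt_val R12 ω with h3 | h3 | h3 <;>
        rw [Pi.sub_apply, Pi.sub_apply, vγ, vδ, h] at h3 <;> norm_num at h3
    · exact h
  have eξ : cf e ξ = 1 := by
    rcases D.eps X with h | h | h
    · exfalso
      rcases D.eps R13 with h3 | h3 | h3 <;>
        rw [cf_sub_right hM R1 B R13, cf_sub_right hM X G R1, eγ, eβ, h] at h3 <;>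
        norm_num at h3
    · exfalso
      rcases D.eps R13 with h3 | h3 | h3 <;>
        rw [cf_sub_right hM R1 B R13, cf_sub_right hM X G R1, eγ, eβ, h] at h3 <;>
        norm_num at h3
    · exact h
  have hκ : cf (ξ - γ - δ - β) ξ = -1 := by
    rw [cf_sub, cf_sub, cf_sub, Rt_self X, cf_symm hM G X, cf_symm hM Δ X, cf_symm hM B X, c1,
      c2, c3]
    norm_num
  have K := add_root hL R123 X hκ
  refine ⟨ω, γ, δ, β, (ξ - γ - δ - β) + ξ, ξ, ?_⟩
  exact
    { eω := eω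
      rγ := G
      rδ := Δ
      rβ := B
      rκ := K
      rξ := X
      sum := by
        funext a
        simp only [Pi.add_apply, Pi.sub_apply, Pi.smul_apply, smul_eq_mul]
        ring
      o12 := o12
      o13 := o13
      o14 := by
        rw [cf_symm hM G K, cf_add, cf_sub, cf_sub, cf_sub, c1, Rt_self G, o21, o31]
        norm_num
      o23 := o23
      o24 := by
        rw [cf_symm hM Δ K, cf_add, cf_sub, cf_sub, cf_sub, c2, Rt_self Δ, o12, o32]
        norm_num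
      o34 := by
        rw [cf_symm hM B K, cf_add, cf_sub, cf_sub, cf_sub, c3, Rt_self B, o13, o23]
        norm_num
      vγ := vγ
      vδ := vδ
      vβ := vβ
      vκ := by
        rw [Pi.add_apply, Pi.sub_apply, Pi.sub_apply, Pi.sub_apply, vξ, vγ, vδ, vβ]
        norm_num
      eγ := eγ
      eδ := eδ
      eβ := eβ
      eκ := by
        rw [cf_add_right hM R123 X K, cf_sub_right hM R12 B R123, cf_sub_right hM R1 Δ R12,
          cf_sub_right hM X G R1, eξ, eγ, eδ, eβ]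
        norm_num
      no23 := no23 }

end Pool.Agent.NumRank
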