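import Pool.Agent.NumRank.OneNorm

/-!
# Roots which take the value one only once
-/

set_option autoImplicit false
set_option linter.unusedSectionVars false

namespace Pool.Agent.NumRank

open Pool.Agent.PrimePow.CC

variable {Ω : Type*} [Fintype Ω] {L : AddSubgroup (Ω → ℚ)} {e f h k : Ω → ℚ}

private theorem uo_move {π : Equiv.Perm Ω} (H : Rf L h π) (hf : f ∈ L) (ω : Ω) :
    f (π ω) = f ω - cf f h * h ω := by
  obtain ⟨a, ha, ha'⟩ := H.coef hf
  have h1 : cf f h = a := by
    unfold cf
    rw [← ha']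
    field_simp [H.dot_self_pos.ne']
  rw [ha, h1]

theorem uniq_one (D : Dt L e) (hM : ∀ h k, Rt L h → Rt L k → h ⬝ᵥ h = k ⬝ᵥ k)
    (hN : ∀ ω γ γ', Rt L γ → Rt L γ' → γ ω = 1 → γ' ω = 1 → cf γ γ' ≠ 0)
    (H : Rt L h) {x y : Ω} (hx : h x = 1) (hy : h y = 1) : x = y := by
  have h1 := D.tr {y | y = x ∨ ∃ θ, Rt L θ ∧ θ x = 1 ∧ ∀ f ∈ L, f y = f x - cf f θ}
    ⟨x, Or.inl rfl⟩ (by
      intro η ρ hη y hy
      have Hη : Rt L η := ⟨ρ, hη⟩
      rcases hy with rfl | ⟨θ, Hθ, hθx, hθ⟩
      · rcases Rt_val Hη y with h2 | h2 | h2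
        · refine Or.inr ⟨-η, Hη.neg, ?_, fun f hf => ?_⟩
          · rw [Pi.neg_apply, h2, neg_neg]
          · rw [uo_move hη hf, h2, cf_neg_right]
            ring
        · refine Or.inl (D.sep _ _ fun f hf => ?_)
          rw [uo_move hη hf, h2, mul_zero, sub_zero]
        · refine Or.inr ⟨η, Hη, h2, fun f hf => ?_⟩
          rw [uo_move hη hf, h2, mul_one]
      · by_cases h0 : η y = 0
        · have h3 : ρ y = y := D.sep _ _ fun f hf => by
            rw [uo_move hη hf, h0, mul_zero, sub_zero]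
          rw [Set.mem_ofPred_eq, h3]
          exact Or.inr ⟨θ, Hθ, hθx, hθ⟩
        · obtain ⟨ξ, Hξ, hξy, hξ⟩ : ∃ ξ, Rt L ξ ∧ ξ y = -1 ∧
              ∀ f ∈ L, f (ρ y) = f y + cf f ξ := by
            rcases Rt_val Hη y with h2 | h2 | h2
            · refine ⟨η, Hη, h2, fun f hf => ?_⟩
              rw [uo_move hη hf, h2]
              ring
            · exact absurd h2 h0
            · refine ⟨-η, Hη.neg, ?_, fun f hf => ?_⟩
              · rw [Pi.neg_apply, h2]
              · rw [uo_move hη hf, h2, cf_neg_right]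
                ring
          have h4 : ξ x = cf ξ θ - 1 := by
            have h5 := hθ ξ (Rt_mem Hξ)
            rw [hξy] at h5
            linarith
          rcases cf_cases hM Hξ Hθ with h5 | h5 | h5 | h5 | h5
          · subst h5
            refine Or.inl (D.sep _ _ fun f hf => ?_)
            rw [hξ f hf, hθ f hf]
            ring
          · exfalso
            rw [h5, cf_neg, Rt_self Hθ, Pi.neg_apply, hθx] at h4
            norm_num at h4
          · exfalso
            rw [h5] at h4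
            rcases Rt_val Hξ x with h6 | h6 | h6 <;> rw [h6] at h4 <;> norm_num at h4
          · exfalso
            rw [h5] at h4
            refine hN x θ (-ξ) Hθ Hξ.neg hθx ?_ ?_
            · rw [Pi.neg_apply, h4]
              norm_num
            · rw [cf_neg_right, ← cf_symm hM Hξ Hθ, h5, neg_zero]
          · have h6 : cf θ ξ = 1 := by rw [← cf_symm hM Hξ Hθ, h5]
            have h7 : Rt L (θ - ξ) := sub_root D.toLat Hθ Hξ h6
            refine Or.inr ⟨θ - ξ, h7, ?_, fun f hf => ?_⟩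
            · rw [Pi.sub_apply, hθx, h4, h5]
              norm_num
            · rw [hξ f hf, hθ f hf, cf_sub_right hM Hθ Hξ h7]
              ring)
  have h2 : y ∈ {y | y = x ∨ ∃ θ, Rt L θ ∧ θ x = 1 ∧ ∀ f ∈ L, f y = f x - cf f θ} :=
    h1 ▸ Set.mem_univ y
  rcases h2 with h2 | ⟨θ, Hθ, hθx, hθ⟩
  · exact h2.symm
  · exfalso
    have h3 := hθ h (Rt_mem H)
    rw [hx, hy] at h3
    exact hN x h θ H Hθ hx hθx (by linarith)

end Pool.Agent.NumRank
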