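import Pool.Agent.NumRank.TwoEnd
import Pool.Agent.NumRank.FrameEx
import Pool.Agent.NumRank.FrameEnd
import Pool.Agent.NumRank.UniqOne
import Pool.Agent.NumRank.Choose

/-!
# The combinatorial theorem
-/

set_option autoImplicit false
set_option linter.unusedSectionVars false

namespace Pool.Agent.NumRank

open Pool.Agent.PrimePow.CC

variable {Ω : Type*} [Fintype Ω] {L : AddSubgroup (Ω → ℚ)} {e f h k : Ω → ℚ}

theorem same_norm (D : Dt L e) (hb : 2 * ∑ ω, e ω ≠ (Fintype.card Ω : ℚ)) :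
    ∀ h k, Rt L h → Rt L k → h ⬝ᵥ h = k ⬝ᵥ k := by
  intro h k H K
  by_contra hne
  obtain ⟨k, k', T, hk, hk'⟩ := exists_ctwo D ⟨h, k, H, K, hne⟩
  exact hb (balanced_of_ctwo D T hk hk')

theorem one_or_choose (D : Dt L e) (hb : 2 * ∑ ω, e ω ≠ (Fintype.card Ω : ℚ)) :
    (∀ h, Rt L h → ∀ x y, h x = 1 → h y = 1 → x = y) ∨
    ∃ N k : ℕ, 2 ≤ k ∧ k + 2 ≤ N ∧ Fintype.card Ω = N.choose k ∧
      ∑ ω, e ω = ((N - 1).choose (k - 1) : ℕ) := by
  have hM := same_norm D hb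
  by_cases h1 : ∃ γ γ', Rt L γ ∧ Rt L γ' ∧ cf e γ = 1 ∧ cf e γ' = 1 ∧ cf γ γ' = 0
  · by_cases h2 : ∃ ω γ γ', Rt L γ ∧ Rt L γ' ∧ γ ω = 1 ∧ γ' ω = 1 ∧ cf γ γ' = 0
    · obtain ⟨ω, γ, δ, β, κ, ξ, F⟩ := exists_frame D hM h1 h2
      exact absurd (balanced_of_frame D hM F) hb
    · left
      push Not at h2
      exact fun h H x y hx hy => uniq_one D hM h2 H hx hy
  · push Not at h1
    exact one_or_choose' D hM h1

end Pool.Agent.NumRank
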