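import Mathlib

/-!
# Half ranks
-/

set_option autoImplicit false
set_option linter.unusedSectionVars false

namespace Pool.Agent.NumRank

open Module

variable {K V : Type*} [Field K] [CharZero K] [AddCommGroup V] [Module K V]
  [FiniteDimensional K V] {W : Submodule K V}

/-- a self-dual subspace has generators of half rank -/
theorem half_of_selfDual {e : Module.End K V} (hee : e * e = e) (heW : ∀ w ∈ W, e w ∈ W)
    {φ : V →ₗ[K] V →ₗ[K] K} (hnd : ∀ x ∈ W, (∀ y ∈ W, φ x y = 0) → x = 0)
    (hφ : ∀ x ∈ W, ∀ y ∈ W, φ (e x) y + φ x (e y) = φ x y) :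
    2 * finrank K (W.map e) = finrank K W := by
  have hee' : ∀ x : V, e (e x) = e x := fun x => by
    have := congrArg (fun g : Module.End K V => g x) hee
    simpa using this
  have h11 : ∀ x ∈ W, ∀ y ∈ W, φ (e x) (e y) = 0 := by
    intro x hx y hy
    have h := hφ (e x) (heW x hx) (e y) (heW y hy)
    rw [hee', hee'] at h
    exact left_eq_add.mp h.symm
  have h00 : ∀ x ∈ W, ∀ y ∈ W, e x = 0 → e y = 0 → φ x y = 0 := by
    intro x hx y hy h1 h2
    have h := hφ x hx y hy
    rw [h1, h2] at h
    simpa using h.symm
  set f : W →ₗ[K] V := e.domRestrict W with hf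
  have hfx : ∀ x : W, f x = e (x : V) := fun x => rfl
  have hrange : LinearMap.range f = W.map e := by
    rw [hf, LinearMap.range_domRestrict]
  have hrn := LinearMap.finrank_range_add_finrank_ker f
  -- first pairing
  let A : LinearMap.range f →ₗ[K] Module.Dual K (LinearMap.ker f) :=
    { toFun := fun u => (φ (u : V)).comp (W.subtype.comp (LinearMap.ker f).subtype)
      map_add' := fun u v => by ext w; simp
      map_smul' := fun c u => by ext w; simp }
  let B : LinearMap.ker f →ₗ[K] Module.Dual K (LinearMap.range f) :=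
    { toFun := fun w => (φ ((w : W) : V)).comp (LinearMap.range f).subtype
      map_add' := fun u v => by ext w; simp
      map_smul' := fun c u => by ext w; simp }
  have hA : Function.Injective A := by
    rw [← LinearMap.ker_eq_bot, LinearMap.ker_eq_bot']
    intro u hu
    obtain ⟨u, hu'⟩ := u
    obtain ⟨x, rfl⟩ := hu'
    have h0 : ∀ w : LinearMap.ker f, φ (f x) ((w : W) : V) = 0 := fun w =>
      congrArg (fun g : Module.Dual K (LinearMap.ker f) => g w) hu
    apply Subtype.ext
    show f x = 0
    rw [hfx]
    refine hnd _ (heW _ x.2) fun y hy => ?_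
    have h1 := h11 x x.2 y hy
    have hker : (⟨y - e y, W.sub_mem hy (heW y hy)⟩ : W) ∈ LinearMap.ker f := by
      rw [LinearMap.mem_ker, hfx]
      show e (y - e y) = 0
      rw [map_sub, hee', sub_self]
    have h2 := h0 ⟨_, hker⟩
    rw [hfx] at h2
    have h3 : φ (e (x : V)) (y - e y) = 0 := h2
    rw [map_sub, h1, sub_zero] at h3
    exact h3
  have hB : Function.Injective B := by
    rw [← LinearMap.ker_eq_bot, LinearMap.ker_eq_bot']
    intro w hw
    have h0 : ∀ u : LinearMap.range f, φ ((w : W) : V) (u : V) = 0 := fun u =>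
      congrArg (fun g : Module.Dual K (LinearMap.range f) => g u) hw
    have hwe : e ((w : W) : V) = 0 := by
      have := w.2
      rwa [LinearMap.mem_ker, hfx] at this
    apply Subtype.ext
    apply Subtype.ext
    show ((w : W) : V) = 0
    refine hnd _ (w : W).2 fun y hy => ?_
    have h1 : φ ((w : W) : V) (e y) = 0 := h0 ⟨e y, ⟨⟨y, hy⟩, rfl⟩⟩
    have h2 : φ ((w : W) : V) (y - e y) = 0 :=
      h00 _ (w : W).2 _ (W.sub_mem hy (heW y hy)) hwe (by rw [map_sub, hee', sub_self])
    rw [map_sub, h1, sub_zero] at h2
    exact h2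
  have h1 : finrank K (LinearMap.range f) ≤ finrank K (LinearMap.ker f) := by
    have := LinearMap.finrank_le_finrank_of_injective hA
    rwa [Subspace.dual_finrank_eq] at this
  have h2 : finrank K (LinearMap.ker f) ≤ finrank K (LinearMap.range f) := by
    have := LinearMap.finrank_le_finrank_of_injective hB
    rwa [Subspace.dual_finrank_eq] at this
  rw [← hrange]
  omega

end Pool.Agent.NumRank
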