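import Pool.Agent.Mod4.Ideal
import Pool.Agent.PrimePow.Main

/-!
# Ranks of operators on a sum of copies
-/

set_option autoImplicit false
set_option linter.unusedSectionVars false

namespace Pool.Agent.NumRank

open Module Pool.Agent.CoprimeSig

variable {K V : Type*} [Field K] [CharZero K] [IsAlgClosed K] [AddCommGroup V] [Module K V]
  [FiniteDimensional K V] {g t : Submodule K (End K V)}

private theorem fr_map {S T : Submodule K V} {b : End K V} (hTS : T ≤ S)
    (h : S ⊓ LinearMap.ker b = ⊥) : finrank K (T.map b) = finrank K T := by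
  have h1 := LinearMap.finrank_range_add_finrank_ker (b.domRestrict T)
  have h2 : LinearMap.ker (b.domRestrict T) = ⊥ := by
    rw [LinearMap.ker_eq_bot']
    intro w hw
    have h3 : (w : V) ∈ S ⊓ LinearMap.ker b := ⟨hTS w.2, hw⟩
    rw [h, Submodule.mem_bot] at h3
    exact Subtype.ext h3
  have h4 : LinearMap.range (b.domRestrict T) = T.map b := by
    ext w
    constructor
    · rintro ⟨u, rfl⟩
      exact ⟨u, u.2, rfl⟩
    · rintro ⟨u, hu, rfl⟩
      exact ⟨⟨u, hu⟩, rfl⟩
  rw [h2, finrank_bot, add_zero, h4] at h1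
  exact h1

private theorem copies_aux {s : Submodule K (End K V)} {S : Submodule K V}
    (hSs : ∀ y ∈ s, ∀ w ∈ S, y w ∈ S)
    (hSmin : ∀ T : Submodule K V, T ≤ S → (∀ y ∈ s, ∀ w ∈ T, y w ∈ T) → T = ⊥ ∨ T = S)
    (htop : (⨆ b : {b : End K V // ∀ y ∈ s, b * y = y * b}, S.map (b : End K V)) = ⊤) (d : ℕ) :
    ∀ X : Submodule K V, finrank K V - finrank K X < d → (∀ y ∈ s, ∀ w ∈ X, y w ∈ X) →
    ∃ k : ℕ, finrank K V = finrank K X + k * finrank K S ∧
      ∀ e : End K V, (∃ c : K, e - c • 1 ∈ s) →
        finrank K (LinearMap.range e) = finrank K (X.map e) + k * finrank K (S.map e) := by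
  induction d with
  | zero => intro X hd; exact absurd hd (Nat.not_lt_zero _)
  | succ d ih =>
    intro X hd hX
    by_cases hXt : X = ⊤
    · subst hXt
      refine ⟨0, by rw [finrank_top, zero_mul, add_zero], fun e _ => ?_⟩
      rw [zero_mul, add_zero, LinearMap.range_eq_map]
    · obtain ⟨b, hb, hbX⟩ : ∃ b : End K V, (∀ y ∈ s, b * y = y * b) ∧ ¬ S.map b ≤ X := by
        by_contra hcon
        push Not at hcon
        apply hXt
        rw [eq_top_iff, ← htop]
        exact iSup_le fun b => hcon b.1 b.2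
      have hcomm : ∀ y ∈ s, ∀ w, b (y w) = y (b w) := by
        intro y hy w
        rw [← Module.End.mul_apply, ← Module.End.mul_apply, hb y hy]
      have h1 : S ⊓ LinearMap.ker b = ⊥ := by
        rcases hSmin (S ⊓ LinearMap.ker b) inf_le_left (fun y hy w hw => ⟨hSs y hy w hw.1, by
          show b (y w) = 0
          rw [hcomm y hy, LinearMap.mem_ker.1 hw.2, map_zero]⟩) with h | h
        · exact h
        · exfalso
          apply hbX
          rintro _ ⟨w, hw, rfl⟩
          have h2 : w ∈ S ⊓ LinearMap.ker b := by rw [h]; exact hw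
          rw [LinearMap.mem_ker.1 h2.2]
          exact X.zero_mem
      have h2 : S ⊓ X.comap b = ⊥ := by
        rcases hSmin (S ⊓ X.comap b) inf_le_left (fun y hy w hw => ⟨hSs y hy w hw.1, by
          show b (y w) ∈ X
          rw [hcomm y hy]
          exact hX y hy _ hw.2⟩) with h | h
        · exact h
        · exfalso
          apply hbX
          rintro _ ⟨w, hw, rfl⟩
          have h2 : w ∈ S ⊓ X.comap b := by rw [h]; exact hw
          exact h2.2
      have h3 : X ⊓ S.map b = ⊥ := by
        rw [eq_bot_iff]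
        rintro _ ⟨hx, ⟨w, hw, rfl⟩⟩
        have h4 : w ∈ S ⊓ X.comap b := ⟨hw, hx⟩
        rw [h2, Submodule.mem_bot] at h4
        rw [h4, map_zero]
        exact Submodule.zero_mem _
      have hS1 : finrank K (S.map b) = finrank K S := fr_map le_rfl h1
      have hX' : finrank K (X ⊔ S.map b : Submodule K V) = finrank K X + finrank K S := by
        have h5 := Submodule.finrank_sup_add_finrank_inf_eq X (S.map b)
        rw [h3, finrank_bot, add_zero, hS1] at h5
        exact h5
      have hSpos : 0 < finrank K S := by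
        rw [← hS1]
        rw [Module.finrank_pos_iff, Submodule.nontrivial_iff_ne_bot]
        intro h
        apply hbX
        rw [h]
        exact bot_le
      have hle : finrank K (X ⊔ S.map b : Submodule K V) ≤ finrank K V :=
        Submodule.finrank_le _
      have hst : ∀ y ∈ s, ∀ w ∈ X ⊔ S.map b, y w ∈ X ⊔ S.map b := by
        intro y hy w hw
        obtain ⟨u, hu, v, hv, rfl⟩ := Submodule.mem_sup.1 hw
        obtain ⟨w', hw', rfl⟩ := hv
        rw [map_add, ← hcomm y hy]
        exact Submodule.add_mem_sup (hX y hy u hu) ⟨y w', hSs y hy w' hw', rfl⟩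
      obtain ⟨k, hk1, hk2⟩ := ih (X ⊔ S.map b) (by omega) hst
      refine ⟨k + 1, by rw [hk1, hX']; ring, ?_⟩
      rintro e ⟨c, hc⟩
      rw [hk2 e ⟨c, hc⟩]
      have he : ∀ w, e w = (e - c • 1) w + c • w := by
        intro w
        rw [LinearMap.sub_apply, LinearMap.smul_apply, Module.End.one_apply]
        abel
      have heb : ∀ w, e (b w) = b (e w) := by
        intro w
        rw [he (b w), he w, map_add, map_smul, hcomm _ hc]
      have heX : X.map e ≤ X := by
        rintro _ ⟨w, hw, rfl⟩
        rw [he w]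
        exact X.add_mem (hX _ hc w hw) (X.smul_mem c hw)
      have heS : S.map e ≤ S := by
        rintro _ ⟨w, hw, rfl⟩
        rw [he w]
        exact S.add_mem (hSs _ hc w hw) (S.smul_mem c hw)
      have h6 : (S.map b).map e = (S.map e).map b := by
        ext w
        constructor
        · rintro ⟨_, ⟨u, hu, rfl⟩, rfl⟩
          exact ⟨e u, ⟨u, hu, rfl⟩, (heb u).symm⟩
        · rintro ⟨_, ⟨u, hu, rfl⟩, rfl⟩
          exact ⟨b u, ⟨u, hu, rfl⟩, heb u⟩
      have h7 : X.map e ⊓ (S.map b).map e = ⊥ := by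
        rw [eq_bot_iff, ← h3, h6]
        exact inf_le_inf heX (Submodule.map_mono heS)
      have h8 := Submodule.finrank_sup_add_finrank_inf_eq (X.map e) ((S.map b).map e)
      rw [h7, finrank_bot, add_zero, h6, fr_map heS h1] at h8
      rw [Submodule.map_sup, h6, h8]
      ring

/-- Ranks and copies. -/
theorem copies_rank {s : Submodule K (End K V)} {S : Submodule K V} (hS0 : S ≠ ⊥)
    (hSs : ∀ y ∈ s, ∀ w ∈ S, y w ∈ S)
    (hSmin : ∀ T : Submodule K V, T ≤ S → (∀ y ∈ s, ∀ w ∈ T, y w ∈ T) → T = ⊥ ∨ T = S)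
    (htop : (⨆ b : {b : End K V // ∀ y ∈ s, b * y = y * b}, S.map (b : End K V)) = ⊤)
    {X : Submodule K V} (hX : ∀ y ∈ s, ∀ w ∈ X, y w ∈ X) :
    ∃ k : ℕ, finrank K V = finrank K X + k * finrank K S ∧
      ∀ e : End K V, (∃ c : K, e - c • 1 ∈ s) →
        finrank K (LinearMap.range e) = finrank K (X.map e) + k * finrank K (S.map e) :=
  copies_aux hSs hSmin htop _ X (Nat.lt_succ_self _) hX

end Pool.Agent.NumRank
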