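import Pool.Agent.NumRank.Copies
import Pool.Agent.NumRank.CopiesRank

/-!
# Clifford theory for an ideal of an irreducible Lie algebra
-/

set_option autoImplicit false
set_option linter.unusedSectionVars false

namespace Pool.Agent.NumRank

open Module Pool.Agent.CoprimeSig

variable {K V : Type*} [Field K] [CharZero K] [IsAlgClosed K] [AddCommGroup V] [Module K V]
  [FiniteDimensional K V] {g t : Submodule K (End K V)}

theorem clifford [Nontrivial V] (hlie : ∀ a ∈ g, ∀ b ∈ g, a * b - b * a ∈ g)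
    (hirr : ∀ U : Submodule K V, (∀ a ∈ g, ∀ w ∈ U, a w ∈ U) → U = ⊥ ∨ U = ⊤)
    {s : Submodule K (End K V)} (hsg : s ≤ g) (hs : ∀ x ∈ g, ∀ z ∈ s, x * z - z * x ∈ s)
    (htr : ∀ a ∈ s, LinearMap.trace K V a = 0) :
    ∃ n₁ n₂ : ℕ, n₁ * n₂ = finrank K V ∧ (n₁ = 1 → ∀ y ∈ s, y = 0) ∧
      (n₂ = 1 → ∀ e : End K V, (∀ y ∈ s, e * y = y * e) → ∃ c : K, e = c • 1) ∧
      (∀ e : End K V, (∃ c : K, e - c • 1 ∈ s) → n₂ ∣ finrank K (LinearMap.range e)) ∧
      ∀ e : End K V, (∀ y ∈ s, e * y = y * e) → n₁ ∣ finrank K (LinearMap.range e) := by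
  obtain ⟨S, hS0, hSs, hSmin, htop⟩ := exists_copies hlie hirr hsg hs htr
  obtain ⟨k, hk, hk'⟩ := copies_rank hS0 hSs hSmin htop (X := ⊥) (fun y _ w hw => by
    rw [Submodule.mem_bot] at hw ⊢
    rw [hw, map_zero])
  rw [finrank_bot, zero_add] at hk
  refine ⟨finrank K S, k, by rw [hk, mul_comm], ?_, ?_, ?_, ?_⟩
  · intro h1 y hy
    obtain ⟨w, hw⟩ := finrank_eq_one_iff'.1 h1
    obtain ⟨hw0, hw⟩ := hw
    obtain ⟨l, hl⟩ := hw ⟨y w.1, hSs y hy w.1 w.2⟩
    have hl' : y w.1 = l • w.1 := (congrArg Subtype.val hl).symm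
    have hS : ∀ v ∈ S, y v = l • v := by
      intro v hv
      obtain ⟨c, hc⟩ := hw ⟨v, hv⟩
      have hc' : v = c • w.1 := (congrArg Subtype.val hc).symm
      rw [hc', map_smul, hl', smul_comm]
    have hall : ∀ v : V, y v = l • v := by
      have h2 : (⨆ b : {b : End K V // ∀ y ∈ s, b * y = y * b}, S.map (b : End K V)) ≤
          LinearMap.ker (y - l • (1 : End K V)) := by
        refine iSup_le ?_
        rintro ⟨b, hb⟩ _ ⟨v, hv, rfl⟩
        rw [LinearMap.mem_ker, LinearMap.sub_apply, LinearMap.smul_apply, Module.End.one_apply,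
          sub_eq_zero]
        have h3 : y (b v) = (b * y) v := by
          rw [hb y hy]
          rfl
        change y (b v) = l • b v
        rw [h3, Module.End.mul_apply, hS v hv, map_smul]
      rw [htop] at h2
      intro v
      have h3 := h2 (Submodule.mem_top (x := v))
      rw [LinearMap.mem_ker, LinearMap.sub_apply, LinearMap.smul_apply, Module.End.one_apply,
        sub_eq_zero] at h3
      exact h3
    have hy1 : y = l • (1 : End K V) := LinearMap.ext fun v => by
      rw [hall v, LinearMap.smul_apply, Module.End.one_apply]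
    have h4 := htr y hy
    rw [hy1, map_smul, LinearMap.trace_one, smul_eq_mul] at h4
    have h5 : (finrank K V : K) ≠ 0 := by
      exact_mod_cast (finrank_pos (R := K) (M := V)).ne'
    have h6 : l = 0 := by
      rcases mul_eq_zero.1 h4 with h | h
      · exact h
      · exact absurd h h5
    rw [hy1, h6, zero_smul]
  · intro h2 e he
    rw [h2, one_mul] at hk
    have hSt : S = ⊤ := Submodule.eq_top_of_finrank_eq hk.symm
    refine PrimePow.schur_irr (g := s) (fun U hU => ?_) e he
    rcases hSmin U (by rw [hSt]; exact le_top) hU with h | h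
    · exact Or.inl h
    · exact Or.inr (h.trans hSt)
  · intro e he
    rw [hk' e he, Submodule.map_bot, finrank_bot, zero_add]
    exact Dvd.intro _ rfl
  · intro e he
    obtain ⟨k', hk1, -⟩ := copies_rank hS0 hSs hSmin htop (X := LinearMap.range e) (by
      rintro y hy _ ⟨w, rfl⟩
      refine ⟨y w, ?_⟩
      rw [← Module.End.mul_apply, he y hy, Module.End.mul_apply])
    have h1 : finrank K S ∣ finrank K (LinearMap.range e) + k' * finrank K S := by
      rw [← hk1, hk]
      exact Dvd.intro_left _ rfl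
    exact (Nat.dvd_add_left (Dvd.intro_left _ rfl)).1 h1

end Pool.Agent.NumRank
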