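import Pool.Agent.NumRank.Split
import Pool.Agent.NumRank.Clifford

/-!
# The ideal generated by one generator
-/

set_option autoImplicit false
set_option linter.unusedSectionVars false

namespace Pool.Agent.NumRank

open Module Pool.Agent.CoprimeSig Pool.Agent.Mod4
open Pool.Agent.OddRank (lieSpan subset_lieSpan lieSpan_lie lieSpan_le)

variable {K V : Type*} [Field K] [CharZero K] [IsAlgClosed K] [AddCommGroup V] [Module K V]
  [FiniteDimensional K V] {g t : Submodule K (End K V)}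

/-- There is no factorisation of the dimension compatible with the ranks of the generators. -/
def NoSplit (n : ℕ) (r : ℕ → Prop) : Prop :=
  ∀ n₁ n₂ : ℕ, 1 < n₁ → 1 < n₂ → n₁ * n₂ = n → (∀ a, r a → n₁ ∣ a ∨ n₂ ∣ a) →
    (∃ a, r a ∧ n₁ ∣ a) → ¬ ∃ a, r a ∧ n₂ ∣ a

private theorem mem_add_scalar {s : Submodule K (End K V)} (x : End K V) :
    x ∈ s ⊔ Submodule.span K {(1 : End K V)} ↔ ∃ a ∈ s, ∃ c : K, x = a + c • 1 := by
  rw [Submodule.mem_sup]
  constructor
  · rintro ⟨a, ha, b, hb, rfl⟩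
    obtain ⟨c, rfl⟩ := Submodule.mem_span_singleton.1 hb
    exact ⟨a, ha, c, rfl⟩
  · rintro ⟨a, ha, c, rfl⟩
    exact ⟨a, ha, c • 1, Submodule.smul_mem _ _ (Submodule.mem_span_singleton_self 1), rfl⟩

private theorem bracket_scalar (a b : End K V) (c d : K) :
    (a + c • 1) * (b + d • 1) - (b + d • 1) * (a + c • 1) = a * b - b * a := by
  simp only [mul_add, add_mul, smul_mul_assoc, mul_smul_comm, one_mul, mul_one, smul_add]
  rw [smul_smul, smul_smul, mul_comm c d]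
  abel

private theorem scalar_idem [Nontrivial V] {c : K} (h : (c • (1 : End K V)) * (c • 1) = c • 1) :
    c • (1 : End K V) = 0 ∨ c • (1 : End K V) = 1 := by
  rw [smul_mul_smul_comm, one_mul] at h
  have h1 : c * c = c := smul_left_injective K (one_ne_zero (α := End K V)) h
  have h2 : c * (c - 1) = 0 := by linear_combination h1
  rcases mul_eq_zero.1 h2 with h3 | h3
  · left
    rw [h3, zero_smul]
  · right
    rw [sub_eq_zero.1 h3, one_smul]

theorem hall [Nontrivial V] {G : Set (End K V)} (hGe : ∀ e ∈ G, e * e = e)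
    (hone : (1 : End K V) ∈ lieSpan G)
    (hirr : ∀ U : Submodule K V, (∀ e ∈ G, ∀ w ∈ U, e w ∈ U) → U = ⊥ ∨ U = ⊤)
    (hns : ∀ e ∈ G, e ≠ 0 ∧ e ≠ 1)
    (hT : NoSplit (finrank K V) fun a => ∃ e ∈ G, finrank K (LinearMap.range e) = a)
    {e₀ : End K V} (he₀ : e₀ ∈ G) :
    ∀ x ∈ lieSpan G, ∃ a ∈ idl (lieSpan G) {e₀}, ∃ c : K, x = a + c • 1 := by
  have hGg : ∀ e ∈ G, e ∈ lieSpan G := subset_lieSpan
  have hn : (finrank K V : K) ≠ 0 := by
    rw [Nat.cast_ne_zero]
    exact (finrank_pos (R := K) (M := V)).ne'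
  set c₀ : K := LinearMap.trace K V e₀ / (finrank K V : K) with hc₀
  set s : Submodule K (End K V) :=
    sInf {I | e₀ - c₀ • 1 ∈ I ∧ ∀ x ∈ lieSpan G, ∀ z ∈ I, x * z - z * x ∈ I} with hs
  have hsg : s ≤ lieSpan G :=
    sInf_le ⟨(lieSpan G).sub_mem (hGg e₀ he₀) ((lieSpan G).smul_mem _ hone),
      fun x hx z hz => lieSpan_lie x hx z hz⟩
  have hsi : ∀ x ∈ lieSpan G, ∀ z ∈ s, x * z - z * x ∈ s := by
    intro x hx z hz
    rw [hs, Submodule.mem_sInf] at hz ⊢
    exact fun I hI => hI.2 x hx z (hz I hI)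
  have hs0 : e₀ - c₀ • 1 ∈ s := by
    rw [hs, Submodule.mem_sInf]
    exact fun I hI => hI.1
  have hstr : ∀ a ∈ s, LinearMap.trace K V a = 0 := by
    have h1 : s ≤ LinearMap.ker (LinearMap.trace K V) := by
      refine sInf_le ⟨?_, fun x _ z _ => ?_⟩
      · rw [LinearMap.mem_ker, map_sub, map_smul, LinearMap.trace_one, smul_eq_mul, hc₀,
          div_mul_cancel₀ _ hn, sub_self]
      · rw [LinearMap.mem_ker, map_sub, LinearMap.trace_mul_comm, sub_self]
    exact fun a ha => h1 ha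
  have hirr' : ∀ U : Submodule K V, (∀ a ∈ lieSpan G, ∀ w ∈ U, a w ∈ U) → U = ⊥ ∨ U = ⊤ :=
    fun U hU => hirr U fun e he => hU e (hGg e he)
  -- comparison with `idl`
  have hidl1 : (2 : K) • e₀ - 1 ∈ idl (lieSpan G) {e₀} := by
    rw [idl, Submodule.mem_sInf]
    exact fun I hI => hI.1 e₀ rfl
  have hidl2 : ∀ x ∈ lieSpan G, ∀ z ∈ idl (lieSpan G) {e₀},
      x * z - z * x ∈ idl (lieSpan G) {e₀} := by
    intro x hx z hz
    rw [idl, Submodule.mem_sInf] at hz ⊢
    exact fun I hI => hI.2 x hx z (hz I hI)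
  have hsub : s ≤ idl (lieSpan G) {e₀} ⊔ Submodule.span K {(1 : End K V)} := by
    refine sInf_le ⟨?_, fun x hx z hz => ?_⟩
    · rw [mem_add_scalar]
      refine ⟨(2 : K)⁻¹ • ((2 : K) • e₀ - 1), Submodule.smul_mem _ _ hidl1, (2 : K)⁻¹ - c₀, ?_⟩
      rw [smul_sub, smul_smul, inv_mul_cancel₀ (two_ne_zero (α := K)), one_smul, sub_smul]
      abel
    · rw [mem_add_scalar] at hz
      obtain ⟨a, ha, c, rfl⟩ := hz
      apply Submodule.mem_sup_left
      have h1 := bracket_scalar x a 0 c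
      rw [zero_smul, add_zero] at h1
      rw [h1]
      exact hidl2 x hx a ha
  by_cases hall : ∀ e ∈ G, ∃ c : K, e - c • 1 ∈ s
  · have hGX : ∀ e ∈ G, e ∈ s ⊔ Submodule.span K {(1 : End K V)} := by
      intro e he
      obtain ⟨c, hc⟩ := hall e he
      rw [mem_add_scalar]
      exact ⟨_, hc, c, by rw [sub_add_cancel]⟩
    have hXlie : ∀ a ∈ s ⊔ Submodule.span K {(1 : End K V)},
        ∀ b ∈ s ⊔ Submodule.span K {(1 : End K V)},
          a * b - b * a ∈ s ⊔ Submodule.span K {(1 : End K V)} := by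
      intro a ha b hb
      obtain ⟨a', ha', c, rfl⟩ := (mem_add_scalar a).1 ha
      obtain ⟨b', hb', d, rfl⟩ := (mem_add_scalar b).1 hb
      rw [bracket_scalar]
      exact Submodule.mem_sup_left (hsi a' (hsg ha') b' hb')
    intro x hx
    have h1 := lieSpan_le hGX hXlie hx
    have h2 : s ⊔ Submodule.span K {(1 : End K V)} ≤
        idl (lieSpan G) {e₀} ⊔ Submodule.span K {(1 : End K V)} :=
      sup_le hsub le_sup_right
    exact (mem_add_scalar x).1 (h2 h1)
  · exfalso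
    push Not at hall
    obtain ⟨e₁, he₁, hno⟩ := hall
    have hcomm : ∀ y ∈ s, e₁ * y = y * e₁ := by
      rcases comm_split' lieSpan_lie hirr' hsg hsi hstr (hGg e₁ he₁) (hGe e₁ he₁) with h | h
      · obtain ⟨c, hc⟩ := h
        exact absurd hc (hno c)
      · exact h
    obtain ⟨n₁, n₂, hmul, h1, h2, hd2, hd1⟩ := clifford lieSpan_lie hirr' hsg hsi hstr
    have hpos : 0 < n₁ * n₂ := by
      rw [hmul]
      exact finrank_pos
    have hp1 : 0 < n₁ := Nat.pos_of_mul_pos_right hpos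
    have hp2 : 0 < n₂ := Nat.pos_of_mul_pos_left hpos
    have hn1 : n₁ ≠ 1 := by
      intro h
      have h3 := h1 h _ hs0
      rw [sub_eq_zero] at h3
      have h4 := hGe e₀ he₀
      rw [h3] at h4
      rcases scalar_idem h4 with h5 | h5
      · exact (hns e₀ he₀).1 (h3.trans h5)
      · exact (hns e₀ he₀).2 (h3.trans h5)
    have hn2 : n₂ ≠ 1 := by
      intro h
      obtain ⟨c, hc⟩ := h2 h e₁ hcomm
      have h4 := hGe e₁ he₁
      rw [hc] at h4
      rcases scalar_idem h4 with h5 | h5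
      · exact (hns e₁ he₁).1 (hc.trans h5)
      · exact (hns e₁ he₁).2 (hc.trans h5)
    refine hT n₁ n₂ (by omega) (by omega) hmul ?_ ⟨_, ⟨e₁, he₁, rfl⟩, hd1 e₁ hcomm⟩
      ⟨_, ⟨e₀, he₀, rfl⟩, hd2 e₀ ⟨c₀, hs0⟩⟩
    rintro a ⟨e, he, rfl⟩
    rcases comm_split' lieSpan_lie hirr' hsg hsi hstr (hGg e he) (hGe e he) with h | h
    · exact Or.inr (hd2 e h)
    · exact Or.inl (hd1 e h)

end Pool.Agent.NumRank
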