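import Pool.Agent.NumRank.Data
import Pool.Agent.NumRank.Hall
import Pool.Agent.NumRank.Comb
import Pool.Agent.Mod4.Torus
import Pool.Agent.NumRank.HalfRank
import Pool.Agent.TypeIV.Kinds

/-!
# Irreducible subspaces whose dimension and ranks allow only the full algebra
-/

set_option autoImplicit false
set_option linter.unusedSectionVars false

namespace Pool.Agent.NumRank

open Module Pool.Agent.CoprimeSig Pool.Agent.PrimePow Pool.Agent.Mod4
open Pool.Agent.OddRank (Stable Irreducible Semisimple exists_proj lieSpan subset_lieSpan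
  lieSpan_lie lieSpan_le stable_span trace_nondeg)
open Pool.Agent.TypeIV (SelfDual)
open Pool.Agent.TypeIV.MX

variable {K V : Type*} [Field K] [CharZero K] [IsAlgClosed K] [AddCommGroup V] [Module K V]
  [FiniteDimensional K V]

theorem trace_diag {I : Type} [Fintype I] (v : Basis I K V) {x : End K V} {f : I → ℚ}
    (hx : ∀ i, x (v i) = (f i : K) • v i) :
    LinearMap.trace K V x = ((∑ i, f i : ℚ) : K) := by
  classical
  rw [LinearMap.trace_eq_matrix_trace K v, Matrix.trace]
  push_cast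
  refine Finset.sum_congr rfl fun i _ => ?_
  rw [Matrix.diag_apply, LinearMap.toMatrix_apply, hx, map_smul,
    Basis.repr_self, Finsupp.smul_apply, Finsupp.single_eq_same, smul_eq_mul, mul_one]

/-- a root vector of rank one -/
theorem rank_one {g t : Submodule K (End K V)} {I : Type} [Fintype I] (v : Basis I K V)
    {α : End K V → K} {x y : End K V} (P : Opp g t α x y) {L : AddSubgroup (I → ℚ)} {h : I → ℚ}
    (H : CC.Rt L h) (hh : ∀ i, (x * y - y * x) (v i) = (h i : K) • v i)
    (h1 : ∀ h, CC.Rt L h → ∀ i j, h i = 1 → h j = 1 → i = j) :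
    finrank K (LinearMap.range x) = 1 := by
  classical
  obtain ⟨a, ha⟩ := Rt_one H
  obtain ⟨b, hb⟩ := Rt_one H.neg
  have hb' : h b = -1 := by
    rw [Pi.neg_apply] at hb
    linarith
  have hab : a ≠ b := by
    rintro rfl
    rw [ha] at hb'
    norm_num at hb'
  have h2 : ∀ i, ((x * y - y * x) * (x * y - y * x)) (v i) = ((h i * h i : ℚ) : K) • v i := by
    intro i
    rw [Module.End.mul_apply, hh, map_smul, hh, smul_smul, Rat.cast_mul]
  have h3 : ∑ i, h i * h i = 2 := by
    have h4 : ∀ i, h i * h i = (if i = a then 1 else 0) + if i = b then 1 else 0 := by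
      intro i
      by_cases hia : i = a
      · rw [hia, ha, if_pos rfl, if_neg hab]
        norm_num
      · by_cases hib : i = b
        · rw [hib, hb', if_pos rfl, if_neg (Ne.symm hab)]
          norm_num
        · rw [if_neg hia, if_neg hib]
          rcases Rt_val H i with h5 | h5 | h5
          · exact absurd (h1 _ H.neg i b (by rw [Pi.neg_apply, h5]; norm_num) hb) hib
          · rw [h5]
            norm_num
          · exact absurd (h1 _ H i a h5 ha) hia
    rw [Finset.sum_congr rfl fun i _ => h4 i, Finset.sum_add_distrib]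
    simp
    norm_num
  have h4 := trace_diag v h2
  rw [opp_sq P, h3, map_add, LinearMap.trace_mul_comm K y x, trace_xy P] at h4
  have h5 : ((finrank K (LinearMap.range x) + finrank K (LinearMap.range x) : ℕ) : K) =
      ((2 : ℕ) : K) := by
    push_cast
    rw [h4]
    norm_num
  have h6 := Nat.cast_injective h5
  omega

/-- the irreducible case: an element of rank one -/
theorem exists_one {G : Set (End K V)} (hGe : ∀ e ∈ G, e * e = e)
    (hirr : ∀ U : Submodule K V, (∀ e ∈ G, ∀ w ∈ U, e w ∈ U) → U = ⊥ ∨ U = ⊤)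
    (hns : ∀ e ∈ G, e ≠ 0 ∧ e ≠ 1)
    (hT : NoSplit (finrank K V) fun a => ∃ e ∈ G, finrank K (LinearMap.range e) = a)
    {e₀ : End K V} (he₀ : e₀ ∈ G) (hU1 : 2 * finrank K (LinearMap.range e₀) ≠ finrank K V)
    (hU2 : ∀ N k : ℕ, 2 ≤ k → k + 2 ≤ N → finrank K V = N.choose k →
      finrank K (LinearMap.range e₀) ≠ (N - 1).choose (k - 1)) :
    ∃ N ∈ lieSpan G, N * N = 0 ∧ finrank K (LinearMap.range N) = 1 := by
  classical
  have hee := hGe e₀ he₀
  have hr0 : finrank K (LinearMap.range e₀) ≠ 0 := by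
    intro h
    apply (hns e₀ he₀).1
    rwa [Submodule.finrank_eq_zero, LinearMap.range_eq_bot] at h
  have hnt : Nontrivial V := by
    rw [← finrank_pos_iff (R := K)]
    have h3 := Submodule.finrank_le (LinearMap.range e₀)
    omega
  have hirr' : ∀ U : Submodule K V, (∀ D ∈ lieSpan G, ∀ w ∈ U, D w ∈ U) → U = ⊥ ∨ U = ⊤ :=
    fun U hU => hirr U fun e he => hU e (subset_lieSpan e he)
  have hlie := lieSpan_lie (G := G)
  have hndt := trace_nondeg (lieSpan G) hlie hirr'
  have hsc := schur_irr hirr'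
  have htre : LinearMap.trace K V e₀ ≠ 0 := by
    rw [trace_idem hee, Nat.cast_ne_zero]
    exact hr0
  have hone := one_mem hlie hndt hsc (subset_lieSpan e₀ he₀) htre
  obtain ⟨t, C, hSt⟩ := exists_cartan_set hlie hndt hsc hone (S := {e₀})
    (fun ε hε => by
      rw [Set.mem_singleton_iff.1 hε]
      exact ⟨subset_lieSpan e₀ he₀, hee⟩)
    (fun ε hε ε' hε' => by rw [Set.mem_singleton_iff.1 hε, Set.mem_singleton_iff.1 hε'])
  have he₀t : e₀ ∈ t := hSt e₀ rfl
  have hone' : (1 : End K V) ∈ t := C.cent 1 hone fun y _ => by rw [mul_one, one_mul]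
  have hhall := hall hGe hone hirr hns hT he₀
  have hopp : ∀ (α : End K V → K) (x : End K V), IsRoot (lieSpan G) t α x → x ≠ 0 →
      (∃ τ ∈ t, α τ ≠ 0) → ∃ y, Opp (lieSpan G) t α x y := by
    intro α x hx hx0 hα
    obtain ⟨ε, hε, hεε, hαε⟩ := good C (S := {e₀}) (fun ε hε => by
      rw [Set.mem_singleton_iff.1 hε]
      exact ⟨he₀t, hee⟩) hhall hx hx0 hα
    exact (exists_opp C hx hx0 hε hεε hαε).2
  obtain ⟨I, hI, v, f, hf, D, h, α, x, y, P, hx0, H, hh⟩ :=
    exists_dt C hone' hirr' hopp he₀t hee (hns e₀ he₀).1 (hns e₀ he₀).2 hhall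
  have hsum : ∑ i, f i = (finrank K (LinearMap.range e₀) : ℕ) := by
    have h1 := trace_diag v hf
    rw [trace_idem hee] at h1
    have h2 : ((finrank K (LinearMap.range e₀) : ℚ) : K) = ((∑ i, f i : ℚ) : K) := by
      rw [← h1, Rat.cast_natCast]
    exact (Rat.cast_injective h2).symm
  have hcard : Fintype.card I = finrank K V := (finrank_eq_card_basis v).symm
  rcases one_or_choose D (by
    rw [hsum, hcard]
    intro h1
    exact hU1 (by exact_mod_cast h1)) with h1 | ⟨N, k, hk, hkN, hN, hs⟩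
  · exact ⟨x, P.rx.mem, P.xx, rank_one v P H hh h1⟩
  · exfalso
    rw [hcard] at hN
    rw [hsum] at hs
    exact hU2 N k hk hkN hN (by exact_mod_cast hs)

section Kinds

variable {G : Set (Module.End K V)} (hGe : ∀ e ∈ G, e * e = e) (hss : Semisimple G)
  {W : Submodule K V} (hW : Irreducible G W)

include hGe hss hW

/-- The rank of a generator is not half the dimension and not that of an exterior power, and there
is no compatible factorisation of the dimension. -/
theorem ksl_of_num (hns : ∀ e ∈ G, (∃ w ∈ W, e w ≠ 0) ∧ ∃ w ∈ W, e w ≠ w)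
    (hT : NoSplit (finrank K W) fun a => ∃ e ∈ G, finrank K (W.map e) = a)
    {e₀ : Module.End K V} (he₀ : e₀ ∈ G) (hU1 : 2 * finrank K (W.map e₀) ≠ finrank K W)
    (hU2 : ∀ N k : ℕ, 2 ≤ k → k + 2 ≤ N → finrank K W = N.choose k →
      finrank K (W.map e₀) ≠ (N - 1).choose (k - 1)) : KSl G W := by
  obtain ⟨p, hp, hpe⟩ := exists_proj hss hW.1
  have H := irrData hGe hW hp
  have hgst : ∀ x ∈ lieSpan G, ∀ w ∈ W, x w ∈ W := fun x hx => stable_span hW.1 x hx
  have hGst : ∀ e ∈ G, ∀ w ∈ W, e w ∈ W := fun e he => hW.1 e he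
  have hle : lieSpan (rst p '' G) ≤ (lieSpan G).map (rst p) := lieSpan_le H.hG H.hlie
  have hnsd : ¬ SelfDual G W := by
    rintro ⟨φ, hnd, hφ⟩
    exact hU1 (half_of_selfDual (hGe e₀ he₀) (hGst e₀ he₀) hnd (hφ e₀ he₀))
  have hrk : ∀ e ∈ G, finrank K (LinearMap.range (rst p e)) = finrank K (W.map e) := fun e he =>
    finrank_range_rst hp (hGst e he)
  have hT' : NoSplit (finrank K W) fun a => ∃ e ∈ rst p '' G,
      finrank K (LinearMap.range e) = a := by
    have h1 : (fun a => ∃ e ∈ rst p '' G, finrank K (LinearMap.range e) = a) =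
        fun a => ∃ e ∈ G, finrank K (W.map e) = a := by
      funext a
      apply propext
      constructor
      · rintro ⟨_, ⟨e, he, rfl⟩, rfl⟩
        exact ⟨e, he, (hrk e he).symm⟩
      · rintro ⟨e, he, rfl⟩
        exact ⟨_, ⟨e, he, rfl⟩, hrk e he⟩
    rw [h1]
    exact hT
  obtain ⟨N, hN, hNN, h⟩ := exists_one H.hGe H.hirr (restr_ns hGe hss hW hns hp) hT'
    (e₀ := rst p e₀) ⟨e₀, he₀, rfl⟩ (by rw [hrk e₀ he₀]; exact hU1)
    (by rw [hrk e₀ he₀]; exact hU2)
  refine ⟨hns, hnsd, fun Z hZ => ?_⟩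
  obtain ⟨x, hx, hxZ⟩ := H.sl_of_one (restr_ns hGe hss hW hns hp) (restr_nsd hGe hss hW hnsd hp)
    (hle hN) hNN h hZ
  exact ⟨x, hx, fun w => by rw [← hxZ, rst_apply hp (hgst x hx)]⟩

end Kinds

end Pool.Agent.NumRank
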