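import Pool.Agent.Mod4.Top
import Pool.Agent.Mod4.Pos
import Pool.Agent.Mod4.RootSys
import Pool.Agent.PrimePow.Main

/-!
# Weights of multiplicity one
-/

set_option autoImplicit false
set_option linter.unusedSectionVars false

namespace Pool.Agent.NumRank

open Module Pool.Agent.CoprimeSig Pool.Agent.Mod4

variable {K V : Type*} [Field K] [CharZero K] [IsAlgClosed K] [AddCommGroup V] [Module K V]
  [FiniteDimensional K V] {g t : Submodule K (End K V)}

/-- the weight of a basis vector -/
noncomputable def wv {I : Type*} (v : Basis I K V) (i : I) (τ : End K V) : K :=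
  v.repr (τ (v i)) i

theorem wv_apply {I : Type*} (v : Basis I K V)
    (hv : ∀ x ∈ t, ∀ i, ∃ c : K, x (v i) = c • v i) {τ : End K V} (hτ : τ ∈ t) (i : I) :
    τ (v i) = wv v i τ • v i := by
  obtain ⟨c, hc⟩ := hv τ hτ i
  rw [wv, hc, map_smul, Basis.repr_self, Finsupp.smul_apply, Finsupp.single_eq_same, smul_eq_mul,
    mul_one]

/-- the coordinates of the image of a vector -/
theorem wv_repr {I : Type*} (v : Basis I K V)
    (hv : ∀ x ∈ t, ∀ i, ∃ c : K, x (v i) = c • v i) {τ : End K V} (hτ : τ ∈ t) (w : V) (i : I) :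
    v.repr (τ w) i = wv v i τ * v.repr w i := by
  classical
  have h1 : v.coord i ∘ₗ τ = wv v i τ • v.coord i := by
    refine v.ext fun k => ?_
    simp only [LinearMap.comp_apply, wv_apply v hv hτ, map_smul, LinearMap.smul_apply,
      Basis.coord_apply, Basis.repr_self, smul_eq_mul]
    by_cases hk : k = i
    · rw [hk]
    · rw [Finsupp.single_eq_of_ne (Ne.symm hk), mul_zero, mul_zero]
  exact LinearMap.congr_fun h1 w

/-- a root vector acts on a weight vector as the Weyl group element if it does not kill it -/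
theorem wl_of_ne {I : Type*} (v : Basis I K V)
    (hv : ∀ x ∈ t, ∀ i, ∃ c : K, x (v i) = c • v i) {α : End K V → K} {x y : End K V}
    (P : Opp g t α x y) {i : I} (hx : x (v i) ≠ 0) : wl x y (v i) = x (v i) := by
  obtain ⟨r, hr⟩ := hv _ P.mem i
  have e0 : x * (x * y - y * x) = -x := by
    rw [mul_sub, ← mul_assoc, P.xx, zero_mul, zero_sub, ← mul_assoc, P.xyx]
  have e1 := LinearMap.congr_fun e0 (v i)
  rw [Module.End.mul_apply, hr, map_smul, LinearMap.neg_apply, ← neg_one_smul K (x (v i))] at e1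
  have hr1 : r = -1 := smul_left_injective K hx e1
  rw [hr1, neg_one_smul, LinearMap.sub_apply] at hr
  have e2 := LinearMap.congr_fun (opp_sq P) (v i)
  have e3 : (x * y - y * x) (v i) = -v i := by rw [LinearMap.sub_apply, hr]
  rw [Module.End.mul_apply, e3, map_neg, e3, neg_neg, LinearMap.add_apply] at e2
  have e4 : (2 : K) • (x * y) (v i) = 0 := by
    rw [two_smul]
    have : (x * y) (v i) + (x * y) (v i) = ((x * y) (v i) - (y * x) (v i)) +
        ((x * y) (v i) + (y * x) (v i)) := by abel
    rw [this, hr, ← e2]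
    abel
  have e5 : (x * y) (v i) = 0 := (smul_eq_zero.1 e4).resolve_left two_ne_zero
  have e6 : (y * x) (v i) = v i := by
    rw [e5, zero_add] at e2
    exact e2.symm
  have e7 : y (v i) = 0 := by
    have h1 := LinearMap.congr_fun P.yxy (v i)
    rw [mul_assoc, Module.End.mul_apply, e5, map_zero] at h1
    exact h1.symm
  rw [wl_eq P.xx P.xyx]
  simp only [LinearMap.sub_apply, LinearMap.add_apply, e5, e6, e7, Module.End.one_apply]
  abel

/-- the eigenspace of the highest eigenvalue of `H` is a line -/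
private theorem mo_top {H : End K V} {u₀ : V} {N : ℤ}
    (hgen : ∀ u : V, u ∈ Submodule.span K
      ({u₀} ∪ {u | ∃ k : ℕ, 0 < k ∧ H u = ((N - 2 * k : ℤ) : K) • u}))
    (hu₀ : H u₀ = (N : K) • u₀) {w : V} (hw : H w = (N : K) • w) : ∃ c : K, w = c • u₀ := by
  have h1 := Module.End.eigenspaces_iSupIndep H (N : K)
  have h2 := hgen w
  rw [Submodule.span_union, Submodule.mem_sup] at h2
  obtain ⟨a, ha, s, hs, has⟩ := h2
  obtain ⟨c, rfl⟩ := Submodule.mem_span_singleton.1 ha
  refine ⟨c, ?_⟩
  have h3 : s ∈ ⨆ j, ⨆ (_ : j ≠ (N : K)), H.eigenspace j := by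
    refine Submodule.span_le.2 ?_ hs
    rintro u ⟨k, hk, hu⟩
    refine Submodule.mem_iSup_of_mem _ (Submodule.mem_iSup_of_mem ?_
      (Module.End.mem_eigenspace_iff.2 hu))
    intro h4
    have h5 : (N - 2 * k : ℤ) = N := Int.cast_injective h4
    omega
  have h4 : H s = (N : K) • s := by
    have h5 : s = w - c • u₀ := by rw [← has]; abel
    rw [h5, map_sub, map_smul, hw, hu₀, smul_sub, smul_comm]
  have h5 : s = 0 := Submodule.disjoint_def.1 h1 s (Module.End.mem_eigenspace_iff.2 h4) h3
  rw [← has, h5, add_zero]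

private theorem mo_coord {I : Type*} (v : Basis I K V) {w : V} (hw : w ≠ 0) :
    ∃ i, v.repr w i ≠ 0 := by
  by_contra hcon
  push Not at hcon
  apply hw
  apply v.repr.injective
  ext i
  rw [hcon, map_zero, Finsupp.zero_apply]

private theorem mo_line {I : Type*} (v : Basis I K V) {w : V} {i j : I}
    (hi : ∃ a : K, v i = a • w) (hj : ∃ b : K, v j = b • w) : i = j := by
  classical
  obtain ⟨a, ha⟩ := hi
  obtain ⟨b, hb⟩ := hj
  by_contra hne
  have ha0 : a ≠ 0 := by
    rintro rfl
    rw [zero_smul] at ha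
    exact v.ne_zero i ha
  have h1 : v j = (b / a) • v i := by
    rw [hb, ha, smul_smul, div_mul_cancel₀ _ ha0]
  have h2 := congrArg (fun u : V => v.repr u j) h1
  simp only [map_smul, Basis.repr_self, Finsupp.smul_apply, Finsupp.single_eq_same] at h2
  rw [Finsupp.single_eq_of_ne (Ne.symm hne), smul_zero] at h2
  exact one_ne_zero h2

/-- no other basis vector has the same weight -/
private def Alone {I : Type*} (t : Submodule K (End K V)) (v : Basis I K V) (i : I) : Prop :=
  ∀ j, (∀ τ ∈ t, wv v i τ = wv v j τ) → i = j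

private theorem alone_line {I : Type*} (v : Basis I K V)
    (hv : ∀ x ∈ t, ∀ i, ∃ c : K, x (v i) = c • v i) {i : I} (hi : Alone t v i) {w : V}
    (hw : ∀ τ ∈ t, τ w = wv v i τ • w) : ∃ c : K, w = c • v i := by
  classical
  refine ⟨v.repr w i, ?_⟩
  apply v.repr.injective
  ext k
  rw [map_smul, Basis.repr_self, Finsupp.smul_apply, smul_eq_mul]
  by_cases hk : k = i
  · rw [hk, Finsupp.single_eq_same, mul_one]
  · rw [Finsupp.single_eq_of_ne hk, mul_zero]
    have h1 : ¬ ∀ τ ∈ t, wv v i τ = wv v k τ := fun h => hk (hi k h).symm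
    push Not at h1
    obtain ⟨τ, hτ, hne⟩ := h1
    have h2 := wv_repr v hv hτ w k
    rw [hw τ hτ, map_smul, Finsupp.smul_apply, smul_eq_mul] at h2
    by_contra h0
    exact hne (mul_right_cancel₀ h0 h2)

theorem mult_one [Nontrivial V] (C : Cartan g t) (hone : (1 : End K V) ∈ t)
    (hirr : ∀ U : Submodule K V, (∀ a ∈ g, ∀ w ∈ U, a w ∈ U) → U = ⊥ ∨ U = ⊤)
    (hopp : ∀ (α : End K V → K) (x : End K V), IsRoot g t α x → x ≠ 0 → (∃ τ ∈ t, α τ ≠ 0) →
      ∃ y, Opp g t α x y)
    {I : Type} [Fintype I] (v : Basis I K V) (hv : ∀ x ∈ t, ∀ i, ∃ c : K, x (v i) = c • v i)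
    {i j : I} (hij : ∀ τ ∈ t, wv v i τ = wv v j τ) : i = j := by
  classical
  have hsc := PrimePow.schur_irr hirr
  obtain ⟨n, P, α, x, y, R, k1, k2, k3⟩ := exists_rd C hone hsc hopp
  obtain ⟨ι, _, α', x', y', m, H, E, F, R'⟩ := exists_pr C hone R k1 k2 k3
  obtain ⟨u₀, N, hu0, hHu, -, hut, huα⟩ := exists_top R' C
  have hgen := gen_top R' C hirr hu0 hHu hut huα
  have hHt : H ∈ t := by
    rw [R'.H_eq]
    exact t.sum_mem fun i _ => (R'.opp i).mem
  -- (1) the highest weight
  obtain ⟨i₀, hi₀⟩ := mo_coord v hu0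
  have hw₀ : ∀ τ ∈ t, τ u₀ = wv v i₀ τ • u₀ := by
    intro τ hτ
    obtain ⟨c, hc⟩ := hut τ hτ
    have h1 := wv_repr v hv hτ u₀ i₀
    rw [hc, map_smul, Finsupp.smul_apply, smul_eq_mul] at h1
    rw [hc, mul_right_cancel₀ hi₀ h1]
  have hNi : wv v i₀ H = (N : K) := by
    have h1 := hw₀ H hHt
    rw [hHu] at h1
    exact (smul_left_injective K hu0 h1).symm
  have hal₀ : Alone t v i₀ := by
    intro j hj
    refine mo_line v (w := u₀) (mo_top hgen hHu ?_) (mo_top hgen hHu ?_)
    · rw [wv_apply v hv hHt, hNi]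
    · rw [wv_apply v hv hHt, ← hj H hHt, hNi]
  -- the span of the basis vectors whose weight has multiplicity one
  obtain ⟨A, hA⟩ : ∃ A : Set I, A = {i | Alone t v i} := ⟨_, rfl⟩
  have hAm : ∀ {i}, i ∈ A ↔ Alone t v i := by
    intro i
    rw [hA]
    exact Iff.rfl
  have hmem : ∀ {i} (c : K), Alone t v i → c • v i ∈ Submodule.span K (v '' A) := fun c hi =>
    Submodule.smul_mem _ c (Submodule.subset_span ⟨_, hAm.2 hi, rfl⟩)
  have hroot : ∀ (γ : End K V → K) (z : End K V), IsRoot g t γ z → ∀ i, Alone t v i →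
      z (v i) ∈ Submodule.span K (v '' A) := by
    intro γ z hz i hi
    by_cases hzi : z (v i) = 0
    · rw [hzi]
      exact Submodule.zero_mem _
    have hz0 : z ≠ 0 := by
      rintro rfl
      exact hzi rfl
    by_cases hγ : ∃ τ ∈ t, γ τ ≠ 0
    swap
    · push Not at hγ
      have hzt : z ∈ t := by
        refine C.cent z hz.mem fun τ hτ => ?_
        have h3 := hz.root τ hτ
        rw [hγ τ hτ, zero_smul, sub_eq_zero] at h3
        exact h3.symm
      rw [wv_apply v hv hzt]
      exact hmem _ hi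
    obtain ⟨z', Q⟩ := hopp γ z hz hz0 hγ
    obtain ⟨q1, q2, q3, -⟩ := wl_mul_inv Q
    have hwl := wl_of_ne v hv Q hzi
    -- the weight of `z (v i)`
    have hwt : ∀ τ ∈ t, τ (z (v i)) = (wv v i τ + γ τ) • z (v i) := by
      intro τ hτ
      have h1 := LinearMap.congr_fun (hz.root τ hτ) (v i)
      rw [LinearMap.sub_apply, Module.End.mul_apply, Module.End.mul_apply, wv_apply v hv hτ,
        map_smul, LinearMap.smul_apply, sub_eq_iff_eq_add] at h1
      rw [h1, ← add_smul, add_comm]
    -- `wlInv` moves weights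
    have hmv : ∀ (w : V) (μ : End K V → K), (∀ τ ∈ t, τ w = μ τ • w) → ∀ τ ∈ t,
        τ (wlInv z z' w) = (μ τ - γ τ * μ (z * z' - z' * z)) • wlInv z z' w := by
      intro w μ hw τ hτ
      have h1 : τ * wlInv z z' = wlInv z z' * (τ - γ τ • (z * z' - z' * z)) := by
        rw [← q3 τ hτ, ← mul_assoc, ← mul_assoc, q2, one_mul]
      have h2 := LinearMap.congr_fun h1 w
      rw [Module.End.mul_apply, Module.End.mul_apply, LinearMap.sub_apply, LinearMap.smul_apply,
        hw τ hτ, hw _ Q.mem, smul_smul, ← sub_smul, map_smul] at h2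
      exact h2
    have hinv : wlInv z z' (z (v i)) = v i := by
      rw [← hwl, ← Module.End.mul_apply, q2, Module.End.one_apply]
    have hback : ∀ τ ∈ t, wv v i τ + γ τ -
        γ τ * (wv v i (z * z' - z' * z) + γ (z * z' - z' * z)) = wv v i τ := by
      intro τ hτ
      have h1 := hmv (z (v i)) (fun τ => wv v i τ + γ τ) hwt τ hτ
      rw [hinv, wv_apply v hv hτ] at h1
      exact (smul_left_injective K (v.ne_zero i) h1).symm
    obtain ⟨j, hj⟩ := mo_coord v hzi
    have hjw : ∀ τ ∈ t, wv v j τ = wv v i τ + γ τ := by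
      intro τ hτ
      have h1 := wv_repr v hv hτ (z (v i)) j
      rw [hwt τ hτ, map_smul, Finsupp.smul_apply, smul_eq_mul] at h1
      exact (mul_right_cancel₀ hj h1).symm
    have hln : ∀ j', (∀ τ ∈ t, wv v j τ = wv v j' τ) → ∃ a : K, v j' = a • z (v i) := by
      intro j' hj'
      have h1 : ∀ τ ∈ t, τ (wlInv z z' (v j')) = wv v i τ • wlInv z z' (v j') := by
        intro τ hτ
        have h2 := hmv (v j') (fun τ => wv v i τ + γ τ) (fun τ hτ => by
          rw [wv_apply v hv hτ, ← hj' τ hτ, hjw τ hτ]) τ hτ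
        rw [h2, hback τ hτ]
      obtain ⟨a, ha⟩ := alone_line v hv hi h1
      refine ⟨a, ?_⟩
      rw [← hwl, ← map_smul, ← ha, ← Module.End.mul_apply, q1, Module.End.one_apply]
    have hja : Alone t v j := fun j' hj' => mo_line v (hln j fun _ _ => rfl) (hln j' hj')
    obtain ⟨c, hc⟩ := alone_line v hv hja (w := z (v i)) (fun τ hτ => by
      rw [hwt τ hτ, hjw τ hτ])
    rw [hc]
    exact hmem c hja
  have hst : ∀ a ∈ g, ∀ w ∈ Submodule.span K (v '' A), a w ∈ Submodule.span K (v '' A) := by
    intro a ha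
    have h1 := mem_span_roots C ha
    clear ha
    induction h1 using Submodule.span_induction with
    | mem z hz =>
      obtain ⟨γ, hz⟩ := hz
      intro w hw
      refine Submodule.span_induction (p := fun w _ => z w ∈ Submodule.span K (v '' A))
        ?_ ?_ ?_ ?_ hw
      · rintro _ ⟨i, hi, rfl⟩
        exact hroot γ z hz i (hAm.1 hi)
      · rw [map_zero]
        exact Submodule.zero_mem _
      · intro a b _ _ ha hb
        rw [map_add]
        exact Submodule.add_mem _ ha hb
      · intro c a _ ha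
        rw [map_smul]
        exact Submodule.smul_mem _ c ha
    | zero =>
      intro w _
      rw [LinearMap.zero_apply]
      exact Submodule.zero_mem _
    | add a b _ _ ha hb =>
      intro w hw
      rw [LinearMap.add_apply]
      exact Submodule.add_mem _ (ha w hw) (hb w hw)
    | smul c a _ ha =>
      intro w hw
      rw [LinearMap.smul_apply]
      exact Submodule.smul_mem _ c (ha w hw)
  have htop : Submodule.span K (v '' A) = ⊤ := by
    rcases hirr _ hst with h | h
    · exfalso
      have h1 := hmem 1 hal₀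
      rw [h, Submodule.mem_bot, one_smul] at h1
      exact v.ne_zero _ h1
    · exact h
  have hall : ∀ i, Alone t v i := by
    intro i
    have h1 : v i ∈ Submodule.span K (v '' A) := by
      rw [htop]
      exact Submodule.mem_top
    rw [Basis.mem_span_image, Basis.repr_self] at h1
    apply hAm.1
    apply h1
    rw [Finset.mem_coe, Finsupp.mem_support_iff, Finsupp.single_eq_same]
    exact one_ne_zero
  exact hall i j hij

end Pool.Agent.NumRank
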