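import Pool.Agent.Mod4.RootSys
import Pool.Agent.PrimePow.Main
import Pool.Agent.NumRank.MultOne

/-!
# The torus is spanned by the coroots
-/

set_option autoImplicit false
set_option linter.unusedSectionVars false

namespace Pool.Agent.NumRank

open Module Pool.Agent.CoprimeSig Pool.Agent.Mod4

variable {K V : Type*} [Field K] [CharZero K] [IsAlgClosed K] [AddCommGroup V] [Module K V]
  [FiniteDimensional K V] {g t : Submodule K (End K V)}

/-- the torus is spanned by the identity and the coroots -/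
theorem span_coroots [Nontrivial V] (C : Cartan g t) (hone : (1 : End K V) ∈ t)
    (hirr : ∀ U : Submodule K V, (∀ a ∈ g, ∀ w ∈ U, a w ∈ U) → U = ⊥ ∨ U = ⊤)
    (hopp : ∀ (α : End K V → K) (x : End K V), IsRoot g t α x → x ≠ 0 → (∃ τ ∈ t, α τ ≠ 0) →
      ∃ y, Opp g t α x y) {τ : End K V} (hτ : τ ∈ t) :
    τ ∈ Submodule.span K ({1} ∪ {h | ∃ (α : End K V → K) (x y : End K V),
      Opp g t α x y ∧ x ≠ 0 ∧ h = x * y - y * x}) := by
  have hsc := PrimePow.schur_irr hirr
  obtain ⟨n, P, α, x, y, R, hP, -, -⟩ := exists_rd C hone hsc hopp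
  have hdim : (finrank K V : K) ≠ 0 := Nat.cast_ne_zero.2 finrank_pos.ne'
  set T : Submodule K (End K V) := Submodule.span K ({1} ∪ {h | ∃ (α : End K V → K)
    (x y : End K V), Opp g t α x y ∧ x ≠ 0 ∧ h = x * y - y * x}) with hT
  have h1 : (1 : End K V) ∈ T := Submodule.subset_span (Or.inl rfl)
  have hcr : ∀ i, ((P.coroot i : tz t) : End K V) ∈ T := fun i =>
    Submodule.subset_span (Or.inr ⟨α i, x i, y i, R.opp i, R.ne i, R.coroot i⟩)
  have htz : ∀ σ : tz t, (σ : End K V) ∈ T := by
    intro σ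
    have hσ : σ ∈ Submodule.span K (Set.range P.coroot) := by
      rw [show Submodule.span K (Set.range P.coroot) = ⊤ from hP.span_coroot_eq_top]
      exact Submodule.mem_top
    have hle : Submodule.span K (Set.range P.coroot) ≤ T.comap (tz t).subtype :=
      Submodule.span_le.2 (by rintro _ ⟨i, rfl⟩; exact hcr i)
    exact hle hσ
  have hmem : τ - (LinearMap.trace K V τ / (finrank K V : K)) • (1 : End K V) ∈ tz t := by
    refine Submodule.mem_inf.2 ⟨t.sub_mem hτ (t.smul_mem _ hone), ?_⟩
    rw [LinearMap.mem_ker, map_sub, map_smul, LinearMap.trace_one, smul_eq_mul,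
      div_mul_cancel₀ _ hdim, sub_self]
  have := T.add_mem (htz ⟨_, hmem⟩) (T.smul_mem (LinearMap.trace K V τ / (finrank K V : K)) h1)
  simpa using this

end Pool.Agent.NumRank
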