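import Pool.Agent.PrimePow.Comb3

/-!
# Reflections of lattices of functions and a function with values zero and one
-/

set_option autoImplicit false
set_option linter.unusedSectionVars false

namespace Pool.Agent.NumRank

open Pool.Agent.PrimePow.CC

variable {Ω : Type*} [Fintype Ω] {L : AddSubgroup (Ω → ℚ)} {e f h k : Ω → ℚ}

/-- The pairing of `f` with the root of `h`. -/
noncomputable def cf (f h : Ω → ℚ) : ℚ := 2 * (h ⬝ᵥ f) / (h ⬝ᵥ h)

theorem cf_add (f f' h : Ω → ℚ) : cf (f + f') h = cf f h + cf f' h := by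
  unfold cf
  rw [dotProduct_add]
  ring

theorem cf_sub (f f' h : Ω → ℚ) : cf (f - f') h = cf f h - cf f' h := by
  unfold cf
  rw [dotProduct_sub]
  ring

theorem cf_smul (c : ℚ) (f h : Ω → ℚ) : cf (c • f) h = c * cf f h := by
  unfold cf
  rw [dotProduct_smul, smul_eq_mul]
  ring

theorem cf_neg (f h : Ω → ℚ) : cf (-f) h = -cf f h := by
  unfold cf
  rw [dotProduct_neg]
  ring

theorem cf_neg_right (f h : Ω → ℚ) : cf f (-h) = -cf f h := by
  unfold cf
  rw [neg_dotProduct, neg_dotProduct_neg]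
  ring

theorem cf_mul (hh : h ⬝ᵥ h ≠ 0) : cf f h * (h ⬝ᵥ h) = 2 * (h ⬝ᵥ f) := by
  unfold cf
  field_simp

theorem cf_self (hh : h ⬝ᵥ h ≠ 0) : cf h h = 2 := by
  unfold cf
  field_simp

theorem cf_eq_zero (hh : h ⬝ᵥ h ≠ 0) : cf f h = 0 ↔ h ⬝ᵥ f = 0 := by
  constructor
  · intro h0
    have h1 := cf_mul (f := f) hh
    rw [h0, zero_mul] at h1
    linarith
  · intro h0
    rw [cf, h0, mul_zero, zero_div]

section Roots

variable (H : Rt L h) (Q : Rt L k)
include H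

theorem Rt_sq : 0 < h ⬝ᵥ h := H.sq_pos

theorem Rt_sq_ne : h ⬝ᵥ h ≠ 0 := H.sq_pos.ne'

theorem Rt_mem : h ∈ L := by
  obtain ⟨π, H⟩ := H
  exact H.mem

theorem Rt_ne : h ≠ 0 := by
  obtain ⟨π, H⟩ := H
  exact H.ne

theorem Rt_val (ω : Ω) : h ω = -1 ∨ h ω = 0 ∨ h ω = 1 := by
  obtain ⟨π, H⟩ := H
  exact H.val ω

theorem Rt_sum : ∑ ω, h ω = 0 := by
  obtain ⟨π, H⟩ := H
  exact H.sum_zero

theorem Rt_self : cf h h = 2 := cf_self (Rt_sq_ne H)

/-- the reflection -/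
theorem Rt_move : ∃ π : Equiv.Perm Ω, (∀ f ∈ L, ∀ ω, f (π ω) = f ω - cf f h * h ω) ∧
    Rf L h π := by
  obtain ⟨π, H⟩ := H
  refine ⟨π, fun f hf ω => ?_, H⟩
  obtain ⟨a, ha, ha'⟩ := H.coef hf
  have h1 : cf f h = a := by
    unfold cf
    rw [← ha']
    field_simp [H.dot_self_pos.ne']
  rw [ha, h1]

theorem Rt_int (hf : f ∈ L) : ∃ z : ℤ, cf f h = z := by
  obtain ⟨π, H⟩ := H
  obtain ⟨a, ha, ha'⟩ := H.coef hf
  refine ⟨a, ?_⟩
  unfold cf
  rw [← ha']
  field_simp [H.dot_self_pos.ne']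

/-- there is a point where the value is one -/
theorem Rt_one : ∃ ω, h ω = 1 := by
  by_contra hcon
  push Not at hcon
  have h1 : ∀ ω, h ω ≤ 0 := fun ω => by
    rcases Rt_val H ω with h2 | h2 | h2
    · rw [h2]
      norm_num
    · rw [h2]
    · exact absurd h2 (hcon ω)
  have h2 := (Finset.sum_eq_zero_iff_of_nonpos fun ω _ => h1 ω).1 (Rt_sum H)
  exact Rt_ne H (funext fun ω => h2 ω (Finset.mem_univ ω))

include Q

theorem Rt_refl (hL : Lat L) : Rt L (k - cf k h • h) := by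
  obtain ⟨c, hc, hc1, -⟩ := Rt.refl hL H Q
  have h1 : cf k h = c := by
    unfold cf
    rw [← hc1]
    field_simp [Rt_sq_ne H]
  rwa [h1]

/-- the norm is preserved -/
theorem Rt_refl_sq (hL : Lat L) : (k - cf k h • h) ⬝ᵥ (k - cf k h • h) = k ⬝ᵥ k := by
  obtain ⟨c, hc, hc1, hc2⟩ := Rt.refl hL H Q
  have h1 : cf k h = c := by
    unfold cf
    rw [← hc1]
    field_simp [Rt_sq_ne H]
  rwa [h1]

theorem Rt_cf : cf k h = -2 ∨ cf k h = -1 ∨ cf k h = 0 ∨ cf k h = 1 ∨ cf k h = 2 := by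
  obtain ⟨π, hπ, -⟩ := Rt_move H
  obtain ⟨ω, hω⟩ := Rt_one H
  obtain ⟨z, hz⟩ := Rt_int H (Rt_mem Q)
  have h1 := hπ k (Rt_mem Q) ω
  rw [hω, mul_one, hz] at h1
  have h2 : (z : ℚ) = k ω - k (π ω) := by rw [h1]; ring
  rw [hz]
  rcases Rt_val Q ω with h3 | h3 | h3 <;> rcases Rt_val Q (π ω) with h4 | h4 | h4 <;>
    rw [h3, h4] at h2 <;> norm_num at h2 <;> rw [h2] <;> norm_num

theorem Rt_symm : cf k h = 0 ↔ cf h k = 0 := by
  rw [cf_eq_zero (Rt_sq_ne H), cf_eq_zero (Rt_sq_ne Q), dotProduct_comm]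

end Roots

/-- A lattice of functions with many reflections and an element `e` with the values zero and one,
such that every root is linked to `e`. -/
structure Dt (L : AddSubgroup (Ω → ℚ)) (e : Ω → ℚ) : Prop extends Lat L where
  he : e ∈ L
  hval : ∀ ω, e ω = 0 ∨ e ω = 1
  ex1 : ∃ ω, e ω = 1
  ex0 : ∃ ω, e ω = 0
  link0 : ∀ h, Rt L h → ∃ k, Rt L k ∧ k ⬝ᵥ e ≠ 0 ∧ k ⬝ᵥ h ≠ 0

namespace Dt

variable (D : Dt L e)
include D

theorem eps (H : Rt L h) : cf e h = -1 ∨ cf e h = 0 ∨ cf e h = 1 := by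
  obtain ⟨π, hπ, -⟩ := Rt_move H
  obtain ⟨ω, hω⟩ := Rt_one H
  have h1 := hπ e D.he ω
  rw [hω, mul_one] at h1
  have h2 : cf e h = e ω - e (π ω) := by rw [h1]; ring
  rcases D.hval ω with h3 | h3 <;> rcases D.hval (π ω) with h4 | h4 <;>
    rw [h3, h4] at h2 <;> rw [h2] <;> norm_num

/-- the values of a root of degree one at the points with `e = 1` -/
theorem val1 (H : Rt L h) (hε : cf e h = 1) {ω : Ω} (hω : e ω = 1) : h ω = 0 ∨ h ω = 1 := by
  obtain ⟨π, hπ, -⟩ := Rt_move H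
  have h1 := hπ e D.he ω
  rw [hω, hε, one_mul] at h1
  rcases Rt_val H ω with h3 | h3 | h3
  · rw [h3] at h1
    rcases D.hval (π ω) with h4 | h4 <;> rw [h4] at h1 <;> norm_num at h1
  · exact Or.inl h3
  · exact Or.inr h3

theorem val0 (H : Rt L h) (hε : cf e h = 1) {ω : Ω} (hω : e ω = 0) : h ω = 0 ∨ h ω = -1 := by
  obtain ⟨π, hπ, -⟩ := Rt_move H
  have h1 := hπ e D.he ω
  rw [hω, hε, one_mul] at h1
  rcases Rt_val H ω with h3 | h3 | h3
  · exact Or.inr h3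
  · exact Or.inl h3
  · rw [h3] at h1
    rcases D.hval (π ω) with h4 | h4 <;> rw [h4] at h1 <;> norm_num at h1

/-- orthogonal roots of degree one have disjoint supports -/
theorem disj (H : Rt L h) (Q : Rt L k) (hh : cf e h = 1) (hk : cf e k = 1) (h0 : cf h k = 0)
    (ω : Ω) : h ω = 0 ∨ k ω = 0 := by
  by_contra hcon
  push Not at hcon
  obtain ⟨π, hπ, -⟩ := Rt_move Q
  have h1 := hπ e D.he ω
  have h2 := hπ h (Rt_mem H) ω
  rw [hk, one_mul] at h1
  rw [h0, zero_mul, sub_zero] at h2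
  rcases D.hval ω with h3 | h3
  · have e1 := (D.val0 H hh h3).resolve_left hcon.1
    have e2 := (D.val0 Q hk h3).resolve_left hcon.2
    rw [h3, e2] at h1
    have h4 : e (π ω) = 1 := by rw [h1]; norm_num
    rcases D.val1 H hh h4 with h5 | h5 <;> rw [h2, e1] at h5 <;> norm_num at h5
  · have e1 := (D.val1 H hh h3).resolve_left hcon.1
    have e2 := (D.val1 Q hk h3).resolve_left hcon.2
    rw [h3, e2] at h1
    have h4 : e (π ω) = 0 := by rw [h1]; norm_num
    rcases D.val0 H hh h4 with h5 | h5 <;> rw [h2, e1] at h5 <;> norm_num at h5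

/-- a root of degree one and a point where its value is one -/
theorem ex_root : ∃ h ω, Rt L h ∧ cf e h = 1 ∧ e ω = 1 ∧ h ω = 1 := by
  by_contra hcon
  push Not at hcon
  have h1 := D.tr {ω | e ω = 1} D.ex1 (by
    intro h π H ω hω
    rw [Set.mem_ofPred_eq] at hω ⊢
    have hR : Rt L h := ⟨π, H⟩
    obtain ⟨a, ha, ha'⟩ := H.coef D.he
    have hc : cf e h = a := by
      unfold cf
      rw [← ha']
      field_simp [H.dot_self_pos.ne']
    by_contra hne
    have h0 : e (π ω) = 0 := (D.hval _).resolve_right hne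
    have h2 := ha ω
    rw [h0, hω, ← hc] at h2
    rcases D.eps hR with h3 | h3 | h3
    · have h4 : h ω = -1 := by rw [h3] at h2; linarith
      refine hcon (-h) ω hR.neg ?_ hω ?_
      · rw [cf_neg_right, h3]
        norm_num
      · rw [Pi.neg_apply, h4]
        norm_num
    · rw [h3] at h2
      norm_num at h2
    · have h4 : h ω = 1 := by rw [h3] at h2; linarith
      exact hcon h ω hR h3 hω h4)
  obtain ⟨ω, hω⟩ := D.ex0
  have h2 : ω ∈ {ω | e ω = 1} := h1 ▸ Set.mem_univ ω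
  rw [Set.mem_ofPred_eq, hω] at h2
  norm_num at h2

end Dt

end Pool.Agent.NumRank
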