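import Pool.Agent.NumRank.Base

/-!
# Connectedness of the roots, points are determined by the roots, antipodes
-/

set_option autoImplicit false
set_option linter.unusedSectionVars false

namespace Pool.Agent.NumRank

open Pool.Agent.PrimePow.CC

variable {Ω : Type*} [Fintype Ω] {L : AddSubgroup (Ω → ℚ)} {e f h k : Ω → ℚ}

theorem cf_ne_zero (H : Rt L h) (f : Ω → ℚ) : cf f h ≠ 0 ↔ h ⬝ᵥ f ≠ 0 :=
  (cf_eq_zero (Rt_sq_ne H)).not

theorem cf_of_eq (H : Rt L h) {c : ℚ} (h1 : c * (h ⬝ᵥ h) = 2 * (h ⬝ᵥ f)) : cf f h = c := by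
  unfold cf
  rw [← h1]
  field_simp [Rt_sq_ne H]

namespace Dt

variable (D : Dt L e)
include D

/-- the roots are not the union of two orthogonal subsets -/
theorem irr (P : (Ω → ℚ) → Prop)
    (hP : ∀ h, Rt L h → P h → ∀ k, Rt L k → ¬ P k → k ⬝ᵥ h = 0)
    (hP1 : ∃ h, Rt L h ∧ P h) (hP2 : ∃ h, Rt L h ∧ ¬ P h) : False := by
  classical
  -- roots not orthogonal to `e` in both parts
  obtain ⟨k₁, hk₁, hk₁e, hPk₁⟩ : ∃ k, Rt L k ∧ k ⬝ᵥ e ≠ 0 ∧ P k := by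
    obtain ⟨h, H, hPh⟩ := hP1
    obtain ⟨k, hk, hke, hkh⟩ := D.link0 h H
    refine ⟨k, hk, hke, ?_⟩
    by_contra hPk
    exact hkh (hP h H hPh k hk hPk)
  obtain ⟨k₂, hk₂, hk₂e, hPk₂⟩ : ∃ k, Rt L k ∧ k ⬝ᵥ e ≠ 0 ∧ ¬ P k := by
    obtain ⟨h, H, hPh⟩ := hP2
    obtain ⟨k, hk, hke, hkh⟩ := D.link0 h H
    refine ⟨k, hk, hke, ?_⟩
    intro hPk
    rw [dotProduct_comm] at hkh
    exact hkh (hP k hk hPk h H hPh)
  -- their supports are disjoint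
  have hdisj : ∀ k, Rt L k → k ⬝ᵥ e ≠ 0 → P k → ∀ k', Rt L k' → k' ⬝ᵥ e ≠ 0 → ¬ P k' →
      ∀ ω, k ω ≠ 0 → k' ω = 0 := by
    intro k hk hke hPk k' hk' hke' hPk' ω hkω
    by_contra hkω'
    obtain ⟨ρ, hρ, hρf⟩ := Rt_move hk
    obtain ⟨ρ', hρ', hρf'⟩ := Rt_move hk'
    have hc0 : cf e k ≠ 0 := (cf_ne_zero hk e).2 hke
    have hd0 : cf e k' ≠ 0 := (cf_ne_zero hk' e).2 hke'
    have e1 := hρ e D.he ω
    have e2 := hρ' e D.he ω
    have e3 := hρ' e D.he (ρ ω)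
    rw [hρf.fix (Rt_mem hk') (by rw [dotProduct_comm]; exact hP k hk hPk k' hk' hPk'), e1] at e3
    have x0 : cf e k * k ω ≠ 0 := mul_ne_zero hc0 hkω
    have y0 : cf e k' * k' ω ≠ 0 := mul_ne_zero hd0 hkω'
    rcases D.hval ω with v0 | v0 <;> rcases D.hval (ρ ω) with v1 | v1 <;>
      rcases D.hval (ρ' ω) with v2 | v2 <;> rcases D.hval (ρ' (ρ ω)) with v3 | v3 <;>
      rw [v0] at e1 e2 e3 <;> rw [v1] at e1 <;> rw [v2] at e2 <;> rw [v3] at e3 <;>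
      first
        | exact x0 (by linarith)
        | exact y0 (by linarith)
        | (exfalso; linarith)
  obtain ⟨ω, hω⟩ : ∃ ω, k₂ ω ≠ 0 := by
    by_contra hcon
    push Not at hcon
    exact Rt_ne hk₂ (funext hcon)
  have hvan : ∀ k, Rt L k → k ⬝ᵥ e ≠ 0 → P k → k ω = 0 := by
    intro k hk hke hPk
    by_contra h0
    exact hω (hdisj k hk hke hPk k₂ hk₂ hk₂e hPk₂ ω h0)
  -- reflections preserve `P`
  have hPrefl : ∀ k, Rt L k → P k → ∀ u, Rt L u → P u → ∀ c : ℚ,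
      Rt L (u - c • k) → P (u - c • k) := by
    intro k hk hPk u hu hPu c hτ
    by_contra hPn
    have h1 := hP k hk hPk _ hτ hPn
    have h2 := hP u hu hPu _ hτ hPn
    apply Rt_sq_ne hτ
    rw [dotProduct_sub, h2, dotProduct_smul, h1, smul_zero, sub_zero]
  -- a root in `P` which does not vanish at `ω`
  obtain ⟨h₀, H₀, hPh₀, hh₀⟩ : ∃ h₀, Rt L h₀ ∧ P h₀ ∧ h₀ ω ≠ 0 := by
    have h1 := D.tr {ω | ∃ h₀, Rt L h₀ ∧ P h₀ ∧ h₀ ω ≠ 0} (by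
      obtain ⟨ω₁, hω₁⟩ : ∃ ω, k₁ ω ≠ 0 := by
        by_contra hcon
        push Not at hcon
        exact Rt_ne hk₁ (funext hcon)
      exact ⟨ω₁, k₁, hk₁, hPk₁, hω₁⟩) (by
      rintro k ρ hk x ⟨u, hu, hPu, hux⟩
      by_cases hPk : P k
      · obtain ⟨σ, hσ⟩ := hu
        obtain ⟨c, hc, -, hc'⟩ := conj_eq D.toLat hk hσ
        refine ⟨_, ⟨_, hc⟩, hPrefl k ⟨ρ, hk⟩ hPk u ⟨σ, hσ⟩ hPu c ⟨_, hc⟩, ?_⟩
        rw [Pi.sub_apply, Pi.smul_apply, smul_eq_mul, ← hc', D.toLat.sq hk]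
        exact hux
      · refine ⟨u, hu, hPu, ?_⟩
        rw [hk.fix (Rt_mem hu) (hP u hu hPu k ⟨ρ, hk⟩ hPk)]
        exact hux)
    have h2 : ω ∈ {ω | ∃ h₀, Rt L h₀ ∧ P h₀ ∧ h₀ ω ≠ 0} := h1 ▸ Set.mem_univ ω
    exact h2
  have hh₀e : h₀ ⬝ᵥ e = 0 := by
    by_contra h0
    exact hh₀ (hvan h₀ H₀ h0 hPh₀)
  obtain ⟨k, hk, hke, hkh⟩ := D.link0 h₀ H₀
  by_cases hPk : P k
  · have hc := Rt_refl H₀ hk D.toLat
    have h1 : (k - cf k h₀ • h₀) ⬝ᵥ e ≠ 0 := by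
      rw [sub_dotProduct, smul_dotProduct, hh₀e, smul_zero, sub_zero]
      exact hke
    have h2 := hvan _ hc h1 (hPrefl h₀ H₀ hPh₀ k hk hPk _ hc)
    rw [Pi.sub_apply, Pi.smul_apply, smul_eq_mul, hvan k hk hke hPk, zero_sub,
      neg_eq_zero] at h2
    rcases mul_eq_zero.1 h2 with h3 | h3
    · rw [cf_eq_zero (Rt_sq_ne H₀), dotProduct_comm] at h3
      exact hkh h3
    · exact hh₀ h3
  · exact hkh (hP h₀ H₀ hPh₀ k hk hPk)

/-- two roots have a common neighbour -/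
theorem link (Hθ : Rt L k) (H : Rt L h) : ∃ ξ, Rt L ξ ∧ ξ ⬝ᵥ k ≠ 0 ∧ ξ ⬝ᵥ h ≠ 0 := by
  by_contra hcon
  apply D.irr (fun u => ∃ ξ, Rt L ξ ∧ ξ ⬝ᵥ k ≠ 0 ∧ ξ ⬝ᵥ u ≠ 0)
  · rintro u hu ⟨ξ, hξ, hξk, hξu⟩ w hw hnw
    by_contra hwu
    apply hnw
    by_cases hkw : ξ ⬝ᵥ w = 0
    · by_cases huθ : u ⬝ᵥ k = 0
      · refine ⟨_, Rt_refl hu hξ D.toLat, ?_, ?_⟩
        · rw [sub_dotProduct, smul_dotProduct, huθ, smul_zero, sub_zero]
          exact hξk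
        · rw [sub_dotProduct, smul_dotProduct, hkw, zero_sub, neg_ne_zero, smul_eq_mul]
          refine mul_ne_zero ?_ ?_
          · rw [cf_ne_zero hu, dotProduct_comm]
            exact hξu
          · rw [dotProduct_comm]
            exact hwu
      · refine ⟨u, hu, huθ, ?_⟩
        rw [dotProduct_comm]
        exact hwu
    · exact ⟨ξ, hξ, hξk, hkw⟩
  · exact ⟨k, Hθ, k, Hθ, Rt_sq_ne Hθ, Rt_sq_ne Hθ⟩
  · exact ⟨h, H, hcon⟩

/-- an invariant statement which holds for one root holds for all -/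
theorem all (P : (Ω → ℚ) → Prop) (hP : ∀ h, Rt L h → P h → ∀ k, Rt L k → k ⬝ᵥ h ≠ 0 → P k)
    (hP1 : ∃ h, Rt L h ∧ P h) {k : Ω → ℚ} (hk : Rt L k) : P k := by
  by_contra hcon
  refine D.irr P (fun h H hPh k K hPk => ?_) hP1 ⟨k, hk, hcon⟩
  by_contra h0
  exact hPk (hP h H hPh k K h0)

/-- points are determined by the values of the roots -/
theorem uniq {x y : Ω} (hxy : ∀ h, Rt L h → h x = h y) : x = y := by
  obtain ⟨u, hu, hu'⟩ : ∃ u ∈ Submodule.span ℚ {h | Rt L h}, ∀ f ∈ L, f y - f x = u ⬝ᵥ f := by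
    have h1 := D.tr {y | ∃ u ∈ Submodule.span ℚ {h | Rt L h}, ∀ f ∈ L, f y - f x = u ⬝ᵥ f}
      ⟨x, 0, Submodule.zero_mem _, fun f _ => by rw [sub_self, zero_dotProduct]⟩ (by
      rintro h π H z ⟨u, hu, hu'⟩
      refine ⟨u - (2 * h z / (h ⬝ᵥ h)) • h, Submodule.sub_mem _ hu
        (Submodule.smul_mem _ _ (Submodule.subset_span ⟨π, H⟩)), fun f hf => ?_⟩
      obtain ⟨b, hb, hb'⟩ := H.coef hf
      have hc : cf f h = b := cf_of_eq ⟨π, H⟩ hb'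
      rw [hb, sub_dotProduct, smul_dotProduct, ← hu' f hf, ← hc, cf, smul_eq_mul]
      ring)
    have h2 : y ∈ {y | ∃ u ∈ Submodule.span ℚ {h | Rt L h}, ∀ f ∈ L, f y - f x = u ⬝ᵥ f} :=
      h1 ▸ Set.mem_univ y
    exact h2
  have h1 : ∀ v ∈ Submodule.span ℚ {h | Rt L h}, u ⬝ᵥ v = 0 := by
    intro v hv
    induction hv using Submodule.span_induction with
    | mem h hh => rw [← hu' h (Rt_mem hh), hxy h hh, sub_self]
    | zero => rw [dotProduct_zero]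
    | add a b _ _ ha hb => rw [dotProduct_add, ha, hb, add_zero]
    | smul c a _ ha => rw [dotProduct_smul, ha, smul_zero]
  have h2 : u = 0 := by
    by_contra h0
    exact (dot_pos h0).ne' (h1 u hu)
  apply D.sep
  intro f hf
  have h3 := hu' f hf
  rw [h2, zero_dotProduct] at h3
  linarith

/-- an antipode of one point -/
theorem balanced_of_anti {x y : Ω} (hxy : ∀ h, Rt L h → h y = -h x) :
    2 * ∑ ω, e ω = Fintype.card Ω := by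
  have hall : ∀ z, ∃ z', ∀ h, Rt L h → h z' = -h z := by
    have h1 := D.tr {z | ∃ z', ∀ h, Rt L h → h z' = -h z} ⟨x, y, hxy⟩ (by
      rintro k π K z ⟨z', hz'⟩
      refine ⟨π z', fun h H => ?_⟩
      obtain ⟨b, hb⟩ := K.refl h (Rt_mem H)
      rw [hb, hb, hz' h H, hz' k ⟨π, K⟩]
      ring)
    intro z
    have h2 : z ∈ {z | ∃ z', ∀ h, Rt L h → h z' = -h z} := h1 ▸ Set.mem_univ z
    exact h2
  choose σ hσ using hall
  have hinv : ∀ z, σ (σ z) = z := fun z => D.uniq fun h H => by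
    rw [hσ _ h H, hσ _ h H, neg_neg]
  have hcomm : ∀ h π, Rf L h π → ∀ z, σ (π z) = π (σ z) := fun h π H z =>
    D.uniq fun k K => by
      obtain ⟨b, hb⟩ := H.refl k (Rt_mem K)
      rw [hσ _ k K, hb, hb, hσ _ k K, hσ _ h ⟨π, H⟩]
      ring
  obtain ⟨x₁, hx₁⟩ := D.ex1
  obtain ⟨x₀, hx₀⟩ := D.ex0
  have hc : ∀ z, e z + e (σ z) = e x₁ + e (σ x₁) := by
    have h1 := D.tr {z | e z + e (σ z) = e x₁ + e (σ x₁)} ⟨x₁, rfl⟩ (by
      rintro k π K z hz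
      rw [Set.mem_ofPred_eq] at hz ⊢
      obtain ⟨b, hb⟩ := K.refl e D.he
      rw [hcomm k π K, hb, hb, hσ _ k ⟨π, K⟩, ← hz]
      ring)
    intro z
    have h2 : z ∈ {z | e z + e (σ z) = e x₁ + e (σ x₁)} := h1 ▸ Set.mem_univ z
    exact h2
  have hone : ∀ z, e z + e (σ z) = 1 := by
    have h1 := hc x₀
    have h2 : e x₁ + e (σ x₁) = 1 := by
      rw [hx₁] at h1 ⊢
      rw [hx₀] at h1
      rcases D.hval (σ x₀) with h3 | h3 <;> rcases D.hval (σ x₁) with h4 | h4 <;>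
        rw [h3, h4] at h1 <;> rw [h4] <;> norm_num at h1 <;> norm_num
    intro z
    rw [hc z, h2]
  have hsum : ∑ z, e (σ z) = ∑ z, e z :=
    Equiv.sum_comp (⟨σ, σ, hinv, hinv⟩ : Equiv.Perm Ω) e
  have h1 : ∑ z, (e z + e (σ z)) = Fintype.card Ω := by
    rw [Finset.sum_congr rfl fun z _ => hone z]
    simp
  rw [Finset.sum_add_distrib, hsum] at h1
  linarith

end Dt

end Pool.Agent.NumRank
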