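import Pool.Agent.Mod4.Ideal
import Pool.Agent.PrimePow.Main

/-!
# The space as a sum of copies of a minimal stable subspace
-/

set_option autoImplicit false
set_option linter.unusedSectionVars false

namespace Pool.Agent.NumRank

open Module Pool.Agent.CoprimeSig

variable {K V : Type*} [Field K] [CharZero K] [IsAlgClosed K] [AddCommGroup V] [Module K V]
  [FiniteDimensional K V] {g t : Submodule K (End K V)}

/-- The space is a sum of copies of a minimal stable subspace of the ideal. -/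
theorem exists_copies [Nontrivial V] (hlie : ∀ a ∈ g, ∀ b ∈ g, a * b - b * a ∈ g)
    (hirr : ∀ U : Submodule K V, (∀ a ∈ g, ∀ w ∈ U, a w ∈ U) → U = ⊥ ∨ U = ⊤)
    {s : Submodule K (End K V)} (hsg : s ≤ g) (hs : ∀ x ∈ g, ∀ z ∈ s, x * z - z * x ∈ s)
    (htr : ∀ a ∈ s, LinearMap.trace K V a = 0) :
    ∃ S : Submodule K V, S ≠ ⊥ ∧ (∀ y ∈ s, ∀ w ∈ S, y w ∈ S) ∧
      (∀ T : Submodule K V, T ≤ S → (∀ y ∈ s, ∀ w ∈ T, y w ∈ T) → T = ⊥ ∨ T = S) ∧
      (⨆ b : {b : End K V // ∀ y ∈ s, b * y = y * b}, S.map (b : End K V)) = ⊤ := by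
  classical
  have hex : ∃ n : ℕ, ∃ S : Submodule K V, S ≠ ⊥ ∧ (∀ y ∈ s, ∀ w ∈ S, y w ∈ S) ∧
      finrank K S = n :=
    ⟨_, ⊤, top_ne_bot, fun _ _ _ _ => Submodule.mem_top, rfl⟩
  obtain ⟨S, hS0, hSs, hSn⟩ := Nat.find_spec hex
  refine ⟨S, hS0, hSs, fun T hTS hT => ?_, ?_⟩
  · by_cases hT0 : T = ⊥
    · exact Or.inl hT0
    · right
      apply Submodule.eq_of_le_of_finrank_le hTS
      rw [hSn]
      exact Nat.find_min' hex ⟨T, hT0, hT, rfl⟩
  · set U := ⨆ b : {b : End K V // ∀ y ∈ s, b * y = y * b}, S.map (b : End K V) with hU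
    have hmaps : ∀ x : End K V, (∀ b : End K V, (∀ y ∈ s, b * y = y * b) → ∀ w ∈ S,
        x (b w) ∈ U) → ∀ w ∈ U, x w ∈ U := by
      intro x hx
      have h1 : U ≤ U.comap x := by
        refine iSup_le ?_
        rintro ⟨b, hb⟩ _ ⟨w, hw, rfl⟩
        exact hx b hb w hw
      exact fun w hw => h1 hw
    have hmem : ∀ b : End K V, (∀ y ∈ s, b * y = y * b) → ∀ w ∈ S, b w ∈ U := by
      intro b hb w hw
      have h1 : S.map b ≤ U := le_iSup (fun b : {b : End K V // ∀ y ∈ s, b * y = y * b} =>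
        S.map (b : End K V)) ⟨b, hb⟩
      exact h1 ⟨w, hw, rfl⟩
    rcases hirr U (fun x hx => by
      obtain ⟨a, ha, b', hb', rfl, hcomm⟩ := Mod4.split_ideal hlie hirr hsg hs htr x hx
      refine hmaps _ fun b hb w hw => ?_
      rw [LinearMap.add_apply]
      refine U.add_mem ?_ ?_
      · rw [← Module.End.mul_apply, ← hb a ha, Module.End.mul_apply]
        exact hmem b hb _ (hSs a ha w hw)
      · rw [← Module.End.mul_apply]
        refine hmem _ (fun y hy => ?_) w hw
        rw [mul_assoc, hb y hy, ← mul_assoc, hcomm y hy, mul_assoc]) with h | h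
    · exfalso
      apply hS0
      rw [eq_bot_iff, ← h]
      intro w hw
      have h1 := hmem 1 (fun y _ => by rw [one_mul, mul_one]) w hw
      rwa [Module.End.one_apply] at h1
    · exact h

end Pool.Agent.NumRank
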