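import Pool.Agent.Mod4.Good

/-!
# Every root is linked to a root which does not vanish on the generator
-/

set_option autoImplicit false
set_option linter.unusedSectionVars false

namespace Pool.Agent.NumRank

open Module Pool.Agent.CoprimeSig Pool.Agent.Mod4

variable {K V : Type*} [Field K] [CharZero K] [IsAlgClosed K] [AddCommGroup V] [Module K V]
  [FiniteDimensional K V] {g t : Submodule K (End K V)}

/-- the conjugate of a pair of opposite root vectors -/
private theorem seen_opp (hlie : ∀ a ∈ g, ∀ b ∈ g, a * b - b * a ∈ g) {γ α : End K V → K}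
    {w w' x y : End K V} (P : Opp g t γ w w') (Q : Opp g t α x y) (hx0 : x ≠ 0) :
    Opp g t (fun τ => α τ - γ τ * α (w * w' - w' * w)) (wl w w' * x * wlInv w w')
      (wl w w' * y * wlInv w w') ∧
    wl w w' * x * wlInv w w' * (wl w w' * y * wlInv w w') -
      wl w w' * y * wlInv w w' * (wl w w' * x * wlInv w w') =
      (x * y - y * x) - γ (x * y - y * x) • (w * w' - w' * w) := by
  obtain ⟨k1, k2, k3, -⟩ := wl_mul_inv P
  have hy0 : y ≠ 0 := by
    rintro rfl
    apply hx0
    rw [← Q.xyx, mul_zero, zero_mul]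
  have hmul : ∀ a b : End K V, wl w w' * a * wlInv w w' * (wl w w' * b * wlInv w w') =
      wl w w' * (a * b) * wlInv w w' := by
    intro a b
    calc wl w w' * a * wlInv w w' * (wl w w' * b * wlInv w w') =
        wl w w' * a * (wlInv w w' * wl w w') * b * wlInv w w' := by simp only [mul_assoc]
      _ = _ := by rw [k2, mul_one]; simp only [mul_assoc]
  have hbr : wl w w' * x * wlInv w w' * (wl w w' * y * wlInv w w') -
      wl w w' * y * wlInv w w' * (wl w w' * x * wlInv w w') =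
      (x * y - y * x) - γ (x * y - y * x) • (w * w' - w' * w) := by
    rw [hmul, hmul, ← k3 _ Q.mem, mul_sub, sub_mul]
  refine ⟨⟨conj_root hlie P Q.rx hx0, ?_, ?_, ?_, ?_, ?_, ?_⟩, hbr⟩
  · have h1 := conj_root hlie P Q.ry hy0
    have h2 : (fun τ => -α τ - γ τ * -α (w * w' - w' * w)) =
        (fun τ => -(α τ - γ τ * α (w * w' - w' * w))) := by
      funext τ
      ring
    rw [h2] at h1
    exact h1
  · rw [hmul, Q.xx, mul_zero, zero_mul]
  · rw [hmul, Q.yy, mul_zero, zero_mul]
  · rw [hmul, hmul, Q.xyx]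
  · rw [hmul, hmul, Q.yxy]
  · rw [hbr]
    exact t.sub_mem Q.mem (t.smul_mem _ P.mem)

/-- `δ` vanishes on the coroots of all roots which do not vanish at `e` -/
private def Hid (g t : Submodule K (End K V)) (e : End K V) (δ : End K V → K) : Prop :=
  ∀ (α : End K V → K) (x y : End K V), Opp g t α x y → x ≠ 0 → α e ≠ 0 → δ (x * y - y * x) = 0

private theorem hid_zero (hlie : ∀ a ∈ g, ∀ b ∈ g, a * b - b * a ∈ g) {e : End K V}
    {δ γ : End K V → K} {b w w' : End K V} (hb : IsRoot g t δ b) (hb0 : b ≠ 0)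
    (hδ : Hid g t e δ) (hγ : ¬ Hid g t e γ) (P : Opp g t γ w w') (hw0 : w ≠ 0) :
    δ (w * w' - w' * w) = 0 := by
  by_cases hγe : γ e = 0
  swap
  · exact hδ γ w w' P hw0 hγe
  unfold Hid at hγ
  push Not at hγ
  obtain ⟨α, x, y, Q, hx0, hαe, hγh⟩ := hγ
  obtain ⟨R, hR⟩ := seen_opp hlie P Q hx0
  have h1 := hδ _ _ _ R (conj_ne P hx0) (by
    rw [hγe, zero_mul, sub_zero]
    exact hαe)
  rw [hR, root_sub hb hb0 Q.mem (t.smul_mem _ P.mem), root_smul hb hb0 P.mem,
    hδ α x y Q hx0 hαe, zero_sub, neg_eq_zero] at h1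
  exact (mul_eq_zero.1 h1).resolve_left hγh

private theorem hid_comm (C : Cartan g t) {e : End K V}
    (hopp : ∀ (α : End K V → K) (x : End K V), IsRoot g t α x → x ≠ 0 → (∃ τ ∈ t, α τ ≠ 0) →
      ∃ y, Opp g t α x y)
    {β γ : End K V → K} {b w : End K V} (hb : IsRoot g t β b) (hb0 : b ≠ 0)
    (hβt : ∃ τ ∈ t, β τ ≠ 0) (hβ : Hid g t e β) (hw : IsRoot g t γ w) (hγ : ¬ Hid g t e γ) :
    w * b = b * w := by
  by_contra hne
  have hz0 : w * b - b * w ≠ 0 := sub_ne_zero.2 hne
  have hw0 : w ≠ 0 := by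
    rintro rfl
    exact hne (by rw [zero_mul, mul_zero])
  have hz : IsRoot g t (fun τ => γ τ + β τ) (w * b - b * w) := by
    refine ⟨C.lie w hw.mem b hb.mem, fun τ hτ => ?_⟩
    have e : τ * (w * b - b * w) - (w * b - b * w) * τ =
        (τ * w - w * τ) * b - b * (τ * w - w * τ) + (w * (τ * b - b * τ) -
          (τ * b - b * τ) * w) := by noncomm_ring
    rw [e, hw.root τ hτ, hb.root τ hτ]
    simp only [smul_mul_assoc, mul_smul_comm, ← smul_sub, ← add_smul]
  have hγt : ∃ τ ∈ t, γ τ ≠ 0 := by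
    have h := hγ
    unfold Hid at h
    push Not at h
    obtain ⟨α, x, y, Q, -, -, hγh⟩ := h
    exact ⟨_, Q.mem, hγh⟩
  obtain ⟨w', P⟩ := hopp γ w hw hw0 hγt
  obtain ⟨b', R⟩ := hopp β b hb hb0 hβt
  have h1 : β (w * w' - w' * w) = 0 := hid_zero C.lie hb hb0 hβ hγ P hw0
  have h2 := opp_two P hw0
  have h3 : (fun τ => γ τ + β τ) (w * w' - w' * w) = 2 := by
    change γ _ + β _ = 2
    rw [h1, h2, add_zero]
  have hzt : ∃ τ ∈ t, (fun τ => γ τ + β τ) τ ≠ 0 := ⟨_, P.mem, by rw [h3]; exact two_ne_zero⟩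
  obtain ⟨z', Q⟩ := hopp _ _ hz hz0 hzt
  have hnh : ¬ Hid g t e (fun τ => γ τ + β τ) := by
    intro hh
    have h4 := hid_zero C.lie hz hz0 hh hγ P hw0
    rw [h2, h1, add_zero] at h4
    exact two_ne_zero h4
  have h5 : β ((w * b - b * w) * z' - z' * (w * b - b * w)) = 0 :=
    hid_zero C.lie hb hb0 hβ hnh Q hz0
  have t1 := trace_h R P.mem
  have t2 := trace_h P R.mem
  have t3 := trace_h R Q.mem
  have t4 := trace_h Q R.mem
  rw [h1, zero_mul] at t1
  rw [h5, zero_mul] at t3
  rw [LinearMap.trace_mul_comm, t1] at t2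
  rw [LinearMap.trace_mul_comm, t3] at t4
  have h6 : γ (b * b' - b' * b) = 0 :=
    (mul_eq_zero.1 t2.symm).resolve_right (trace_xy_ne P hw0)
  have h7 : γ (b * b' - b' * b) + β (b * b' - b' * b) = 0 :=
    (mul_eq_zero.1 t4.symm).resolve_right (trace_xy_ne Q hz0)
  rw [h6, zero_add, opp_two R hb0] at h7
  exact two_ne_zero h7

theorem seen [Nontrivial V] (C : Cartan g t) {e : End K V} (he : e ∈ t) (hee : e * e = e)
    (hopp : ∀ (α : End K V → K) (x : End K V), IsRoot g t α x → x ≠ 0 → (∃ τ ∈ t, α τ ≠ 0) →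
      ∃ y, Opp g t α x y)
    (hall : ∀ x ∈ g, ∃ a ∈ idl g {e}, ∃ c : K, x = a + c • 1)
    {β : End K V → K} {b : End K V} (hb : IsRoot g t β b) (hb0 : b ≠ 0) (hβ : ∃ τ ∈ t, β τ ≠ 0) :
    ∃ (α : End K V → K) (x y : End K V), Opp g t α x y ∧ x ≠ 0 ∧ α e ≠ 0 ∧
      β (x * y - y * x) ≠ 0 := by
  by_contra hcon
  have hβh : Hid g t e β := by
    intro α x y Q hx0 hαe
    by_contra hne
    exact hcon ⟨α, x, y, Q, hx0, hαe, hne⟩
  let B : Set (End K V) := {x | x ≠ 0 ∧ ∃ α : End K V → K, IsRoot g t α x ∧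
    (∃ τ ∈ t, α τ ≠ 0) ∧ Hid g t e α}
  let Z : Submodule K (End K V) :=
    { carrier := {z | ∀ b ∈ B, z * b = b * z}
      add_mem' := fun {u v} hu hv b hb => by rw [add_mul, mul_add, hu b hb, hv b hb]
      zero_mem' := fun b _ => by rw [zero_mul, mul_zero]
      smul_mem' := fun c u hu b hb => by rw [smul_mul_assoc, mul_smul_comm, hu b hb] }
  have hZ : ∀ z, z ∈ Z ↔ ∀ b ∈ B, z * b = b * z := fun z => Iff.rfl
  -- `Z` is an ideal
  have hst : ∀ w ∈ g, ∀ z ∈ Z, w * z - z * w ∈ Z := by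
    intro w hw
    have h1 := mem_span_roots C hw
    clear hw
    induction h1 using Submodule.span_induction with
    | mem w hw =>
      obtain ⟨γ, hw⟩ := hw
      intro z hz
      rw [hZ] at hz ⊢
      intro b hb
      -- it is enough that `z` commutes with `[w, b]`
      have key : z * (w * b - b * w) = (w * b - b * w) * z → (w * z - z * w) * b =
          b * (w * z - z * w) := by
        intro h
        have h2 := hz b hb
        have e1 : (w * z - z * w) * b = w * (z * b) - z * (w * b) := by noncomm_ring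
        have e2 : b * (w * z - z * w) = (b * w) * z - (b * z) * w := by noncomm_ring
        have e3 : z * (w * b) = (w * b) * z - (b * w) * z + z * (b * w) := by
          have e4 : z * (w * b) = z * (w * b - b * w) + z * (b * w) := by noncomm_ring
          rw [e4, h]
          noncomm_ring
        rw [e1, e2, e3, h2, ← h2]
        rw [h2]
        have e5 : z * (b * w) = b * z * w := by rw [← mul_assoc, h2]
        rw [e5]
        noncomm_ring
      apply key
      by_cases hw0 : w = 0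
      · rw [hw0]
        simp
      obtain ⟨hb0, δ, hbδ, hδ1, hδ2⟩ := hb
      by_cases hγ : ∃ τ ∈ t, γ τ ≠ 0
      · by_cases hγ2 : Hid g t e γ
        · have h3 := hz w ⟨hw0, γ, hw, hγ, hγ2⟩
          have h4 := hz b ⟨hb0, δ, hbδ, hδ1, hδ2⟩
          have e1 : z * (w * b - b * w) = (z * w) * b - (z * b) * w := by noncomm_ring
          have e2 : (w * b - b * w) * z = w * (b * z) - b * (w * z) := by noncomm_ring
          rw [e1, e2, h3, h4, ← h4, ← h3]
          rw [h3, h4, mul_assoc, h4, mul_assoc, h3]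
        · have h3 := hid_comm C hopp hbδ hb0 hδ1 hδ2 hw hγ2
          rw [h3, sub_self, mul_zero, zero_mul]
      · push Not at hγ
        have hwt : w ∈ t := by
          refine C.cent w hw.mem fun τ hτ => ?_
          have h3 := hw.root τ hτ
          rw [hγ τ hτ, zero_smul, sub_eq_zero] at h3
          exact h3.symm
        rw [hbδ.root w hwt, mul_smul_comm, smul_mul_assoc, hz b ⟨hb0, δ, hbδ, hδ1, hδ2⟩]
    | zero =>
      intro z _
      rw [zero_mul, mul_zero, sub_self]
      exact Z.zero_mem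
    | add u v _ _ hu hv =>
      intro z hz
      have e : (u + v) * z - z * (u + v) = (u * z - z * u) + (v * z - z * v) := by noncomm_ring
      rw [e]
      exact Z.add_mem (hu z hz) (hv z hz)
    | smul c u _ hu =>
      intro z hz
      rw [smul_mul_assoc, mul_smul_comm, ← smul_sub]
      exact Z.smul_mem c (hu z hz)
  have hle : idl g {e} ≤ Z := by
    refine sInf_le ⟨fun ε hε => ?_, hst⟩
    rw [Set.mem_singleton_iff] at hε
    subst hε
    rw [hZ]
    rintro b ⟨hb0, δ, hbδ, hδ1, hδ2⟩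
    have hδe : δ ε = 0 := by
      by_contra hne
      obtain ⟨b', R⟩ := hopp δ b hbδ hb0 hδ1
      have h2 := hδ2 δ b b' R hb0 hne
      rw [opp_two R hb0] at h2
      exact two_ne_zero h2
    have h1 := hbδ.root ε he
    rw [hδe, zero_smul, sub_eq_zero] at h1
    rw [sub_mul, mul_sub, smul_mul_assoc, mul_smul_comm, h1, one_mul, mul_one]
  obtain ⟨τ, hτ, hβτ⟩ := hβ
  obtain ⟨a, ha, c, hac⟩ := hall τ (C.le hτ)
  have hbB : b ∈ B := ⟨hb0, β, hb, ⟨τ, hτ, hβτ⟩, hβh⟩
  have hcomm : τ * b = b * τ := by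
    rw [hac, add_mul, mul_add, (hZ a).1 (hle ha) b hbB, smul_mul_assoc, mul_smul_comm, one_mul,
      mul_one]
  have h1 := hb.root τ hτ
  rw [hcomm, sub_self] at h1
  rcases smul_eq_zero.1 h1.symm with h2 | h2
  · exact hβτ h2
  · exact hb0 h2

end Pool.Agent.NumRank
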