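import Pool.Agent.NumRank.Lat
import Pool.Agent.NumRank.Seen
import Pool.Agent.NumRank.Base

/-!
# From the Lie algebra to the combinatorial data
-/

set_option autoImplicit false
set_option linter.unusedSectionVars false

namespace Pool.Agent.NumRank

open Module Pool.Agent.CoprimeSig Pool.Agent.Mod4
open Pool.Agent.PrimePow.CC (Rf Rt Lat)

variable {K V : Type*} [Field K] [CharZero K] [IsAlgClosed K] [AddCommGroup V] [Module K V]
  [FiniteDimensional K V] {g t : Submodule K (End K V)}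

private theorem trace_dg {I : Type} [Fintype I] (v : Basis I K V) {x : End K V} {f : I → ℚ}
    (hx : ∀ i, x (v i) = (f i : K) • v i) :
    LinearMap.trace K V x = ((∑ i, f i : ℚ) : K) := by
  classical
  rw [LinearMap.trace_eq_matrix_trace K v, Matrix.trace]
  push_cast
  refine Finset.sum_congr rfl fun i _ => ?_
  rw [Matrix.diag_apply, LinearMap.toMatrix_apply, hx, map_smul,
    Basis.repr_self, Finsupp.smul_apply, Finsupp.single_eq_same, smul_eq_mul, mul_one]

private theorem trace_pair {I : Type} [Fintype I] (v : Basis I K V) {κ τ : End K V}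
    {k h : I → ℚ} (hκ : ∀ i, κ (v i) = (k i : K) • v i) (hτ : ∀ i, τ (v i) = (h i : K) • v i) :
    LinearMap.trace K V (κ * τ) = ((k ⬝ᵥ h : ℚ) : K) := by
  rw [trace_dg v (f := fun i => k i * h i)]
  · rfl
  · intro i
    rw [Module.End.mul_apply, hτ, map_smul, hκ, smul_smul, Rat.cast_mul, mul_comm]

/-- every function of a root is not orthogonal to that of an actual root -/
private theorem linked [Nontrivial V] (C : Cartan g t) (hone : (1 : End K V) ∈ t)
    (hirr : ∀ U : Submodule K V, (∀ a ∈ g, ∀ w ∈ U, a w ∈ U) → U = ⊥ ∨ U = ⊤)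
    (hopp : ∀ (α : End K V → K) (x : End K V), IsRoot g t α x → x ≠ 0 → (∃ τ ∈ t, α τ ≠ 0) →
      ∃ y, Opp g t α x y)
    {I : Type} [Fintype I] (v : Basis I K V) (hv : ∀ x ∈ t, ∀ i, ∃ c : K, x (v i) = c • v i)
    (hmult : ∀ i j, (∀ τ ∈ t, wv v i τ = wv v j τ) → i = j) {h : I → ℚ} (H : Rt (Lv t v) h) :
    ∃ (k : I → ℚ) (α : End K V → K) (x y : End K V), Opp g t α x y ∧ x ≠ 0 ∧
      Rt (Lv t v) k ∧ (∀ i, (x * y - y * x) (v i) = (k i : K) • v i) ∧ k ⬝ᵥ h ≠ 0 := by
  by_contra hcon
  push Not at hcon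
  obtain ⟨-, τ, hτ, hτh⟩ := Rt_mem H
  have h1 : ∀ z ∈ Submodule.span K ({1} ∪ {h | ∃ (α : End K V → K) (x y : End K V),
      Opp g t α x y ∧ x ≠ 0 ∧ h = x * y - y * x}), LinearMap.trace K V (z * τ) = 0 := by
    intro z hz
    induction hz using Submodule.span_induction with
    | mem z hz =>
      rcases hz with hz | ⟨α, x, y, P, hx0, rfl⟩
      · rw [Set.mem_singleton_iff.1 hz, one_mul, trace_dg v hτh, Rt_sum H, Rat.cast_zero]
      · obtain ⟨k, π, hk, hkr, -⟩ := exists_rf v hv hmult P hx0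
        rw [trace_pair v hkr hτh, hcon k α x y P hx0 ⟨π, hk⟩ hkr, Rat.cast_zero]
    | zero => rw [zero_mul, map_zero]
    | add z w _ _ hz hw => rw [add_mul, map_add, hz, hw, add_zero]
    | smul c z _ hz => rw [smul_mul_assoc, map_smul, hz, smul_zero]
  have h2 := h1 τ (span_coroots C hone hirr hopp hτ)
  rw [trace_pair v hτh hτh] at h2
  exact Rt_sq_ne H (by exact_mod_cast h2)

theorem exists_dt [Nontrivial V] (C : Cartan g t) (hone : (1 : End K V) ∈ t)
    (hirr : ∀ U : Submodule K V, (∀ a ∈ g, ∀ w ∈ U, a w ∈ U) → U = ⊥ ∨ U = ⊤)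
    (hopp : ∀ (α : End K V → K) (x : End K V), IsRoot g t α x → x ≠ 0 → (∃ τ ∈ t, α τ ≠ 0) →
      ∃ y, Opp g t α x y)
    {e : End K V} (he : e ∈ t) (hee : e * e = e) (he0 : e ≠ 0) (he1 : e ≠ 1)
    (hall : ∀ x ∈ g, ∃ a ∈ idl g {e}, ∃ c : K, x = a + c • 1) :
    ∃ (I : Type) (_ : Fintype I) (v : Basis I K V) (f : I → ℚ),
      (∀ i, e (v i) = (f i : K) • v i) ∧ Dt (Lv t v) f ∧
      ∃ (h : I → ℚ) (α : End K V → K) (x y : End K V), Opp g t α x y ∧ x ≠ 0 ∧
        Rt (Lv t v) h ∧ ∀ i, (x * y - y * x) (v i) = (h i : K) • v i := by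
  classical
  obtain ⟨I, hI, v, hv⟩ := C.diag
  have hmult : ∀ i j, (∀ τ ∈ t, wv v i τ = wv v j τ) → i = j := fun i j h =>
    mult_one C hone hirr hopp v hv h
  have hL : Lat (Lv t v) := lat v hv C hone hirr hopp hmult
  choose r hr using hv e he
  have hr01 : ∀ i, r i = 0 ∨ r i = 1 := by
    intro i
    have h1 := LinearMap.congr_fun hee (v i)
    rw [Module.End.mul_apply, hr, map_smul, hr, smul_smul] at h1
    have h2 : r i * r i = r i := smul_left_injective K (v.ne_zero i) h1
    have h3 : r i * (r i - 1) = 0 := by linear_combination h2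
    rcases mul_eq_zero.1 h3 with h4 | h4
    · exact Or.inl h4
    · exact Or.inr (sub_eq_zero.1 h4)
  set f : I → ℚ := fun i => if r i = 1 then 1 else 0 with hf
  have hfe : ∀ i, e (v i) = (f i : K) • v i := by
    intro i
    rw [hr, hf]
    simp only
    rcases hr01 i with h1 | h1
    · rw [h1, if_neg (by exact zero_ne_one), Rat.cast_zero]
    · rw [h1, if_pos rfl, Rat.cast_one]
  have hf01 : ∀ i, f i = 0 ∨ f i = 1 := by
    intro i
    rw [hf]
    simp only
    by_cases h1 : r i = 1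
    · rw [if_pos h1]
      exact Or.inr rfl
    · rw [if_neg h1]
      exact Or.inl rfl
  have D : Dt (Lv t v) f := by
    refine ⟨hL, ⟨fun i => ?_, e, he, hfe⟩, hf01, ?_, ?_, ?_⟩
    · rcases hf01 i with h1 | h1
      · exact ⟨0, by rw [h1, Int.cast_zero]⟩
      · exact ⟨1, by rw [h1, Int.cast_one]⟩
    · by_contra hcon
      push Not at hcon
      apply he0
      refine v.ext fun i => ?_
      rw [hfe, (hf01 i).resolve_right (hcon i), Rat.cast_zero, zero_smul, LinearMap.zero_apply]
    · by_contra hcon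
      push Not at hcon
      apply he1
      refine v.ext fun i => ?_
      rw [hfe, (hf01 i).resolve_left (hcon i), Rat.cast_one, one_smul, Module.End.one_apply]
    · intro h H
      obtain ⟨k', β, x', y', P', hx0', H', hr', hk'h⟩ :=
        linked C hone hirr hopp v hv hmult H
      obtain ⟨α, x, y, P, hx0, hαe, hβ⟩ := seen C he hee hopp hall P'.rx hx0'
        ⟨_, P'.mem, by rw [opp_two P' hx0']; exact two_ne_zero⟩
      obtain ⟨k, π, hk, hkr, -⟩ := exists_rf v hv hmult P hx0
      have Hk : Rt (Lv t v) k := ⟨π, hk⟩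
      have hke : k ⬝ᵥ f ≠ 0 := by
        intro h0
        have h1 := trace_pair v hfe hkr
        rw [trace_h P he, dotProduct_comm, h0, Rat.cast_zero] at h1
        rcases mul_eq_zero.1 h1 with h2 | h2
        · exact hαe h2
        · exact trace_xy_ne P hx0 h2
      have hkk : k' ⬝ᵥ k ≠ 0 := by
        intro h0
        have h1 := trace_pair v hkr hr'
        rw [trace_h P' P.mem, dotProduct_comm, h0, Rat.cast_zero] at h1
        rcases mul_eq_zero.1 h1 with h2 | h2
        · exact hβ h2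
        · exact trace_xy_ne P' hx0' h2
      by_cases hkh : k ⬝ᵥ h = 0
      · by_cases hk'e : k' ⬝ᵥ f = 0
        · refine ⟨_, Rt_refl H' Hk hL, ?_, ?_⟩
          · rw [sub_dotProduct, smul_dotProduct, hk'e, smul_zero, sub_zero]
            exact hke
          · rw [sub_dotProduct, smul_dotProduct, hkh, zero_sub, neg_ne_zero, smul_eq_mul]
            refine mul_ne_zero ?_ hk'h
            intro h0
            exact hkk ((cf_eq_zero (Rt_sq_ne H')).1 h0)
        · exact ⟨k', H', hk'e, hk'h⟩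
      · exact ⟨k, Hk, hke, hkh⟩
  obtain ⟨h, ω, H, -⟩ := D.ex_root
  obtain ⟨k', β, x', y', P', hx0', H', hr', -⟩ := linked C hone hirr hopp v hv hmult H
  exact ⟨I, hI, v, f, hfe, D, k', β, x', y', P', hx0', H', hr'⟩

end Pool.Agent.NumRank
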