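import Pool.Agent.NumRank.OneNorm

/-!
# Four orthogonal roots
-/

set_option autoImplicit false
set_option linter.unusedSectionVars false

namespace Pool.Agent.NumRank

open Pool.Agent.PrimePow.CC

variable {Ω : Type*} [Fintype Ω] {L : AddSubgroup (Ω → ℚ)} {e f h k θ p q γ δ β κ ξ : Ω → ℚ}
  {ω : Ω}

/-- Four orthogonal roots whose half-sum is a root, and their values at a point and on `e`. -/
structure Frame (L : AddSubgroup (Ω → ℚ)) (e : Ω → ℚ) (ω : Ω) (γ δ β κ ξ : Ω → ℚ) : Prop where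
  eω : e ω = 1
  rγ : Rt L γ
  rδ : Rt L δ
  rβ : Rt L β
  rκ : Rt L κ
  rξ : Rt L ξ
  sum : γ + δ + β + κ = (2 : ℚ) • ξ
  o12 : cf γ δ = 0
  o13 : cf γ β = 0
  o14 : cf γ κ = 0
  o23 : cf δ β = 0
  o24 : cf δ κ = 0
  o34 : cf β κ = 0
  vγ : γ ω = 1
  vδ : δ ω = 1
  vβ : β ω = 0
  vκ : κ ω = 0
  eγ : cf e γ = 1
  eδ : cf e δ = 0
  eβ : cf e β = 1
  eκ : cf e κ = 0
  no23 : ∀ θ, Rt L θ → cf θ γ = 0 → cf θ δ ≠ 0 → cf θ β = 0

/-- reflections change one sign -/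
theorem cf_flip (P : Rt L p) : cf (θ - cf θ p • p) p = -cf θ p := by
  rw [cf_sub, cf_smul, Rt_self P]
  ring

theorem cf_flip_orth (h0 : cf p q = 0) : cf (θ - cf θ p • p) q = cf θ q := by
  rw [cf_sub, cf_smul, h0, mul_zero, sub_zero]

theorem Frame.xi (F : Frame L e ω γ δ β κ ξ) (hM : ∀ h k, Rt L h → Rt L k → h ⬝ᵥ h = k ⬝ᵥ k) :
    2 * cf θ ξ = cf θ γ + cf θ δ + cf θ β + cf θ κ := by
  have h1 : (γ + δ + β + κ) ⬝ᵥ θ = ((2 : ℚ) • ξ) ⬝ᵥ θ := by rw [F.sum]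
  rw [add_dotProduct, add_dotProduct, add_dotProduct, smul_dotProduct, smul_eq_mul] at h1
  rw [cf, cf, cf, cf, cf, hM γ ξ F.rγ F.rξ, hM δ ξ F.rδ F.rξ, hM β ξ F.rβ F.rξ,
    hM κ ξ F.rκ F.rξ]
  have h2 := Rt_sq_ne F.rξ
  field_simp
  linarith

private theorem frame_refl_right (hM : ∀ h k, Rt L h → Rt L k → h ⬝ᵥ h = k ⬝ᵥ k) {c : ℚ}
    (P : Rt L p) (Q : Rt L q) (R : Rt L (p - c • q)) (f : Ω → ℚ) :
    cf f (p - c • q) = cf f p - c * cf f q := by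
  rw [cf, cf, cf, sub_dotProduct, smul_dotProduct, hM _ p R P, hM q p Q P, smul_eq_mul]
  ring

/-- moving an orthogonal partner -/
private theorem frame_partner (hM : ∀ h k, Rt L h → Rt L k → h ⬝ᵥ h = k ⬝ᵥ k) (hL : Lat L)
    {a a' : Ω → ℚ} (G : Rt L γ) (A : Rt L a) (A' : Rt L a') (h0 : cf a a' = 0)
    (h1 : cf γ a = 1) : Rt L (γ - a) ∧ Rt L (a' - cf a' (γ - a) • (γ - a)) ∧
      cf γ (a' - cf a' (γ - a) • (γ - a)) = 0 := by
  have W := sub_root hL G A h1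
  have R := Rt_refl W A' hL
  refine ⟨W, R, ?_⟩
  rw [frame_refl_right hM A' W R, cf_symm hM A' W, cf_sub γ a a', h0,
    cf_sub_right hM G A W, Rt_self G, h1]
  ring

private theorem frame_move {π : Equiv.Perm Ω} (H : Rf L h π) (hf : f ∈ L) (x : Ω) :
    f (π x) = f x - cf f h * h x := by
  obtain ⟨a, ha, ha'⟩ := H.coef hf
  rw [ha, cf_of_eq ⟨π, H⟩ ha']

section

variable (D : Dt L e) (hM : ∀ h k, Rt L h → Rt L k → h ⬝ᵥ h = k ⬝ᵥ k)
include D hM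

/-- every root of degree one has an orthogonal partner of degree one -/
theorem partner_one (h1 : ∃ γ γ', Rt L γ ∧ Rt L γ' ∧ cf e γ = 1 ∧ cf e γ' = 1 ∧ cf γ γ' = 0)
    {γ : Ω → ℚ} (G : Rt L γ) (hγ : cf e γ = 1) :
    ∃ β, Rt L β ∧ cf e β = 1 ∧ cf γ β = 0 := by
  obtain ⟨a, a', A, A', ha, ha', haa⟩ := h1
  rcases cf_cases hM G A with h2 | h2 | h2 | h2 | h2
  · subst h2
    exact ⟨a', A', ha', haa⟩
  · exfalso
    rw [h2, cf_neg_right, ha] at hγ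
    norm_num at hγ
  · exfalso
    have Q := add_root D.toLat G A h2
    have h3 := cf_add_right hM G A Q e
    rw [hγ, ha] at h3
    rcases D.eps Q with h4 | h4 | h4 <;> rw [h4] at h3 <;> norm_num at h3
  · exact ⟨a, A, ha, h2⟩
  · obtain ⟨W, R, h3⟩ := frame_partner hM D.toLat G A A' haa h2
    refine ⟨_, R, ?_, h3⟩
    rw [frame_refl_right hM A' W R, cf_sub_right hM G A W e, hγ, ha, ha']
    ring

/-- every root with the value one at a point has an orthogonal partner with the value one -/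
theorem partner_val (h2 : ∃ ω γ γ', Rt L γ ∧ Rt L γ' ∧ γ ω = 1 ∧ γ' ω = 1 ∧ cf γ γ' = 0)
    {γ : Ω → ℚ} (G : Rt L γ) {ω : Ω} (hγ : γ ω = 1) :
    ∃ δ, Rt L δ ∧ δ ω = 1 ∧ cf γ δ = 0 := by
  obtain ⟨ω0, a0, a0', A0, A0', ha0, ha0', haa0⟩ := h2
  have h1 := D.tr {x | ∃ p q, Rt L p ∧ Rt L q ∧ p x = 1 ∧ q x = 1 ∧ cf p q = 0}
    ⟨ω0, a0, a0', A0, A0', ha0, ha0', haa0⟩ (by
      rintro h π H x ⟨p, q, P, Q, hp, hq, hpq⟩
      have HR : Rt L h := ⟨π, H⟩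
      have P' := Rt_refl HR P D.toLat
      have Q' := Rt_refl HR Q D.toLat
      have hh := frame_move H (Rt_mem HR) x
      rw [Rt_self HR] at hh
      refine ⟨p - cf p h • h, q - cf q h • h, P', Q', ?_, ?_, ?_⟩
      · rw [Pi.sub_apply, Pi.smul_apply, smul_eq_mul, frame_move H (Rt_mem P) x, hh, hp]
        ring
      · rw [Pi.sub_apply, Pi.smul_apply, smul_eq_mul, frame_move H (Rt_mem Q) x, hh, hq]
        ring
      · rw [frame_refl_right hM Q HR Q', cf_sub, cf_smul, cf_sub, cf_smul, hpq, Rt_self HR,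
          cf_symm hM Q HR]
        ring)
  have h2 : ω ∈ {x | ∃ p q, Rt L p ∧ Rt L q ∧ p x = 1 ∧ q x = 1 ∧ cf p q = 0} :=
    h1 ▸ Set.mem_univ ω
  obtain ⟨a, a', A, A', ha, ha', haa⟩ := h2
  rcases cf_cases hM G A with h3 | h3 | h3 | h3 | h3
  · subst h3
    exact ⟨a', A', ha', haa⟩
  · exfalso
    rw [h3, Pi.neg_apply, ha] at hγ
    norm_num at hγ
  · exfalso
    have Q := add_root D.toLat G A h3
    have h4 : (γ + a) ω = 2 := by
      rw [Pi.add_apply, hγ, ha]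
      norm_num
    rcases Rt_val Q ω with h5 | h5 | h5 <;> rw [h4] at h5 <;> norm_num at h5
  · exact ⟨a, A, ha, h3⟩
  · obtain ⟨W, R, h4⟩ := frame_partner hM D.toLat G A A' haa h3
    refine ⟨_, R, ?_, h4⟩
    rw [Pi.sub_apply, Pi.smul_apply, Pi.sub_apply, hγ, ha, ha']
    simp

end

end Pool.Agent.NumRank
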