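import Pool.Agent.NumRank.FrameTypes

/-!
# The two types of roots do not occur together
-/

set_option autoImplicit false
set_option linter.unusedSectionVars false

namespace Pool.Agent.NumRank

open Pool.Agent.PrimePow.CC

variable {Ω : Type*} [Fintype Ω] {L : AddSubgroup (Ω → ℚ)} {e f h k θ η γ δ β κ ξ : Ω → ℚ}
  {ω : Ω}

private theorem fe_flip1 (hL : Lat L) (hM : ∀ h k, Rt L h → Rt L k → h ⬝ᵥ h = k ⬝ᵥ k)
    {p q : Ω → ℚ} (P : Rt L p) (hpq : cf p q = 0) (T : Rt L θ) (hp : cf θ p ≠ 0)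
    (hq : cf θ q ≠ 0) :
    ∃ θ', Rt L θ' ∧ cf θ' p = 1 ∧ ∀ r, cf p r = 0 → cf θ' r = cf θ r := by
  rcases cf_cases hM T P with h1 | h1 | h1 | h1 | h1
  · rw [h1, hpq] at hq
    exact absurd rfl hq
  · rw [h1, cf_neg, hpq, neg_zero] at hq
    exact absurd rfl hq
  · refine ⟨θ + p, add_root hL T P h1, ?_, fun r hr => ?_⟩
    · rw [cf_add, h1, Rt_self P]
      norm_num
    · rw [cf_add, hr, add_zero]
  · exact absurd h1 hp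
  · exact ⟨θ, T, h1, fun r _ => rfl⟩

private theorem fe_flip2 (hL : Lat L) (hM : ∀ h k, Rt L h → Rt L k → h ⬝ᵥ h = k ⬝ᵥ k)
    {p q : Ω → ℚ} (P : Rt L p) (Q : Rt L q) (hpq : cf p q = 0) (T : Rt L θ) (hp : cf θ p ≠ 0)
    (hq : cf θ q ≠ 0) :
    ∃ θ', Rt L θ' ∧ cf θ' p = 1 ∧ cf θ' q = 1 ∧
      ∀ r, cf p r = 0 → cf q r = 0 → cf θ' r = cf θ r := by
  have hqp : cf q p = 0 := (Rt_symm Q P).1 hpq
  obtain ⟨θ₁, T₁, h1, h2⟩ := fe_flip1 hL hM P hpq T hp hq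
  obtain ⟨θ₂, T₂, h3, h4⟩ := fe_flip1 hL hM Q hqp T₁ (by rw [h2 q hpq]; exact hq)
    (by rw [h1]; exact one_ne_zero)
  refine ⟨θ₂, T₂, ?_, h3, fun r hr hr' => ?_⟩
  · rw [h4 p hqp, h1]
  · rw [h4 r hr', h2 r hr]

theorem frame_excl (D : Dt L e) (hM : ∀ h k, Rt L h → Rt L k → h ⬝ᵥ h = k ⬝ᵥ k)
    (F : Frame L e ω γ δ β κ ξ) (T : Rt L θ) (T' : Rt L η) (h1 : TV γ δ β κ θ)
    (h2 : TS γ δ β κ η) : False := by
  have hL := D.toLat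
  have o21 : cf δ γ = 0 := (Rt_symm F.rδ F.rγ).1 F.o12
  have o31 : cf β γ = 0 := (Rt_symm F.rβ F.rγ).1 F.o13
  have o41 : cf κ γ = 0 := (Rt_symm F.rκ F.rγ).1 F.o14
  have o32 : cf β δ = 0 := (Rt_symm F.rβ F.rδ).1 F.o23
  have o42 : cf κ δ = 0 := (Rt_symm F.rκ F.rδ).1 F.o24
  have o43 : cf κ β = 0 := (Rt_symm F.rκ F.rβ).1 F.o34
  have xγ : cf ξ γ = 1 := by
    have h3 := F.xi hM (θ := γ)
    rw [Rt_self F.rγ, F.o12, F.o13, F.o14, cf_symm hM F.rγ F.rξ] at h3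
    linarith
  have xδ : cf ξ δ = 1 := by
    have h3 := F.xi hM (θ := δ)
    rw [Rt_self F.rδ, o21, F.o23, F.o24, cf_symm hM F.rδ F.rξ] at h3
    linarith
  have xβ : cf ξ β = 1 := by
    have h3 := F.xi hM (θ := β)
    rw [Rt_self F.rβ, o31, o32, F.o34, cf_symm hM F.rβ F.rξ] at h3
    linarith
  have xκ : cf ξ κ = 1 := by
    have h3 := F.xi hM (θ := κ)
    rw [Rt_self F.rκ, o41, o42, o43, cf_symm hM F.rκ F.rξ] at h3
    linarith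
  -- the first root
  obtain ⟨θ₁, T₁, a1, a2, a3⟩ : ∃ θ₁, Rt L θ₁ ∧ cf θ₁ γ = 1 ∧ cf θ₁ δ = 1 ∧ cf θ₁ β = 0 := by
    rcases h1 with ⟨h3, -, h5, h6⟩ | ⟨h3, h4, h5, h6⟩
    · obtain ⟨θ₁, T₁, b1, b2, b3⟩ := fe_flip2 hL hM F.rγ F.rδ F.o12 T h5 h6
      exact ⟨θ₁, T₁, b1, b2, by rw [b3 β F.o13 F.o23, h3]⟩
    · obtain ⟨θ₀, T₀, b1, b2, b3⟩ := fe_flip2 hL hM F.rβ F.rκ F.o34 T h5 h6
      have c1 : cf θ₀ γ = 0 := by rw [b3 γ o31 o41, h3]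
      have c2 : cf θ₀ δ = 0 := by rw [b3 δ o32 o42, h4]
      have c3 : cf θ₀ ξ = 1 := by
        have h7 := F.xi hM (θ := θ₀)
        rw [c1, c2, b1, b2] at h7
        linarith
      have R := sub_root hL T₀ F.rξ c3
      obtain ⟨θ₁, T₁, d1, d2, d3⟩ := fe_flip2 hL hM F.rγ F.rδ F.o12 R
        (by rw [cf_sub, c1, xγ]; norm_num) (by rw [cf_sub, c2, xδ]; norm_num)
      refine ⟨θ₁, T₁, d1, d2, ?_⟩
      rw [d3 β F.o13 F.o23, cf_sub, b1, xβ, sub_self]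
  obtain ⟨η₁, T₂, b1, b2, b3⟩ : ∃ η₁, Rt L η₁ ∧ cf η₁ γ = 1 ∧ cf η₁ δ = 0 ∧ cf η₁ β = 1 := by
    rcases h2 with ⟨h3, -, h5, h6⟩ | ⟨h3, h4, h5, h6⟩
    · obtain ⟨η₁, T₁, b1, b2, b3⟩ := fe_flip2 hL hM F.rγ F.rβ F.o13 T' h5 h6
      exact ⟨η₁, T₁, b1, by rw [b3 δ F.o12 o32, h3], b2⟩
    · obtain ⟨η₀, T₀, b1, b2, b3⟩ := fe_flip2 hL hM F.rδ F.rκ F.o24 T' h5 h6
      have c1 : cf η₀ γ = 0 := by rw [b3 γ o21 o41, h3]
      have c2 : cf η₀ β = 0 := by rw [b3 β F.o23 o43, h4]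
      have c3 : cf η₀ ξ = 1 := by
        have h7 := F.xi hM (θ := η₀)
        rw [c1, c2, b1, b2] at h7
        linarith
      have R := sub_root hL T₀ F.rξ c3
      obtain ⟨η₁, T₁, d1, d2, d3⟩ := fe_flip2 hL hM F.rγ F.rβ F.o13 R
        (by rw [cf_sub, c1, xγ]; norm_num) (by rw [cf_sub, c2, xβ]; norm_num)
      refine ⟨η₁, T₁, d1, ?_, d2⟩
      rw [d3 δ F.o12 o32, cf_sub, b1, xδ, sub_self]
  rcases cf_cases hM T₁ T₂ with h3 | h3 | h3 | h3 | h3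
  · rw [h3, b2] at a2
    norm_num at a2
  · rw [h3, cf_neg, b2] at a2
    norm_num at a2
  · have R := add_root hL T₁ T₂ h3
    have h4 : θ₁ + η₁ = γ := cf_two hM R F.rγ (by rw [cf_add, a1, b1]; norm_num)
    have h5 : cf (θ₁ + η₁) δ = 1 := by rw [cf_add, a2, b2, add_zero]
    rw [h4, F.o12] at h5
    norm_num at h5
  · have R := sub_root hL T₁ F.rγ a1
    have h4 : cf (θ₁ - γ) η₁ = -1 := by
      rw [cf_sub, h3, cf_symm hM F.rγ T₂, b1]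
      norm_num
    have R' := add_root hL R T₂ h4
    have h5 := F.no23 _ R'
      (by rw [cf_add, cf_sub, a1, b1, Rt_self F.rγ]; norm_num)
      (by rw [cf_add, cf_sub, a2, b2, F.o12]; norm_num)
    rw [cf_add, cf_sub, a3, b3, F.o13] at h5
    norm_num at h5
  · have R := sub_root hL T₁ T₂ h3
    have h5 := F.no23 _ R
      (by rw [cf_sub, a1, b1, sub_self])
      (by rw [cf_sub, a2, b2]; norm_num)
    rw [cf_sub, a3, b3] at h5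
    norm_num at h5

end Pool.Agent.NumRank
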