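import Pool.Agent.NumRank.Frame

/-!
# The types of the roots with respect to four orthogonal roots
-/

set_option autoImplicit false
set_option linter.unusedSectionVars false

namespace Pool.Agent.NumRank

open Pool.Agent.PrimePow.CC

variable {Ω : Type*} [Fintype Ω] {L : AddSubgroup (Ω → ℚ)} {e f h k θ γ δ β κ ξ : Ω → ℚ}
  {ω : Ω}

/-- vertical type -/
def TV (γ δ β κ θ : Ω → ℚ) : Prop :=
  (cf θ β = 0 ∧ cf θ κ = 0 ∧ cf θ γ ≠ 0 ∧ cf θ δ ≠ 0) ∨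
    (cf θ γ = 0 ∧ cf θ δ = 0 ∧ cf θ β ≠ 0 ∧ cf θ κ ≠ 0)

/-- skew type -/
def TS (γ δ β κ θ : Ω → ℚ) : Prop :=
  (cf θ δ = 0 ∧ cf θ κ = 0 ∧ cf θ γ ≠ 0 ∧ cf θ β ≠ 0) ∨
    (cf θ γ = 0 ∧ cf θ β = 0 ∧ cf θ δ ≠ 0 ∧ cf θ κ ≠ 0)

private theorem xi_one (F : Frame L e ω γ δ β κ ξ) {p : Ω → ℚ} (_ : Rt L p)
    (h : cf γ p + cf δ p + cf β p + cf κ p = 2) : cf ξ p = 1 := by
  have h1 : cf (γ + δ + β + κ) p = cf ((2 : ℚ) • ξ) p := by rw [F.sum]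
  rw [cf_add, cf_add, cf_add, cf_smul, h] at h1
  linarith

private theorem no14_pp (D : Dt L e) (hM : ∀ h k, Rt L h → Rt L k → h ⬝ᵥ h = k ⬝ᵥ k)
    (F : Frame L e ω γ δ β κ ξ) (T : Rt L θ) (h1 : cf θ γ = 1) (h2 : cf θ δ = 0)
    (h3 : cf θ β = 0) (h4 : cf θ κ = 1) : False := by
  have hx : cf θ ξ = 1 := by
    have := F.xi (θ := θ) hM
    rw [h1, h2, h3, h4] at this
    linarith
  have R : Rt L (θ - ξ) := sub_root D.toLat T F.rξ hx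
  have s12 : cf δ γ = 0 := (Rt_symm F.rδ F.rγ).1 F.o12
  have s13 : cf β γ = 0 := (Rt_symm F.rβ F.rγ).1 F.o13
  have s14 : cf κ γ = 0 := (Rt_symm F.rκ F.rγ).1 F.o14
  have s23 : cf β δ = 0 := (Rt_symm F.rβ F.rδ).1 F.o23
  have s24 : cf κ δ = 0 := (Rt_symm F.rκ F.rδ).1 F.o24
  have s34 : cf κ β = 0 := (Rt_symm F.rκ F.rβ).1 F.o34
  have x1 : cf ξ γ = 1 := xi_one F F.rγ (by rw [Rt_self F.rγ, s12, s13, s14]; norm_num)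
  have x2 : cf ξ δ = 1 := xi_one F F.rδ (by rw [Rt_self F.rδ, F.o12, s23, s24]; norm_num)
  have x3 : cf ξ β = 1 := xi_one F F.rβ (by rw [Rt_self F.rβ, F.o13, F.o23, s34]; norm_num)
  have y1 : cf (θ - ξ) γ = 0 := by rw [cf_sub, h1, x1, sub_self]
  have y2 : cf (θ - ξ) δ ≠ 0 := by rw [cf_sub, h2, x2]; norm_num
  have y3 := F.no23 _ R y1 y2
  rw [cf_sub, h3, x3] at y3
  norm_num at y3

private theorem no14_p (D : Dt L e) (hM : ∀ h k, Rt L h → Rt L k → h ⬝ᵥ h = k ⬝ᵥ k)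
    (F : Frame L e ω γ δ β κ ξ) (T : Rt L θ) (h1 : cf θ γ = 1) (h2 : cf θ δ = 0)
    (h3 : cf θ β = 0) (h4 : cf θ κ = 1 ∨ cf θ κ = -1) : False := by
  rcases h4 with h4 | h4
  · exact no14_pp D hM F T h1 h2 h3 h4
  · have s14 : cf κ γ = 0 := (Rt_symm F.rκ F.rγ).1 F.o14
    have s24 : cf κ δ = 0 := (Rt_symm F.rκ F.rδ).1 F.o24
    have s34 : cf κ β = 0 := (Rt_symm F.rκ F.rβ).1 F.o34
    refine no14_pp D hM F (Rt_refl F.rκ T D.toLat) ?_ ?_ ?_ ?_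
    · rw [cf_flip_orth s14, h1]
    · rw [cf_flip_orth s24, h2]
    · rw [cf_flip_orth s34, h3]
    · rw [cf_flip F.rκ, h4, neg_neg]

private theorem no14 (D : Dt L e) (hM : ∀ h k, Rt L h → Rt L k → h ⬝ᵥ h = k ⬝ᵥ k)
    (F : Frame L e ω γ δ β κ ξ) (T : Rt L θ) (h1 : cf θ γ = 1 ∨ cf θ γ = -1) (h2 : cf θ δ = 0)
    (h3 : cf θ β = 0) (h4 : cf θ κ = 1 ∨ cf θ κ = -1) : False := by
  rcases h1 with h1 | h1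
  · exact no14_p D hM F T h1 h2 h3 h4
  · refine no14_p D hM F (Rt_refl F.rγ T D.toLat) ?_ ?_ ?_ ?_
    · rw [cf_flip F.rγ, h1, neg_neg]
    · rw [cf_flip_orth F.o12, h2]
    · rw [cf_flip_orth F.o13, h3]
    · rw [cf_flip_orth F.o14]
      exact h4

/-- Bessel -/
private theorem bessel (hM : ∀ h k, Rt L h → Rt L k → h ⬝ᵥ h = k ⬝ᵥ k)
    (F : Frame L e ω γ δ β κ ξ) (T : Rt L θ) :
    ((2 : ℚ) • θ - (cf θ γ • γ + cf θ δ • δ + cf θ β • β + cf θ κ • κ)) ⬝ᵥ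
      ((2 : ℚ) • θ - (cf θ γ • γ + cf θ δ • δ + cf θ β • β + cf θ κ • κ)) =
    (4 - (cf θ γ ^ 2 + cf θ δ ^ 2 + cf θ β ^ 2 + cf θ κ ^ 2)) * (θ ⬝ᵥ θ) := by
  have n1 : γ ⬝ᵥ γ = θ ⬝ᵥ θ := hM _ _ F.rγ T
  have n2 : δ ⬝ᵥ δ = θ ⬝ᵥ θ := hM _ _ F.rδ T
  have n3 : β ⬝ᵥ β = θ ⬝ᵥ θ := hM _ _ F.rβ T
  have n4 : κ ⬝ᵥ κ = θ ⬝ᵥ θ := hM _ _ F.rκ T
  have m1 := cf_mul (f := θ) (Rt_sq_ne F.rγ)
  have m2 := cf_mul (f := θ) (Rt_sq_ne F.rδ)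
  have m3 := cf_mul (f := θ) (Rt_sq_ne F.rβ)
  have m4 := cf_mul (f := θ) (Rt_sq_ne F.rκ)
  have o12 := (cf_eq_zero (Rt_sq_ne F.rδ)).1 F.o12
  have o13 := (cf_eq_zero (Rt_sq_ne F.rβ)).1 F.o13
  have o14 := (cf_eq_zero (Rt_sq_ne F.rκ)).1 F.o14
  have o23 := (cf_eq_zero (Rt_sq_ne F.rβ)).1 F.o23
  have o24 := (cf_eq_zero (Rt_sq_ne F.rκ)).1 F.o24
  have o34 := (cf_eq_zero (Rt_sq_ne F.rκ)).1 F.o34
  generalize cf θ γ = a1 at *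
  generalize cf θ δ = a2 at *
  generalize cf θ β = a3 at *
  generalize cf θ κ = a4 at *
  simp only [sub_dotProduct, dotProduct_sub, add_dotProduct, dotProduct_add, smul_dotProduct,
    dotProduct_smul, smul_eq_mul]
  rw [dotProduct_comm γ δ, dotProduct_comm γ β, dotProduct_comm γ κ, dotProduct_comm δ β,
    dotProduct_comm δ κ, dotProduct_comm β κ, o12, o13, o14, o23, o24, o34,
    dotProduct_comm θ γ, dotProduct_comm θ δ, dotProduct_comm θ β, dotProduct_comm θ κ]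
  rw [n1] at m1 ⊢
  rw [n2] at m2 ⊢
  rw [n3] at m3 ⊢
  rw [n4] at m4 ⊢
  generalize θ ⬝ᵥ θ = m at *
  generalize γ ⬝ᵥ θ = g1 at *
  generalize δ ⬝ᵥ θ = g2 at *
  generalize β ⬝ᵥ θ = g3 at *
  generalize κ ⬝ᵥ θ = g4 at *
  linear_combination 2 * a1 * m1 + 2 * a2 * m2 + 2 * a3 * m3 + 2 * a4 * m4

private theorem comb {z1 z2 z3 z4 x : ℤ} (hx : 2 * x = z1 + z2 + z3 + z4)
    (hs : z1 ^ 2 + z2 ^ 2 + z3 ^ 2 + z4 ^ 2 < 4) :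
    (z1 = 0 ∧ z2 = 0 ∧ z3 = 0 ∧ z4 = 0) ∨ (z3 = 0 ∧ z4 = 0 ∧ z1 ≠ 0 ∧ z2 ≠ 0) ∨
    (z1 = 0 ∧ z2 = 0 ∧ z3 ≠ 0 ∧ z4 ≠ 0) ∨ (z2 = 0 ∧ z4 = 0 ∧ z1 ≠ 0 ∧ z3 ≠ 0) ∨
    (z1 = 0 ∧ z3 = 0 ∧ z2 ≠ 0 ∧ z4 ≠ 0) ∨ (z1 = 0 ∧ z2 ≠ 0 ∧ z3 ≠ 0) ∨
    ((z1 = 1 ∨ z1 = -1) ∧ z2 = 0 ∧ z3 = 0 ∧ (z4 = 1 ∨ z4 = -1)) := by
  have b : ∀ z : ℤ, z ^ 2 < 4 → z = -1 ∨ z = 0 ∨ z = 1 := by
    intro z hz
    have h1 : -2 < z := by nlinarith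
    have h2 : z < 2 := by nlinarith
    omega
  have q1 := sq_nonneg z1
  have q2 := sq_nonneg z2
  have q3 := sq_nonneg z3
  have q4 := sq_nonneg z4
  rcases b z1 (by linarith) with h1 | h1 | h1 <;> rcases b z2 (by linarith) with h2 | h2 | h2 <;>
    rcases b z3 (by linarith) with h3 | h3 | h3 <;>
    rcases b z4 (by linarith) with h4 | h4 | h4 <;> subst h1 h2 h3 h4 <;>
    first
      | (exfalso; omega)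
      | (exfalso; norm_num at hs; done)
      | simp

theorem frame_types (D : Dt L e) (hM : ∀ h k, Rt L h → Rt L k → h ⬝ᵥ h = k ⬝ᵥ k)
    (F : Frame L e ω γ δ β κ ξ) (T : Rt L θ) :
    (2 : ℚ) • θ = cf θ γ • γ + cf θ δ • δ + cf θ β • β + cf θ κ • κ ∨
      (cf θ γ = 0 ∧ cf θ δ = 0 ∧ cf θ β = 0 ∧ cf θ κ = 0) ∨ TV γ δ β κ θ ∨ TS γ δ β κ θ := by
  have M0 : 0 < θ ⬝ᵥ θ := Rt_sq T
  obtain ⟨z1, e1⟩ := Rt_int F.rγ (Rt_mem T)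
  obtain ⟨z2, e2⟩ := Rt_int F.rδ (Rt_mem T)
  obtain ⟨z3, e3⟩ := Rt_int F.rβ (Rt_mem T)
  obtain ⟨z4, e4⟩ := Rt_int F.rκ (Rt_mem T)
  obtain ⟨x, ex⟩ := Rt_int F.rξ (Rt_mem T)
  have hx : 2 * x = z1 + z2 + z3 + z4 := by
    have := F.xi (θ := θ) hM
    rw [e1, e2, e3, e4, ex] at this
    exact_mod_cast this
  have hb := bessel hM F T
  by_cases hu : (2 : ℚ) • θ - (cf θ γ • γ + cf θ δ • δ + cf θ β • β + cf θ κ • κ) = 0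
  · exact Or.inl (sub_eq_zero.1 hu)
  right
  have hpos := dot_pos hu
  rw [hb] at hpos
  have hs : z1 ^ 2 + z2 ^ 2 + z3 ^ 2 + z4 ^ 2 < 4 := by
    have h5 := (pos_iff_pos_of_mul_pos hpos).2 M0
    rw [e1, e2, e3, e4] at h5
    have h6 : ((z1 ^ 2 + z2 ^ 2 + z3 ^ 2 + z4 ^ 2 : ℤ) : ℚ) < 4 := by
      push_cast
      linarith
    exact_mod_cast h6
  have f1 : cf θ γ = 0 ↔ z1 = 0 := by rw [e1]; exact Int.cast_eq_zero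
  have f2 : cf θ δ = 0 ↔ z2 = 0 := by rw [e2]; exact Int.cast_eq_zero
  have f3 : cf θ β = 0 ↔ z3 = 0 := by rw [e3]; exact Int.cast_eq_zero
  have f4 : cf θ κ = 0 ↔ z4 = 0 := by rw [e4]; exact Int.cast_eq_zero
  unfold TV TS
  rcases comb hx hs with ⟨h1, h2, h3, h4⟩ | ⟨h1, h2, h3, h4⟩ | ⟨h1, h2, h3, h4⟩ |
    ⟨h1, h2, h3, h4⟩ | ⟨h1, h2, h3, h4⟩ | ⟨h1, h2, h3⟩ | ⟨h1, h2, h3, h4⟩
  · exact Or.inl ⟨f1.2 h1, f2.2 h2, f3.2 h3, f4.2 h4⟩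
  · exact Or.inr (Or.inl (Or.inl ⟨f3.2 h1, f4.2 h2, f1.not.2 h3, f2.not.2 h4⟩))
  · exact Or.inr (Or.inl (Or.inr ⟨f1.2 h1, f2.2 h2, f3.not.2 h3, f4.not.2 h4⟩))
  · exact Or.inr (Or.inr (Or.inl ⟨f2.2 h1, f4.2 h2, f1.not.2 h3, f3.not.2 h4⟩))
  · exact Or.inr (Or.inr (Or.inr ⟨f1.2 h1, f3.2 h2, f2.not.2 h3, f4.not.2 h4⟩))
  · exact absurd (F.no23 θ T (f1.2 h1) (f2.not.2 h2)) (f3.not.2 h3)
  · exfalso
    refine no14 D hM F T ?_ (f2.2 h2) (f3.2 h3) ?_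
    · rw [e1]
      rcases h1 with h | h
      · left; rw [h]; norm_num
      · right; rw [h]; norm_num
    · rw [e4]
      rcases h4 with h | h
      · left; rw [h]; norm_num
      · right; rw [h]; norm_num

end Pool.Agent.NumRank
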