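import Pool.Agent.NumRank.Lattice
import Pool.Agent.NumRank.SpanCoroots

/-!
# The lattice has the required properties
-/

set_option autoImplicit false
set_option linter.unusedSectionVars false

namespace Pool.Agent.NumRank

open Module Pool.Agent.CoprimeSig Pool.Agent.Mod4
open Pool.Agent.PrimePow.CC (Rf Rt Lat)

variable {K V : Type*} [Field K] [CharZero K] [IsAlgClosed K] [AddCommGroup V] [Module K V]
  [FiniteDimensional K V] {g t : Submodule K (End K V)} {I : Type} [Fintype I]

variable (v : Basis I K V) (hv : ∀ x ∈ t, ∀ i, ∃ c : K, x (v i) = c • v i)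
include hv

theorem lat [Nontrivial V] (C : Cartan g t) (hone : (1 : End K V) ∈ t)
    (hirr : ∀ U : Submodule K V, (∀ a ∈ g, ∀ w ∈ U, a w ∈ U) → U = ⊥ ∨ U = ⊤)
    (hopp : ∀ (α : End K V → K) (x : End K V), IsRoot g t α x → x ≠ 0 → (∃ τ ∈ t, α τ ≠ 0) →
      ∃ y, Opp g t α x y)
    (hmult : ∀ i j, (∀ τ ∈ t, wv v i τ = wv v j τ) → i = j) : Lat (Lv t v) := by
  classical
  refine ⟨fun f hf => hf.1, ⟨fun _ => ⟨1, by norm_num⟩, 1, hone, fun i => by simp⟩, ?_, ?_⟩
  · intro i j hij
    refine hmult i j fun τ hτ => ?_
    let S : Submodule K (End K V) :=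
      { carrier := {σ | wv v i σ = wv v j σ}
        add_mem' := by
          intro a b ha hb
          have ha' : wv v i a = wv v j a := ha
          have hb' : wv v i b = wv v j b := hb
          show wv v i (a + b) = wv v j (a + b)
          simp only [wv, LinearMap.add_apply, map_add, Finsupp.add_apply] at ha' hb' ⊢
          rw [ha', hb']
        zero_mem' := by
          show wv v i 0 = wv v j 0
          simp [wv]
        smul_mem' := by
          intro c a ha
          have ha' : wv v i a = wv v j a := ha
          show wv v i (c • a) = wv v j (c • a)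
          simp only [wv, LinearMap.smul_apply, map_smul, Finsupp.smul_apply] at ha' ⊢
          rw [ha'] }
    have h1 : Submodule.span K ({1} ∪ {h | ∃ (α : End K V → K) (x y : End K V),
        Opp g t α x y ∧ x ≠ 0 ∧ h = x * y - y * x}) ≤ S := by
      rw [Submodule.span_le]
      rintro σ (hσ | ⟨α, x, y, P, hx0, rfl⟩)
      · rw [Set.mem_singleton_iff] at hσ
        subst hσ
        show wv v i 1 = wv v j 1
        simp [wv]
      · obtain ⟨h, π, R, hh, -⟩ := exists_rf v hv hmult P hx0
        have h2 := hij h R.mem
        show wv v i (x * y - y * x) = wv v j (x * y - y * x)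
        rw [wv, wv, hh, hh, h2]
        simp
    exact h1 (span_coroots C hone hirr hopp hτ)
  · intro A hA hcl
    obtain ⟨U, hUdef⟩ : ∃ U, U = Submodule.span K (v '' A) := ⟨_, rfl⟩
    have key : ∀ (α : End K V → K) (z : End K V), IsRoot g t α z → ∀ i ∈ A, z (v i) ∈ U := by
      intro α z hz i hi
      by_cases hz0 : z = 0
      · rw [hz0, LinearMap.zero_apply]
        exact U.zero_mem
      by_cases hα : ∃ τ ∈ t, α τ ≠ 0
      · obtain ⟨y, P⟩ := hopp α z hz hz0 hα
        obtain ⟨h, π, R, -, hw⟩ := exists_rf v hv hmult P hz0
        by_cases hzi : z (v i) = 0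
        · rw [hzi]
          exact U.zero_mem
        · obtain ⟨r, hr⟩ := hw i
          rw [← wl_of_ne v hv P hzi, hr, hUdef]
          exact Submodule.smul_mem _ r (Submodule.subset_span ⟨π i, hcl h π R i hi, rfl⟩)
      · push Not at hα
        have hzt : z ∈ t := C.cent z hz.mem fun τ hτ => by
          have h1 := hz.root τ hτ
          rw [hα τ hτ, zero_smul, sub_eq_zero] at h1
          exact h1.symm
        obtain ⟨c, hc⟩ := hv z hzt i
        rw [hc, hUdef]
        exact Submodule.smul_mem _ c (Submodule.subset_span ⟨i, hi, rfl⟩)
    have hU : ∀ a ∈ g, ∀ w ∈ U, a w ∈ U := by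
      intro a ha w hw
      have h1 := mem_span_roots C ha
      clear ha
      induction h1 using Submodule.span_induction with
      | mem z hz =>
        obtain ⟨α, hz⟩ := hz
        rw [hUdef] at hw
        induction hw using Submodule.span_induction with
        | mem u hu =>
          obtain ⟨i, hi, rfl⟩ := hu
          exact key α z hz i hi
        | zero =>
          rw [map_zero]
          exact U.zero_mem
        | add u u' _ _ h1 h2 =>
          rw [map_add]
          exact U.add_mem h1 h2
        | smul c u _ h1 =>
          rw [map_smul]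
          exact U.smul_mem c h1
      | zero =>
        rw [LinearMap.zero_apply]
        exact U.zero_mem
      | add z z' _ _ h1 h2 =>
        rw [LinearMap.add_apply]
        exact U.add_mem h1 h2
      | smul c z _ h1 =>
        rw [LinearMap.smul_apply]
        exact U.smul_mem c h1
    rcases hirr U hU with h1 | h1
    · exfalso
      obtain ⟨i, hi⟩ := hA
      have h2 : v i ∈ U := by
        rw [hUdef]
        exact Submodule.subset_span ⟨i, hi, rfl⟩
      rw [h1, Submodule.mem_bot] at h2
      exact v.ne_zero i h2
    · refine Set.eq_univ_of_forall fun i => ?_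
      have h2 : v i ∈ Submodule.span K (v '' A) := by
        rw [← hUdef, h1]
        exact Submodule.mem_top
      rw [Basis.mem_span_image, Basis.repr_self] at h2
      apply h2
      simp

end Pool.Agent.NumRank
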