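import Pool.Agent.NumRank.MultOne
import Pool.Agent.PrimePow.Comb3

/-!
# The lattice of the integral elements of the torus
-/

set_option autoImplicit false
set_option linter.unusedSectionVars false

namespace Pool.Agent.NumRank

open Module Pool.Agent.CoprimeSig Pool.Agent.Mod4
open Pool.Agent.PrimePow.CC (Rf Rt Lat)

variable {K V : Type*} [Field K] [CharZero K] [IsAlgClosed K] [AddCommGroup V] [Module K V]
  [FiniteDimensional K V] {g t : Submodule K (End K V)} {I : Type} [Fintype I]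

/-- the cocharacter lattice -/
def Lv (t : Submodule K (End K V)) (v : Basis I K V) : AddSubgroup (I → ℚ) where
  carrier := {f | (∀ i, ∃ z : ℤ, f i = z) ∧ ∃ x ∈ t, ∀ i, x (v i) = (f i : K) • v i}
  add_mem' := by
    rintro f g ⟨h1, x, hx, h2⟩ ⟨h3, y, hy, h4⟩
    refine ⟨fun A => ?_, x + y, t.add_mem hx hy, fun A => ?_⟩
    · obtain ⟨z, hz⟩ := h1 A
      obtain ⟨w, hw⟩ := h3 A
      exact ⟨z + w, by rw [Pi.add_apply, hz, hw, Int.cast_add]⟩
    · rw [LinearMap.add_apply, h2, h4, Pi.add_apply, Rat.cast_add, add_smul]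
  zero_mem' := ⟨fun A => ⟨0, by simp⟩, 0, t.zero_mem, fun A => by simp⟩
  neg_mem' := by
    rintro f ⟨h1, x, hx, h2⟩
    refine ⟨fun A => ?_, -x, t.neg_mem hx, fun A => ?_⟩
    · obtain ⟨z, hz⟩ := h1 A
      exact ⟨-z, by rw [Pi.neg_apply, hz, Int.cast_neg]⟩
    · rw [LinearMap.neg_apply, h2, Pi.neg_apply, Rat.cast_neg, neg_smul]

variable (v : Basis I K V) (hv : ∀ x ∈ t, ∀ i, ∃ c : K, x (v i) = c • v i)
include hv

/-- Weyl reflections -/
theorem exists_rf (hmult : ∀ i j, (∀ τ ∈ t, wv v i τ = wv v j τ) → i = j)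
    {α : End K V → K} {x y : End K V} (P : Opp g t α x y) (hx0 : x ≠ 0) :
    ∃ h π, Rf (Lv t v) h π ∧ (∀ i, (x * y - y * x) (v i) = (h i : K) • v i) ∧
      ∀ i, ∃ r : K, wl x y (v i) = r • v (π i) := by
  classical
  obtain ⟨q, hq1, hq2⟩ := opp_eig P v hv
  obtain ⟨k1, k2, -, k3⟩ := wl_mul_inv P
  have hne : ∀ i, wl x y (v i) ≠ 0 := by
    intro i h0
    apply v.ne_zero i
    have h1 := LinearMap.congr_fun k2 (v i)
    rw [Module.End.mul_apply, h0, map_zero, Module.End.one_apply] at h1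
    exact h1.symm
  have hwq : ∀ i, wv v i (x * y - y * x) = (q i : K) := by
    intro i
    exact smul_left_injective K (v.ne_zero i) ((wv_apply v hv P.mem i).symm.trans (hq2 i))
  have hact : ∀ i, ∀ τ ∈ t, τ (wl x y (v i)) = (wv v i τ - α τ * q i) • wl x y (v i) := by
    intro i τ hτ
    have h1 : τ * wl x y = wl x y * (τ - α τ • (x * y - y * x)) := by
      rw [← k3 τ hτ, ← mul_assoc, ← mul_assoc, k1, one_mul]
    have h2 := LinearMap.congr_fun h1 (v i)
    rw [Module.End.mul_apply, Module.End.mul_apply, LinearMap.sub_apply, LinearMap.smul_apply,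
      hq2, wv_apply v hv hτ, smul_smul, ← sub_smul, map_smul] at h2
    exact h2
  have hmu : ∀ i j, v.repr (wl x y (v i)) j ≠ 0 → ∀ τ ∈ t, wv v j τ = wv v i τ - α τ * q i := by
    intro i j hj τ hτ
    have h1 := wv_repr v hv hτ (wl x y (v i)) j
    rw [hact i τ hτ, map_smul, Finsupp.smul_apply, smul_eq_mul] at h1
    exact (mul_right_cancel₀ hj h1).symm
  have hex : ∀ i, ∃ j, (∃ r : K, wl x y (v i) = r • v j) ∧
      ∀ τ ∈ t, wv v j τ = wv v i τ - α τ * q i := by
    intro i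
    obtain ⟨j, hj⟩ : ∃ j, v.repr (wl x y (v i)) j ≠ 0 := by
      by_contra hcon
      push Not at hcon
      apply hne i
      apply v.repr.injective
      ext j
      rw [hcon, map_zero, Finsupp.zero_apply]
    refine ⟨j, ⟨v.repr (wl x y (v i)) j, ?_⟩, hmu i j hj⟩
    apply v.repr.injective
    ext k
    rw [map_smul, Basis.repr_self, Finsupp.smul_apply, smul_eq_mul]
    by_cases hk : k = j
    · rw [hk, Finsupp.single_eq_same, mul_one]
    · rw [Finsupp.single_eq_of_ne hk, mul_zero]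
      by_contra hk0
      exact hk (hmult k j fun τ hτ => by rw [hmu i k hk0 τ hτ, hmu i j hj τ hτ])
  choose π0 hr0 hπ0 using hex
  have hqneg : ∀ i, (q (π0 i) : K) = -(q i : K) := by
    intro i
    have h1 := hπ0 i _ P.mem
    rw [hwq, hwq, opp_two P hx0] at h1
    rw [h1]
    ring
  have hinv : ∀ i, π0 (π0 i) = i := by
    intro i
    apply hmult
    intro τ hτ
    rw [hπ0 _ τ hτ, hπ0 _ τ hτ, hqneg]
    ring
  refine ⟨fun i => (q i : ℚ), ⟨π0, π0, hinv, hinv⟩, ⟨⟨fun i => ⟨q i, rfl⟩, _, P.mem, fun i => ?_⟩,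
    ?_, ?_, ?_, ?_⟩, fun i => ?_, hr0⟩
  · rw [hq2, Rat.cast_intCast]
  · intro h0
    have h1 : x * y - y * x = 0 := by
      refine v.ext fun A => ?_
      have h2 := congrFun h0 A
      have h3 : q A = 0 := by
        have h4 : (q A : ℚ) = 0 := h2
        exact_mod_cast h4
      rw [hq2, h3, Int.cast_zero, zero_smul, LinearMap.zero_apply]
    apply hx0
    rw [← P.xyx, sub_eq_zero.1 h1, mul_assoc, P.xx, mul_zero]
  · intro i
    rcases hq1 i with h | h | h
    · left
      simp [h]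
    · right; left
      simp [h]
    · right; right
      simp [h]
  · rintro f ⟨hf, τ, hτ, hτf⟩
    obtain ⟨a, ha⟩ : ∃ a : ℤ, α τ = a := by
      obtain ⟨i, j, hij⟩ := root_diff P.rx hx0 v hv
      obtain ⟨z₁, hz₁⟩ := hf i
      obtain ⟨z₂, hz₂⟩ := hf j
      refine ⟨z₁ - z₂, ?_⟩
      rw [hij τ hτ _ _ (hτf i) (hτf j), hz₁, hz₂]
      push_cast
      ring
    refine ⟨a, fun i => ?_⟩
    have hwf : ∀ i, wv v i τ = (f i : K) := fun i =>
      smul_left_injective K (v.ne_zero i) ((wv_apply v hv hτ i).symm.trans (hτf i))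
    have h1 := hπ0 i τ hτ
    rw [hwf, hwf, ha] at h1
    have h2 : ((f (π0 i) : ℚ) : K) = ((f i - a * q i : ℚ) : K) := by
      rw [h1]
      push_cast
      ring
    exact_mod_cast h2
  · intro i
    have h2 : ((q (π0 i) : ℚ) : K) = ((-(q i : ℚ) : ℚ) : K) := by
      push_cast
      exact hqneg i
    exact_mod_cast h2
  · rw [hq2, Rat.cast_intCast]

end Pool.Agent.NumRank
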