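import Pool.Agent.NumRank.OneNorm

/-!
# Roots as differences of letters
-/

set_option autoImplicit false
set_option linter.unusedSectionVars false

namespace Pool.Agent.NumRank

open Pool.Agent.PrimePow.CC

variable {Ω : Type*} [Fintype Ω] {L : AddSubgroup (Ω → ℚ)} {e f h k : Ω → ℚ}

private theorem pair_one (D : Dt L e) (hM : ∀ h k, Rt L h → Rt L k → h ⬝ᵥ h = k ⬝ᵥ k)
    (hΦ : ∀ γ γ', Rt L γ → Rt L γ' → cf e γ = 1 → cf e γ' = 1 → cf γ γ' ≠ 0)
    (H : Rt L h) (K : Rt L k) (hh : cf e h = 1) (hk : cf e k = 1) (hne : h ≠ k) :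
    cf h k = 1 := by
  rcases cf_cases hM H K with h1 | h1 | h1 | h1 | h1
  · exact absurd h1 hne
  · rw [h1, cf_neg_right, hk] at hh
    norm_num at hh
  · have h2 := add_root D.toLat H K h1
    have h3 := cf_add_right hM H K h2 e
    rw [hh, hk] at h3
    rcases D.eps h2 with h4 | h4 | h4 <;> rw [h4] at h3 <;> norm_num at h3
  · exact absurd h1 (hΦ h k H K hh hk)
  · exact h1

theorem exists_letters (D : Dt L e) (hM : ∀ h k, Rt L h → Rt L k → h ⬝ᵥ h = k ⬝ᵥ k)
    (hΦ : ∀ γ γ', Rt L γ → Rt L γ' → cf e γ = 1 → cf e γ' = 1 → cf γ γ' ≠ 0) :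
    ∃ (m : ℕ) (l : Fin (m + 1) → Ω → ℚ), l 0 = e ∧ (∀ x, l x ∈ L) ∧
      (∀ x ω, l x ω = 0 ∨ l x ω = 1) ∧
      (∀ h, Rt L h → ∃ x y, x ≠ y ∧ h = l x - l y) ∧
      (∀ x y, x ≠ y → Rt L (l x - l y)) ∧
      ∀ x y z, x ≠ y → cf (l z) (l x - l y) = (if z = x then 1 else 0) - if z = y then 1 else 0 := by
  classical
  have hfin : {h | Rt L h ∧ cf e h = 1}.Finite := (Rt.fin L).subset fun h H => H.1
  obtain ⟨m, κ, hinj, hκ, hsurj⟩ : ∃ (m : ℕ) (κ : Fin m → Ω → ℚ), Function.Injective κ ∧
      (∀ i, Rt L (κ i) ∧ cf e (κ i) = 1) ∧ ∀ k, Rt L k → cf e k = 1 → ∃ i, κ i = k := by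
    refine ⟨hfin.toFinset.card, fun i => (hfin.toFinset.equivFin.symm i : Ω → ℚ), ?_, ?_, ?_⟩
    · intro i j hij
      exact hfin.toFinset.equivFin.symm.injective (Subtype.ext hij)
    · intro i
      exact hfin.mem_toFinset.1 (hfin.toFinset.equivFin.symm i).2
    · intro k K hk
      refine ⟨hfin.toFinset.equivFin ⟨k, hfin.mem_toFinset.2 ⟨K, hk⟩⟩, ?_⟩
      simp
  have hne : ∀ i j, i ≠ j → κ i ≠ κ j := fun i j hij h0 => hij (hinj h0)
  have hone : ∀ i j, i ≠ j → cf (κ i) (κ j) = 1 := fun i j hij =>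
    pair_one D hM hΦ (hκ i).1 (hκ j).1 (hκ i).2 (hκ j).2 (hne i j hij)
  have hroot : ∀ i j, i ≠ j → Rt L (κ i - κ j) := fun i j hij =>
    sub_root D.toLat (hκ i).1 (hκ j).1 (hone i j hij)
  let l : Fin (m + 1) → Ω → ℚ := Fin.cons e fun i => e - κ i
  have l0 : l 0 = e := rfl
  have ls : ∀ i : Fin m, l i.succ = e - κ i := fun i => rfl
  have hP : ∀ (z : Fin (m + 1)) (i : Fin m),
      cf (l z) (κ i) = (if z = 0 then 1 else 0) - if z = i.succ then 1 else 0 := by
    intro z i
    induction z using Fin.cases with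
    | zero =>
      rw [l0, (hκ i).2, if_pos rfl, if_neg (Fin.succ_ne_zero i).symm]
      norm_num
    | succ j =>
      rw [ls, cf_sub, (hκ i).2, if_neg (Fin.succ_ne_zero j)]
      by_cases hij : j = i
      · subst hij
        rw [if_pos rfl, Rt_self (hκ j).1]
        norm_num
      · rw [if_neg fun h0 => hij (Fin.succ_injective m h0), hone j i hij]
        norm_num
  refine ⟨m, l, l0, ?_, ?_, ?_, ?_, ?_⟩
  · intro x
    induction x using Fin.cases with
    | zero => exact D.he
    | succ i => exact L.sub_mem D.he (Rt_mem (hκ i).1)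
  · intro x ω
    induction x using Fin.cases with
    | zero => exact D.hval ω
    | succ i =>
      rw [ls, Pi.sub_apply]
      rcases D.hval ω with h1 | h1
      · rcases D.val0 (hκ i).1 (hκ i).2 h1 with h2 | h2 <;> rw [h1, h2] <;> norm_num
      · rcases D.val1 (hκ i).1 (hκ i).2 h1 with h2 | h2 <;> rw [h1, h2] <;> norm_num
  · intro h H
    rcases D.eps H with h1 | h1 | h1
    · obtain ⟨i, hi⟩ := hsurj (-h) H.neg (by rw [cf_neg_right, h1, neg_neg])
      refine ⟨i.succ, 0, Fin.succ_ne_zero i, ?_⟩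
      rw [ls, l0, hi]
      abel
    · obtain ⟨k, K, hke, hkh⟩ : ∃ k, Rt L k ∧ cf e k = 1 ∧ k ⬝ᵥ h ≠ 0 := by
        obtain ⟨k, K, hke, hkh⟩ := D.link0 h H
        have h2 := (cf_ne_zero K e).2 hke
        rcases D.eps K with h3 | h3 | h3
        · refine ⟨-k, K.neg, by rw [cf_neg_right, h3, neg_neg], ?_⟩
          rw [neg_dotProduct]
          exact neg_ne_zero.2 hkh
        · exact absurd h3 h2
        · exact ⟨k, K, h3, hkh⟩
      have hh0 : h ≠ 0 := Rt_ne H
      rcases cf_cases hM H K with h2 | h2 | h2 | h2 | h2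
      · rw [h2, hke] at h1
        norm_num at h1
      · rw [h2, cf_neg_right, hke] at h1
        norm_num at h1
      · have R := add_root D.toLat H K h2
        have h3 := cf_add_right hM H K R e
        rw [h1, hke, zero_add] at h3
        obtain ⟨i, hi⟩ := hsurj _ R h3
        obtain ⟨j, hj⟩ := hsurj _ K hke
        refine ⟨j.succ, i.succ, ?_, ?_⟩
        · intro h4
          have h5 : κ j = κ i := congrArg κ (Fin.succ_injective m h4)
          rw [hi, hj] at h5
          exact hh0 (by simpa using h5)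
        · rw [ls, ls, hi, hj]
          abel
      · exact absurd h2 ((cf_ne_zero K h).2 hkh)
      · rw [cf_symm hM H K] at h2
        have R := sub_root D.toLat K H h2
        have h3 := cf_sub_right hM K H R e
        rw [h1, hke, sub_zero] at h3
        obtain ⟨i, hi⟩ := hsurj _ R h3
        obtain ⟨j, hj⟩ := hsurj _ K hke
        refine ⟨i.succ, j.succ, ?_, ?_⟩
        · intro h4
          have h5 : κ i = κ j := congrArg κ (Fin.succ_injective m h4)
          rw [hi, hj] at h5
          exact hh0 (by simpa using h5)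
        · rw [ls, ls, hi, hj]
          abel
    · obtain ⟨i, hi⟩ := hsurj h H h1
      refine ⟨0, i.succ, (Fin.succ_ne_zero i).symm, ?_⟩
      rw [ls, l0, hi]
      abel
  · intro x y hxy
    induction x using Fin.cases with
    | zero =>
      induction y using Fin.cases with
      | zero => exact absurd rfl hxy
      | succ j =>
        rw [l0, ls, sub_sub_cancel]
        exact (hκ j).1
    | succ i =>
      induction y using Fin.cases with
      | zero =>
        rw [l0, ls, sub_sub_cancel_left]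
        exact (hκ i).1.neg
      | succ j =>
        rw [ls, ls, sub_sub_sub_cancel_left]
        exact hroot j i fun h0 => hxy (by rw [h0])
  · intro x y z hxy
    induction x using Fin.cases with
    | zero =>
      induction y using Fin.cases with
      | zero => exact absurd rfl hxy
      | succ j =>
        rw [l0, ls, sub_sub_cancel]
        exact hP z j
    | succ i =>
      induction y using Fin.cases with
      | zero =>
        rw [l0, ls, sub_sub_cancel_left, cf_neg_right, hP]
        ring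
      | succ j =>
        have hij : j ≠ i := fun h0 => hxy (by rw [h0])
        rw [ls i, ls j, sub_sub_sub_cancel_left,
          cf_sub_right hM (hκ j).1 (hκ i).1 (hroot j i hij), hP, hP]
        ring

end Pool.Agent.NumRank
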