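import Pool.Agent.NumRank.Base2

/-!
# Spreading linear identities; roots of equal norm
-/

set_option autoImplicit false
set_option linter.unusedSectionVars false

namespace Pool.Agent.NumRank

open Pool.Agent.PrimePow.CC

variable {Ω : Type*} [Fintype Ω] {L : AddSubgroup (Ω → ℚ)} {e f h k : Ω → ℚ}

/-- a linear identity which holds for a set of roots, stable under the reflections in the other
roots, holds for all roots -/
theorem Dt.spread (D : Dt L e) (S : (Ω → ℚ) → Prop) (hS1 : ∃ h, Rt L h ∧ S h)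
    (hS : ∀ f g, Rt L f → Rt L g → ¬ S f → S g → S (g - cf g f • f))
    (φ : (Ω → ℚ) →ₗ[ℚ] ℚ) (hφ : ∀ h, Rt L h → S h → φ h = 0) (H : Rt L h) : φ h = 0 := by
  have key : ∀ f, Rt L f → ¬ S f → ∃ g, Rt L g ∧ S g ∧ g ⬝ᵥ f ≠ 0 := by
    intro f F hf
    by_contra hcon
    push Not at hcon
    refine D.irr (fun x => ¬ S x ∧ ∀ g, Rt L g → S g → g ⬝ᵥ x = 0) ?_ ⟨f, F, hf, hcon⟩ ?_
    · rintro x X ⟨hx, hxg⟩ y Y hy
      by_cases hSy : S y
      · exact hxg y Y hSy
      · have h1 : ∃ g, Rt L g ∧ S g ∧ g ⬝ᵥ y ≠ 0 := by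
          by_contra hc
          push Not at hc
          exact hy ⟨hSy, fun g Q hg => hc g Q hg⟩
        obtain ⟨g, Q, hg, hgy⟩ := h1
        have h2 := hxg _ (Rt_refl Y Q D.toLat) (hS y g Y Q hSy hg)
        rw [sub_dotProduct, smul_dotProduct, hxg g Q hg, zero_sub, neg_eq_zero,
          smul_eq_mul] at h2
        refine (mul_eq_zero.1 h2).resolve_left ((cf_ne_zero Y g).2 ?_)
        rw [dotProduct_comm]
        exact hgy
    · obtain ⟨g, Q, hg⟩ := hS1
      exact ⟨g, Q, fun h => h.1 hg⟩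
  by_cases hh : S h
  · exact hφ h H hh
  · obtain ⟨g, Q, hg, hgh⟩ := key h H hh
    have h1 := hφ _ (Rt_refl H Q D.toLat) (hS h g H Q hh hg)
    rw [map_sub, map_smul, hφ g Q hg, zero_sub, neg_eq_zero, smul_eq_mul] at h1
    refine (mul_eq_zero.1 h1).resolve_left ((cf_ne_zero H g).2 ?_)
    rw [dotProduct_comm]
    exact hgh

section

variable (hM : ∀ h k, Rt L h → Rt L k → h ⬝ᵥ h = k ⬝ᵥ k)
include hM

theorem cf_symm (H : Rt L h) (K : Rt L k) : cf h k = cf k h := by
  rw [cf, cf, hM h k H K, dotProduct_comm]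

theorem cf_add_right (H : Rt L h) (K : Rt L k) (Q : Rt L (h + k)) (f : Ω → ℚ) :
    cf f (h + k) = cf f h + cf f k := by
  rw [cf, cf, cf, add_dotProduct, hM _ h Q H, hM k h K H]
  ring

theorem cf_sub_right (H : Rt L h) (K : Rt L k) (Q : Rt L (h - k)) (f : Ω → ℚ) :
    cf f (h - k) = cf f h - cf f k := by
  rw [cf, cf, cf, sub_dotProduct, hM _ h Q H, hM k h K H]
  ring

theorem cf_two (H : Rt L h) (K : Rt L k) (h2 : cf h k = 2) : h = k := by
  have h1 := cf_mul (f := h) (Rt_sq_ne K)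
  rw [h2] at h1
  have h3 : (h - k) ⬝ᵥ (h - k) = 0 := by
    rw [sub_dotProduct, dotProduct_sub, dotProduct_sub, hM h k H K, dotProduct_comm h k]
    linarith
  by_contra hne
  exact (dot_pos (sub_ne_zero.2 hne)).ne' h3

theorem cf_neg_two (H : Rt L h) (K : Rt L k) (h2 : cf h k = -2) : h = -k := by
  refine cf_two hM H K.neg ?_
  rw [cf_neg_right, h2, neg_neg]

theorem cf_cases (H : Rt L h) (K : Rt L k) :
    h = k ∨ h = -k ∨ cf h k = -1 ∨ cf h k = 0 ∨ cf h k = 1 := by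
  rcases Rt_cf K H with h1 | h1 | h1 | h1 | h1
  · exact Or.inr (Or.inl (cf_neg_two hM H K h1))
  · exact Or.inr (Or.inr (Or.inl h1))
  · exact Or.inr (Or.inr (Or.inr (Or.inl h1)))
  · exact Or.inr (Or.inr (Or.inr (Or.inr h1)))
  · exact Or.inl (cf_two hM H K h1)

omit hM in
theorem sub_root (hL : Lat L) (H : Rt L h) (K : Rt L k) (h1 : cf h k = 1) : Rt L (h - k) := by
  have h2 := Rt_refl K H hL
  rwa [h1, one_smul] at h2

omit hM in
theorem add_root (hL : Lat L) (H : Rt L h) (K : Rt L k) (h1 : cf h k = -1) : Rt L (h + k) := by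
  have h2 := Rt_refl K H hL
  rwa [h1, neg_smul, one_smul, sub_neg_eq_add] at h2

end

end Pool.Agent.NumRank
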