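import Pool.Agent.NumRank.TwoNorms

/-!
# A system of type `C₂` forces balance
-/

set_option autoImplicit false
set_option linter.unusedSectionVars false

namespace Pool.Agent.NumRank

open Pool.Agent.PrimePow.CC

variable {Ω : Type*} [Fintype Ω] {L : AddSubgroup (Ω → ℚ)} {e f h k : Ω → ℚ}

/-! ### Symmetries -/

private theorem te_swap {k k' : Ω → ℚ} (T : CTwo L k k') : CTwo L k' k where
  rk := T.rk'
  rk' := T.rk
  rs := by
    rw [add_comm]
    exact T.rs
  rd := by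
    rw [← neg_sub]
    exact T.rd.neg
  orth := by
    rw [dotProduct_comm]
    exact T.orth
  eq := T.eq.symm

private theorem te_neg {k k' : Ω → ℚ} (T : CTwo L k k') : CTwo L k (-k') where
  rk := T.rk
  rk' := T.rk'.neg
  rs := by
    rw [← sub_eq_add_neg]
    exact T.rd
  rd := by
    rw [sub_neg_eq_add]
    exact T.rs
  orth := by
    rw [dotProduct_neg, T.orth, neg_zero]
  eq := by
    rw [T.eq, neg_dotProduct_neg]

/-! ### Scalar products -/

section Basic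

variable {k' : Ω → ℚ} (T : CTwo L k k')
include T

private theorem te_dot (f : Ω → ℚ) : 2 * (k ⬝ᵥ f) = cf f k * (k ⬝ᵥ k) :=
  (cf_mul (Rt_sq_ne T.rk)).symm

private theorem te_dot' (f : Ω → ℚ) : 2 * (k' ⬝ᵥ f) = cf f k' * (k ⬝ᵥ k) := by
  rw [T.eq]
  exact (cf_mul (Rt_sq_ne T.rk')).symm

private theorem te_sq_sum : (k + k') ⬝ᵥ (k + k') = 2 * (k ⬝ᵥ k) := by
  rw [add_dotProduct, dotProduct_add, dotProduct_add, T.orth, dotProduct_comm k' k, T.orth,
    ← T.eq]
  ring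

private theorem te_sq_diff : (k - k') ⬝ᵥ (k - k') = 2 * (k ⬝ᵥ k) := by
  rw [sub_dotProduct, dotProduct_sub, dotProduct_sub, T.orth, dotProduct_comm k' k, T.orth,
    ← T.eq]
  ring

private theorem te_cf_sum (f : Ω → ℚ) : cf f (k + k') = (cf f k + cf f k') / 2 := by
  have h1 := te_dot T f
  have h2 := te_dot' T f
  have hM := Rt_sq_ne T.rk
  rw [cf, te_sq_sum T, add_dotProduct]
  field_simp
  linarith

private theorem te_cf_diff (f : Ω → ℚ) : cf f (k - k') = (cf f k - cf f k') / 2 := by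
  have h1 := te_dot T f
  have h2 := te_dot' T f
  have hM := Rt_sq_ne T.rk
  rw [cf, te_sq_diff T, sub_dotProduct]
  field_simp
  linarith

private theorem te_kk : cf k' k = 0 := by
  rw [cf, T.orth, mul_zero, zero_div]

private theorem te_kk' : cf k k' = 0 := by
  rw [cf, dotProduct_comm, T.orth, mul_zero, zero_div]

private theorem te_norm (f : Ω → ℚ) :
    (f - ((cf f k / 2) • k + (cf f k' / 2) • k')) ⬝ᵥ
      (f - ((cf f k / 2) • k + (cf f k' / 2) • k')) =
      f ⬝ᵥ f - (cf f k ^ 2 + cf f k' ^ 2) / 4 * (k ⬝ᵥ k) := by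
  have h1 := te_dot T f
  have h2 := te_dot' T f
  have h3 := T.orth
  have h4 : k' ⬝ᵥ k = 0 := by rw [dotProduct_comm, h3]
  have h5 : f ⬝ᵥ k = k ⬝ᵥ f := dotProduct_comm _ _
  have h6 : f ⬝ᵥ k' = k' ⬝ᵥ f := dotProduct_comm _ _
  simp only [sub_dotProduct, dotProduct_sub, add_dotProduct, dotProduct_add, smul_dotProduct,
    dotProduct_smul, smul_eq_mul, h3, h4, h5, h6, ← T.eq]
  linear_combination (-(cf f k) / 2) * h1 + (-(cf f k') / 2) * h2

private theorem te_le (f : Ω → ℚ) :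
    (cf f k ^ 2 + cf f k' ^ 2) / 4 * (k ⬝ᵥ k) ≤ f ⬝ᵥ f := by
  have h1 := te_norm T f
  by_cases h0 : f - ((cf f k / 2) • k + (cf f k' / 2) • k') = 0
  · rw [h0, zero_dotProduct] at h1
    linarith
  · have h2 := dot_pos h0
    linarith

private theorem te_span (f : Ω → ℚ)
    (h : f ⬝ᵥ f = (cf f k ^ 2 + cf f k' ^ 2) / 4 * (k ⬝ᵥ k)) :
    ∃ x y : ℚ, f = x • k + y • k' := by
  have h1 := te_norm T f
  refine ⟨cf f k / 2, cf f k' / 2, ?_⟩
  by_contra h0
  have h2 := dot_pos (sub_ne_zero.2 h0)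
  linarith

end Basic

/-! ### Classification -/

/-- type D -/
private def TD (k k' f : Ω → ℚ) : Prop :=
  (cf f k = 1 ∨ cf f k = -1) ∧ (cf f k' = 1 ∨ cf f k' = -1) ∧ f ⬝ᵥ f = k ⬝ᵥ k

/-- type E -/
private def TE (k k' f : Ω → ℚ) : Prop :=
  ((cf f k = 2 ∨ cf f k = -2) ∧ cf f k' = 0 ∨ cf f k = 0 ∧ (cf f k' = 2 ∨ cf f k' = -2)) ∧
    f ⬝ᵥ f = 2 * (k ⬝ᵥ k)

private def Sm (u : ℚ) : Prop := u = -2 ∨ u = -1 ∨ u = 0 ∨ u = 1 ∨ u = 2

private theorem te_parity {a b : ℚ} (ha : Sm a) (hb : Sm b) (hs : Sm ((a + b) / 2)) :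
    (a = 0 ∧ b = 0) ∨ ((a = 1 ∨ a = -1) ∧ (b = 1 ∨ b = -1)) ∨
      ((a = 2 ∨ a = -2) ∧ b = 0) ∨ (a = 0 ∧ (b = 2 ∨ b = -2)) ∨
      ((a = 2 ∨ a = -2) ∧ (b = 2 ∨ b = -2)) := by
  unfold Sm at ha hb hs
  rcases ha with rfl | rfl | rfl | rfl | rfl <;> rcases hb with rfl | rfl | rfl | rfl | rfl <;>
    first
      | (norm_num; done)
      | (exfalso; norm_num at hs; done)

private theorem te_numD {q M a b u w w' : ℚ} (hq : 0 < q) (hM : 0 < M) (ha : a = 1 ∨ a = -1)
    (hb : b = 1 ∨ b = -1) (hu : u * q = a * M) (hw : w * q = (a + b) * M)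
    (hw' : w' * q = (a - b) * M) (su : Sm u) (sw : Sm w) (sw' : Sm w') : q = M := by
  have b1 : -2 ≤ w ∧ w ≤ 2 := by
    unfold Sm at sw
    rcases sw with rfl | rfl | rfl | rfl | rfl <;> norm_num
  have b2 : -2 ≤ w' ∧ w' ≤ 2 := by
    unfold Sm at sw'
    rcases sw' with rfl | rfl | rfl | rfl | rfl <;> norm_num
  have c1 : -(2 * q) ≤ w * q ∧ w * q ≤ 2 * q := ⟨by nlinarith, by nlinarith⟩
  have c2 : -(2 * q) ≤ w' * q ∧ w' * q ≤ 2 * q := ⟨by nlinarith, by nlinarith⟩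
  obtain ⟨c1, c1'⟩ := c1
  obtain ⟨c2, c2'⟩ := c2
  rw [hw] at c1 c1'
  rw [hw'] at c2 c2'
  unfold Sm at su
  rcases ha with rfl | rfl <;> rcases hb with rfl | rfl <;>
    rcases su with rfl | rfl | rfl | rfl | rfl <;> linarith

private theorem te_numE {q M a u : ℚ} (hq : 0 < q) (hM : 0 < M) (ha : a = 2 ∨ a = -2)
    (hu : u * q = a * M) (su : Sm u) : q = M ∨ q = 2 * M := by
  unfold Sm at su
  rcases ha with rfl | rfl <;> rcases su with rfl | rfl | rfl | rfl | rfl <;>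
    first
      | (exfalso; linarith)
      | (left; linarith)
      | (right; linarith)

private theorem te_class {k' : Ω → ℚ} (T : CTwo L k k') (F : Rt L f) :
    (cf f k = 0 ∧ cf f k' = 0) ∨ (∃ x y : ℚ, f = x • k + y • k') ∨ TD k k' f ∨ TE k k' f := by
  have hM : 0 < k ⬝ᵥ k := Rt_sq T.rk
  have hq : 0 < f ⬝ᵥ f := Rt_sq F
  have sa : Sm (cf f k) := Rt_cf T.rk F
  have sb : Sm (cf f k') := Rt_cf T.rk' F
  have ss : Sm ((cf f k + cf f k') / 2) := by
    rw [← te_cf_sum T]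
    exact Rt_cf T.rs F
  have su : Sm (cf k f) := Rt_cf F T.rk
  have su' : Sm (cf k' f) := Rt_cf F T.rk'
  have sw : Sm (cf (k + k') f) := Rt_cf F T.rs
  have sw' : Sm (cf (k - k') f) := Rt_cf F T.rd
  have eu : cf k f * (f ⬝ᵥ f) = cf f k * (k ⬝ᵥ k) := by
    rw [cf_mul (Rt_sq_ne F), ← te_dot T, dotProduct_comm]
  have eu' : cf k' f * (f ⬝ᵥ f) = cf f k' * (k ⬝ᵥ k) := by
    rw [cf_mul (Rt_sq_ne F), ← te_dot' T, dotProduct_comm]
  have ew : cf (k + k') f * (f ⬝ᵥ f) = (cf f k + cf f k') * (k ⬝ᵥ k) := by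
    rw [cf_add]
    linarith
  have ew' : cf (k - k') f * (f ⬝ᵥ f) = (cf f k - cf f k') * (k ⬝ᵥ k) := by
    rw [cf_sub]
    linarith
  have hle := te_le T f
  have hsp := te_span T f
  rcases te_parity sa sb ss with ⟨h1, h2⟩ | ⟨h1, h2⟩ | ⟨h1, h2⟩ | ⟨h1, h2⟩ | ⟨h1, h2⟩
  · exact Or.inl ⟨h1, h2⟩
  · exact Or.inr (Or.inr (Or.inl ⟨h1, h2, te_numD hq hM h1 h2 eu ew ew' su sw sw'⟩))
  · rcases te_numE hq hM h1 eu su with h3 | h3
    · refine Or.inr (Or.inl (hsp ?_))
      rcases h1 with h1 | h1 <;> rw [h1, h2, h3] <;> ring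
    · exact Or.inr (Or.inr (Or.inr ⟨Or.inl ⟨h1, h2⟩, h3⟩))
  · rcases te_numE hq hM h2 eu' su' with h3 | h3
    · refine Or.inr (Or.inl (hsp ?_))
      rcases h2 with h2 | h2 <;> rw [h1, h2, h3] <;> ring
    · exact Or.inr (Or.inr (Or.inr ⟨Or.inr ⟨h1, h2⟩, h3⟩))
  · have h4 : 2 * (k ⬝ᵥ k) ≤ f ⬝ᵥ f := by
      refine le_trans (le_of_eq ?_) hle
      rcases h1 with h1 | h1 <;> rcases h2 with h2 | h2 <;> rw [h1, h2] <;> ring
    refine Or.inr (Or.inl (hsp ?_))
    rcases te_numE hq hM h1 eu su with h3 | h3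
    · exfalso
      linarith
    · rcases h1 with h1 | h1 <;> rcases h2 with h2 | h2 <;> rw [h1, h2, h3] <;> ring

/-! ### Values of the roots of type E -/

private theorem te_pt {k' : Ω → ℚ} (T : CTwo L k k') {ω : Ω} (hω : k ω = 1) : k' ω = 0 := by
  have h1 := Rt_val T.rs ω
  have h2 := Rt_val T.rd ω
  rw [Pi.add_apply, hω] at h1
  rw [Pi.sub_apply, hω] at h2
  rcases Rt_val T.rk' ω with h3 | h3 | h3
  · rw [h3] at h2
    norm_num at h2
  · exact h3
  · rw [h3] at h1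
    norm_num at h1

private theorem te_two {g : Ω → ℚ} (K : Rt L k) (G : Rt L g) (h2 : cf g k = 2) {ω : Ω}
    (hω : k ω = 1) : g ω = 1 := by
  obtain ⟨π, hπ, -⟩ := Rt_move K
  have h1 := hπ g (Rt_mem G) ω
  rw [h2, hω] at h1
  rcases Rt_val G ω with h3 | h3 | h3 <;> rcases Rt_val G (π ω) with h4 | h4 | h4 <;>
    rw [h3, h4] at h1 <;> first | exact h3 | (exfalso; norm_num at h1)

private theorem te_zero {k' g : Ω → ℚ} (T : CTwo L k k') (G : Rt L g) (h0 : cf g k = 0)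
    (h2 : cf g k' = 2) {ω : Ω} (hω : k ω = 1) : g ω = 0 := by
  obtain ⟨ρ, hρ, -⟩ := Rt_move T.rd
  have h1 := te_pt T hω
  have h3 : (k - k') ω = 1 := by rw [Pi.sub_apply, hω, h1, sub_zero]
  have h4 := hρ k' (Rt_mem T.rk') ω
  have h5 := hρ g (Rt_mem G) ω
  rw [te_cf_diff T, te_kk T, Rt_self T.rk', h1, h3] at h4
  rw [te_cf_diff T, h0, h2, h3] at h5
  have h6 : k' (ρ ω) = 1 := by
    rw [h4]
    norm_num
  have h7 := te_two T.rk' G h2 h6
  rw [h7] at h5
  linarith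

private theorem te_val {k' g : Ω → ℚ} (T : CTwo L k k') (G : Rt L g) (hE : TE k k' g) {ω : Ω}
    (hω : k ω = 1) : g ω = cf g k / 2 := by
  rcases hE with ⟨⟨h1 | h1, h2⟩ | ⟨h1, h2 | h2⟩, -⟩
  · rw [h1, te_two T.rk G h1 hω]
    norm_num
  · have h3 := te_two T.rk G.neg (by rw [cf_neg, h1]; norm_num) hω
    rw [Pi.neg_apply] at h3
    rw [h1]
    linarith
  · rw [h1, te_zero T G h1 h2 hω]
    norm_num
  · have h3 := te_zero T G.neg (by rw [cf_neg, h1]; norm_num) (by rw [cf_neg, h2]; norm_num) hω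
    rw [Pi.neg_apply] at h3
    rw [h1]
    linarith

/-! ### The types D and E exclude each other -/

private theorem te_excl1 (hL : Lat L) {k' g : Ω → ℚ} (T : CTwo L k k') (F : Rt L f) (G : Rt L g)
    (hf : f ⬝ᵥ f = k ⬝ᵥ k) (hfa : cf f k = 1) (hfb : cf f k' = 1)
    (hg : g ⬝ᵥ g = 2 * (k ⬝ᵥ k)) (hga : cf g k = 2) (hgb : cf g k' = 0) : False := by
  have hM : 0 < k ⬝ᵥ k := Rt_sq T.rk
  obtain ⟨ω, hω⟩ := Rt_one T.rk
  have hgω := te_two T.rk G hga hω
  -- a root `u` of norm `M` with `cf g u = c`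
  have key : ∀ u : Ω → ℚ, Rt L u → ∀ c : ℚ, cf g u = c → 2 - c * cf u k = 0 →
      (-(c * cf u k') = 2 ∨ -(c * cf u k') = -2) → c = 2 ∨ c = -2 → False := by
    intro u U c hc h1 h2 h3
    have R := Rt_refl U G hL
    rw [hc] at R
    have hE : TE k k' (g - c • u) := by
      refine ⟨Or.inr ⟨?_, ?_⟩, ?_⟩
      · rw [cf_sub, cf_smul, hga]
        exact h1
      · rw [cf_sub, cf_smul, hgb, zero_sub]
        exact h2
      · have h4 := Rt_refl_sq U G hL
        rw [hc] at h4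
        rw [h4, hg]
    have h4 := te_val T R hE hω
    rw [cf_sub, cf_smul, hga, h1, Pi.sub_apply, Pi.smul_apply, smul_eq_mul, hgω] at h4
    rcases Rt_val U ω with h5 | h5 | h5 <;> rcases h3 with h3 | h3 <;> rw [h5, h3] at h4 <;>
      norm_num at h4
  have e1 : cf g f * (f ⬝ᵥ f) = cf f g * (g ⬝ᵥ g) := by
    rw [cf_mul (Rt_sq_ne F), cf_mul (Rt_sq_ne G), dotProduct_comm]
  rw [hf, hg] at e1
  have e2 : cf g f = 2 * cf f g := by
    have h1 : (cf g f - 2 * cf f g) * (k ⬝ᵥ k) = 0 := by linarith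
    rcases mul_eq_zero.1 h1 with h2 | h2
    · linarith
    · exact absurd h2 hM.ne'
  rcases Rt_cf F G with h1 | h1 | h1 | h1 | h1
  · -- `g + 2 f` has the value four
    have R := Rt_refl F G hL
    have h2 := Rt_cf T.rk R
    rw [h1, cf_sub, cf_smul, hga, hfa] at h2
    norm_num at h2
  · have h2 := Rt_cf G F
    rw [h1] at e2
    rcases h2 with h2 | h2 | h2 | h2 | h2 <;> rw [h2] at e2 <;> norm_num at e2
  · -- `f - k`
    have R := Rt_refl T.rk F hL
    rw [hfa, one_smul] at R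
    have h2 : cf g (f - k) = -2 := by
      have hn : (f - k) ⬝ᵥ (f - k) = k ⬝ᵥ k := by
        have h3 := Rt_refl_sq T.rk F hL
        rw [hfa, one_smul, hf] at h3
        exact h3
      have h3 : f ⬝ᵥ g = 0 := (cf_eq_zero (Rt_sq_ne F)).1 h1
      have h4 := te_dot T g
      rw [hga] at h4
      rw [cf, hn, sub_dotProduct, h3]
      field_simp
      linarith
    refine key (f - k) R (-2) h2 ?_ ?_ (Or.inr rfl)
    · rw [cf_sub, hfa, Rt_self T.rk]
      norm_num
    · rw [cf_sub, hfb, te_kk' T]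
      norm_num
  · have h2 := Rt_cf G F
    rw [h1] at e2
    rcases h2 with h2 | h2 | h2 | h2 | h2 <;> rw [h2] at e2 <;> norm_num at e2
  · refine key f F 2 h1 ?_ ?_ (Or.inl rfl)
    · rw [hfa]
      norm_num
    · rw [hfb]
      norm_num

private theorem te_excl2 (hL : Lat L) {k' g : Ω → ℚ} (T : CTwo L k k') (F : Rt L f) (G : Rt L g)
    (hf : TD k k' f) (hg : g ⬝ᵥ g = 2 * (k ⬝ᵥ k)) (hga : cf g k = 2) (hgb : cf g k' = 0) :
    False := by
  obtain ⟨ha, hb, hn⟩ := hf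
  have hn' : (-f) ⬝ᵥ (-f) = k ⬝ᵥ k := by
    rw [neg_dotProduct_neg, hn]
  have hgb' : cf g (-k') = 0 := by
    rw [cf_neg_right, hgb, neg_zero]
  rcases ha with ha | ha <;> rcases hb with hb | hb
  · exact te_excl1 hL T F G hn ha hb hg hga hgb
  · exact te_excl1 hL (te_neg T) F G hn ha (by rw [cf_neg_right, hb, neg_neg]) hg hga hgb'
  · exact te_excl1 hL (te_neg T) F.neg G hn' (by rw [cf_neg, ha, neg_neg])
      (by rw [cf_neg, cf_neg_right, hb, neg_neg]) hg hga hgb'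
  · exact te_excl1 hL T F.neg G hn' (by rw [cf_neg, ha, neg_neg]) (by rw [cf_neg, hb, neg_neg])
      hg hga hgb

private theorem te_excl (hL : Lat L) {k' g : Ω → ℚ} (T : CTwo L k k') (F : Rt L f) (G : Rt L g)
    (hf : TD k k' f) (hg : TE k k' g) : False := by
  obtain ⟨hv, hn⟩ := hg
  have hn' : (-g) ⬝ᵥ (-g) = 2 * (k ⬝ᵥ k) := by
    rw [neg_dotProduct_neg, hn]
  have hf' : TD k' k f := ⟨hf.2.1, hf.1, by rw [hf.2.2, T.eq]⟩
  rcases hv with ⟨h1 | h1, h2⟩ | ⟨h1, h2 | h2⟩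
  · exact te_excl2 hL T F G hf hn h1 h2
  · exact te_excl2 hL T F G.neg hf hn' (by rw [cf_neg, h1, neg_neg]) (by rw [cf_neg, h2, neg_zero])
  · exact te_excl2 hL (te_swap T) F G hf' (by rw [hn, T.eq]) h2 h1
  · exact te_excl2 hL (te_swap T) F G.neg hf' (by rw [hn', T.eq]) (by rw [cf_neg, h2, neg_neg])
      (by rw [cf_neg, h1, neg_zero])

/-! ### The two cases -/

private theorem te_noD (D : Dt L e) {k k' : Ω → ℚ} (T : CTwo L k k')
    (hD : ∀ f, Rt L f → ¬ TD k k' f) : 2 * ∑ ω, e ω = Fintype.card Ω := by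
  obtain ⟨ω, hω⟩ := Rt_one T.rk
  have hω' := te_pt T hω
  have hall : ∀ f, Rt L f → f ω = cf f k / 2 := by
    intro f F
    let φ : (Ω → ℚ) →ₗ[ℚ] ℚ :=
      { toFun := fun f => f ω - cf f k / 2
        map_add' := fun x y => by
          rw [cf_add, Pi.add_apply]
          ring
        map_smul' := fun c x => by
          rw [cf_smul, Pi.smul_apply, smul_eq_mul, smul_eq_mul, RingHom.id_apply]
          ring }
    have h1 := D.spread (fun f => ¬ (cf f k = 0 ∧ cf f k' = 0))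
      ⟨k, T.rk, fun h => by
        rw [Rt_self T.rk] at h
        norm_num at h⟩
      (fun f g _ _ hf hg => by
        simp only [not_not] at hf
        rw [cf_sub, cf_smul, cf_sub, cf_smul, hf.1, hf.2, mul_zero, sub_zero, sub_zero]
        exact hg) φ (fun g G hg => by
        show g ω - cf g k / 2 = 0
        rcases te_class T G with h2 | ⟨x, y, h2⟩ | h2 | h2
        · exact absurd h2 hg
        · rw [h2, cf_add, cf_smul, cf_smul, Rt_self T.rk, te_kk T, Pi.add_apply, Pi.smul_apply,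
            Pi.smul_apply, hω, hω', smul_eq_mul, smul_eq_mul]
          ring
        · exact absurd h2 (hD g G)
        · rw [te_val T G h2 hω, sub_self]) F
    have h2 : f ω - cf f k / 2 = 0 := h1
    linarith
  obtain ⟨π, hπ, -⟩ := Rt_move T.rk
  refine D.balanced_of_anti (x := ω) (y := π ω) fun f F => ?_
  rw [hπ f (Rt_mem F), hω, hall f F]
  ring

private theorem te_noE (D : Dt L e) {k k' : Ω → ℚ} (T : CTwo L k k') (hk : cf e k = 1)
    (hk' : cf e k' = 1) (hE : ∀ f, Rt L f → ¬ TE k k' f) :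
    2 * ∑ ω, e ω = Fintype.card Ω := by
  have hM : 0 < k ⬝ᵥ k := Rt_sq T.rk
  set v : Ω → ℚ := e + e - (k + k') with hv
  have hke : 2 * (k ⬝ᵥ e) = k ⬝ᵥ k := by
    rw [te_dot T, hk, one_mul]
  have hke' : 2 * (k' ⬝ᵥ e) = k ⬝ᵥ k := by
    rw [te_dot' T, hk', one_mul]
  have hkv : k ⬝ᵥ v = 0 := by
    rw [hv, dotProduct_sub, dotProduct_add, dotProduct_add, T.orth]
    linarith
  have hkv' : k' ⬝ᵥ v = 0 := by
    rw [hv, dotProduct_sub, dotProduct_add, dotProduct_add, dotProduct_comm k' k, T.orth, ← T.eq]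
    linarith
  -- the degree of a root of type D
  have hc : ∀ g, Rt L g → g ⬝ᵥ g = k ⬝ᵥ k → cf g k = 1 → cf g k' = 1 → cf e g = 1 := by
    intro g G hn ha hb
    have R := Rt_refl T.rk G D.toLat
    have R1 := Rt_refl_sq T.rk G D.toLat
    rw [ha, one_smul] at R R1
    have hb2 : cf (g - k) k' = 1 := by
      rw [cf_sub, hb, te_kk' T, sub_zero]
    have R' := Rt_refl T.rk' R D.toLat
    have R1' := Rt_refl_sq T.rk' R D.toLat
    rw [hb2, one_smul] at R' R1'
    have h1 : cf e (g - k - k') = cf e g - 2 := by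
      have h2 := cf_mul (f := e) (Rt_sq_ne G)
      rw [hn] at h2
      rw [cf, R1', R1, hn, sub_dotProduct, sub_dotProduct]
      field_simp
      linarith
    have h2 := D.eps R'
    have h3 := D.eps G
    rw [h1] at h2
    rcases h3 with h3 | h3 | h3 <;> rw [h3] at h2 <;> norm_num at h2
    exact h3
  have hc' : ∀ g, Rt L g → g ⬝ᵥ g = k ⬝ᵥ k → cf g k = -1 → cf g k' = 1 → cf e g = 0 := by
    intro g G hn ha hb
    have R := Rt_refl T.rk G D.toLat
    have R1 := Rt_refl_sq T.rk G D.toLat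
    rw [ha] at R R1
    have h1 := hc _ R (by rw [R1, hn]) (by
      rw [cf_sub, cf_smul, ha, Rt_self T.rk]
      norm_num) (by
      rw [cf_sub, cf_smul, hb, te_kk' T]
      norm_num)
    have h2 := cf_mul (f := e) (Rt_sq_ne G)
    have h3 := cf_mul (f := e) (Rt_sq_ne R)
    rw [h1, R1, sub_dotProduct, smul_dotProduct, smul_eq_mul] at h3
    rw [hn] at h2 h3
    have h4 : cf e g * (k ⬝ᵥ k) = 0 := by linarith
    rcases mul_eq_zero.1 h4 with h5 | h5
    · exact h5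
    · exact absurd h5 hM.ne'
  have hD1 : ∀ g, Rt L g → g ⬝ᵥ g = k ⬝ᵥ k → (cf g k = 1 ∨ cf g k = -1) → cf g k' = 1 →
      g ⬝ᵥ v = 0 := by
    intro g G hn ha hb
    have h1 := te_dot T g
    have h2 := te_dot' T g
    have h3 := cf_mul (f := e) (Rt_sq_ne G)
    rw [hn] at h3
    rw [hv, dotProduct_sub, dotProduct_add, dotProduct_add, dotProduct_comm g k,
      dotProduct_comm g k']
    rcases ha with ha | ha
    · rw [hc g G hn ha hb] at h3
      rw [ha] at h1
      rw [hb] at h2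
      linarith
    · rw [hc' g G hn ha hb] at h3
      rw [ha] at h1
      rw [hb] at h2
      linarith
  have hall : ∀ f, Rt L f → f ⬝ᵥ v = 0 := by
    intro f F
    let φ : (Ω → ℚ) →ₗ[ℚ] ℚ :=
      { toFun := fun f => f ⬝ᵥ v
        map_add' := fun x y => add_dotProduct x y v
        map_smul' := fun c x => smul_dotProduct c x v }
    exact D.spread (fun f => ¬ (cf f k = 0 ∧ cf f k' = 0))
      ⟨k, T.rk, fun h => by
        rw [Rt_self T.rk] at h
        norm_num at h⟩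
      (fun f g _ _ hf hg => by
        simp only [not_not] at hf
        rw [cf_sub, cf_smul, cf_sub, cf_smul, hf.1, hf.2, mul_zero, sub_zero, sub_zero]
        exact hg) φ (fun g G hg => by
        show g ⬝ᵥ v = 0
        rcases te_class T G with h2 | ⟨x, y, h2⟩ | h2 | h2
        · exact absurd h2 hg
        · rw [h2, add_dotProduct, smul_dotProduct, smul_dotProduct, hkv, hkv', smul_zero,
            smul_zero, add_zero]
        · obtain ⟨ha, hb, hn⟩ := h2
          rcases hb with hb | hb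
          · exact hD1 g G hn ha hb
          · have h3 := hD1 (-g) G.neg (by rw [neg_dotProduct_neg, hn]) (by
              rw [cf_neg]
              rcases ha with ha | ha
              · right
                rw [ha]
              · left
                rw [ha, neg_neg]) (by rw [cf_neg, hb, neg_neg])
            rw [neg_dotProduct, neg_eq_zero] at h3
            exact h3
        · exact absurd h2 (hE g G)) F
  have hvL : v ∈ L := L.sub_mem (L.add_mem D.he D.he) (L.add_mem (Rt_mem T.rk) (Rt_mem T.rk'))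
  have hconst := D.toLat.const hvL fun h π H => hall h ⟨π, H⟩
  obtain ⟨ω₁, h₁⟩ := D.ex1
  obtain ⟨ω₀, h₀⟩ := D.ex0
  obtain ⟨ω₂, h₂⟩ := Rt_one T.rs
  have hval : ∀ ω, v ω = e ω + e ω - (k + k') ω := fun ω => by
    rw [hv, Pi.sub_apply, Pi.add_apply]
  have hone : v ω₁ = 1 := by
    have c1 := hconst ω₁ ω₂
    have c2 := hconst ω₁ ω₀
    rw [hval ω₁, hval ω₂, h₁, h₂] at c1
    rw [hval ω₁, h₁]
    rcases D.hval ω₂ with h3 | h3 <;> rcases Rt_val T.rs ω₁ with h4 | h4 | h4 <;>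
      rw [h3, h4] at c1 <;> norm_num at c1
    rw [h4]
    norm_num
  have hsum : ∑ ω, v ω = Fintype.card Ω := by
    rw [Finset.sum_congr rfl fun ω _ => (hconst ω ω₁).trans hone]
    simp
  have hsum2 : ∑ ω, v ω = 2 * ∑ ω, e ω := by
    rw [Finset.sum_congr rfl fun ω _ => hval ω, Finset.sum_sub_distrib, Rt_sum T.rs,
      Finset.sum_add_distrib]
    ring
  rw [← hsum2, hsum]

theorem balanced_of_ctwo (D : Dt L e) {k k' : Ω → ℚ} (T : CTwo L k k') (hk : cf e k = 1)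
    (hk' : cf e k' = 1) : 2 * ∑ ω, e ω = Fintype.card Ω := by
  by_cases hD : ∃ f, Rt L f ∧ TD k k' f
  · obtain ⟨f, F, hf⟩ := hD
    exact te_noE D T hk hk' fun g G hg => te_excl D.toLat T F G hf hg
  · push Not at hD
    exact te_noD D T hD

end Pool.Agent.NumRank
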