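import Pool.Agent.NumRank.OneNorm

/-!
# Roots of two different norms
-/

set_option autoImplicit false
set_option linter.unusedSectionVars false

namespace Pool.Agent.NumRank

open Pool.Agent.PrimePow.CC

variable {Ω : Type*} [Fintype Ω] {L : AddSubgroup (Ω → ℚ)} {e f h k : Ω → ℚ}

/-- `k` and `k'` are orthogonal short roots whose sum and difference are roots. -/
structure CTwo (L : AddSubgroup (Ω → ℚ)) (k k' : Ω → ℚ) : Prop where
  rk : Rt L k
  rk' : Rt L k'
  rs : Rt L (k + k')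
  rd : Rt L (k - k')
  orth : k ⬝ᵥ k' = 0
  eq : k ⬝ᵥ k = k' ⬝ᵥ k'

private theorem ctwo_swap {k k' : Ω → ℚ} (C : CTwo L k k') : CTwo L k' k where
  rk := C.rk'
  rk' := C.rk
  rs := by rw [add_comm]; exact C.rs
  rd := by
    have := C.rd.neg
    rwa [neg_sub] at this
  orth := by rw [dotProduct_comm]; exact C.orth
  eq := C.eq.symm

private theorem ctwo_negr {k k' : Ω → ℚ} (C : CTwo L k k') : CTwo L k (-k') where
  rk := C.rk
  rk' := C.rk'.neg
  rs := by rw [← sub_eq_add_neg]; exact C.rd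
  rd := by rw [sub_neg_eq_add]; exact C.rs
  orth := by rw [dotProduct_neg, C.orth, neg_zero]
  eq := by rw [neg_dotProduct_neg]; exact C.eq

private theorem ctwo_negl {k k' : Ω → ℚ} (C : CTwo L k k') : CTwo L (-k) k' :=
  ctwo_swap (ctwo_negr (ctwo_swap C))

/-- a long and a short root -/
private theorem ctwo_of (hL : Lat L) (H : Rt L h) (K : Rt L k) (h2 : cf h k = 2)
    (h1 : cf k h = 1) : CTwo L k (h - k) := by
  have e1 := cf_mul (f := h) (Rt_sq_ne K)
  have e2 := cf_mul (f := k) (Rt_sq_ne H)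
  rw [h2] at e1
  rw [h1] at e2
  have e3 : h ⬝ᵥ k = k ⬝ᵥ h := dotProduct_comm _ _
  refine ⟨K, ?_, ?_, ?_, ?_, ?_⟩
  · have := (sub_root hL K H h1).neg
    rwa [neg_sub] at this
  · rw [add_sub_cancel]
    exact H
  · have := (Rt_refl K H hL).neg
    rw [h2] at this
    have h3 : k - (h - k) = -(h - (2 : ℚ) • k) := by
      rw [two_smul]
      abel
    rw [h3]
    exact this
  · rw [dotProduct_sub]
    linarith
  · rw [sub_dotProduct, dotProduct_sub, dotProduct_sub]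
    linarith

private def TT (L : AddSubgroup (Ω → ℚ)) (x : Ω → ℚ) : Prop :=
  ∃ k k', CTwo L k k' ∧ (x = k ∨ x = k + k')

private theorem TT_neg {x : Ω → ℚ} (T : TT L x) : TT L (-x) := by
  obtain ⟨k, k', C, h1 | h1⟩ := T
  · exact ⟨-k, k', ctwo_negl C, Or.inl (by rw [h1])⟩
  · exact ⟨-k, -k', ctwo_negl (ctwo_negr C), Or.inr (by rw [h1, neg_add])⟩

/-- non-orthogonal roots of different norms -/
private theorem TT_diff (hL : Lat L) (H : Rt L h) (K : Rt L k) (h0 : k ⬝ᵥ h ≠ 0)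
    (hlt : k ⬝ᵥ k < h ⬝ᵥ h) : TT L h ∧ TT L k := by
  have e1 := cf_mul (f := h) (Rt_sq_ne K)
  have e2 := cf_mul (f := k) (Rt_sq_ne H)
  have e3 : h ⬝ᵥ k = k ⬝ᵥ h := dotProduct_comm _ _
  have p1 := Rt_sq K
  have p2 := Rt_sq H
  have key : (cf h k = 2 ∧ cf k h = 1) ∨ (cf h k = -2 ∧ cf k h = -1) := by
    rcases Rt_cf K H with c1 | c1 | c1 | c1 | c1 <;> rcases Rt_cf H K with c2 | c2 | c2 | c2 | c2 <;>
      rw [c1] at e1 <;> rw [c2] at e2 <;>
      first
        | exact Or.inl ⟨c1, c2⟩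
        | exact Or.inr ⟨c1, c2⟩
        | (exfalso; apply h0; linarith)
  rcases key with ⟨c1, c2⟩ | ⟨c1, c2⟩
  · have C := ctwo_of hL H K c1 c2
    exact ⟨⟨k, h - k, C, Or.inr (by rw [add_sub_cancel])⟩, ⟨k, h - k, C, Or.inl rfl⟩⟩
  · have C := ctwo_of hL H K.neg (by rw [cf_neg_right, c1, neg_neg])
      (by rw [cf_neg, c2, neg_neg])
    refine ⟨⟨-k, h - -k, C, Or.inr (by rw [add_sub_cancel])⟩, ?_⟩
    have := TT_neg ⟨-k, h - -k, C, Or.inl rfl⟩
    rwa [neg_neg] at this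

private theorem refl_dot {w : Ω → ℚ} (hw : w ⬝ᵥ w ≠ 0) (f g : Ω → ℚ) :
    (f - cf f w • w) ⬝ᵥ (g - cf g w • w) = f ⬝ᵥ g := by
  have e1 := cf_mul (f := f) hw
  have e2 := cf_mul (f := g) hw
  have e3 : f ⬝ᵥ w = w ⬝ᵥ f := dotProduct_comm _ _
  rw [sub_dotProduct, dotProduct_sub, dotProduct_sub, smul_dotProduct, smul_dotProduct,
    dotProduct_smul, dotProduct_smul, e3]
  simp only [smul_eq_mul]
  have e4 : cf g w * (w ⬝ᵥ f) = cf f w * (w ⬝ᵥ g) := by
    apply mul_left_cancel₀ hw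
    linear_combination (w ⬝ᵥ f) * e2 - (w ⬝ᵥ g) * e1
  linear_combination (cf g w) * e1 + e4

/-- reflections of the systems -/
private theorem ctwo_refl (hL : Lat L) {k k' w : Ω → ℚ} (C : CTwo L k k') (W : Rt L w) :
    CTwo L (k - cf k w • w) (k' - cf k' w • w) where
  rk := Rt_refl W C.rk hL
  rk' := Rt_refl W C.rk' hL
  rs := by
    have := Rt_refl W C.rs hL
    rw [cf_add, add_smul] at this
    convert this using 1
    abel
  rd := by
    have := Rt_refl W C.rd hL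
    rw [cf_sub, sub_smul] at this
    convert this using 1
    abel
  orth := by rw [refl_dot (Rt_sq_ne W)]; exact C.orth
  eq := by rw [refl_dot (Rt_sq_ne W), refl_dot (Rt_sq_ne W)]; exact C.eq

/-- non-orthogonal roots of the same norm -/
private theorem TT_same (hL : Lat L) {x y : Ω → ℚ} (X : Rt L x) (Y : Rt L y)
    (h1 : cf y x = 1) (hn : y ⬝ᵥ y = x ⬝ᵥ x) (T : TT L x) : TT L y := by
  have e1 := cf_mul (f := y) (Rt_sq_ne X)
  have e3 : y ⬝ᵥ x = x ⬝ᵥ y := dotProduct_comm _ _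
  rw [h1, one_mul] at e1
  have h2 : cf x y = 1 := by
    apply cf_of_eq Y
    rw [one_mul, hn, e3, e1]
  have W : Rt L (x - y) := sub_root hL X Y h2
  have hww : (x - y) ⬝ᵥ (x - y) = x ⬝ᵥ x := by
    rw [sub_dotProduct, dotProduct_sub, dotProduct_sub]
    linarith
  have h3 : cf x (x - y) = 1 := by
    apply cf_of_eq W
    rw [hww, sub_dotProduct]
    linarith
  set w := x - y with hw
  have h4 : x - cf x w • w = y := by
    rw [h3, one_smul, hw, sub_sub_cancel]
  obtain ⟨k, k', C, h5 | h5⟩ := T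
  · refine ⟨_, _, ctwo_refl hL C W, Or.inl ?_⟩
    rw [← h5, h4]
  · refine ⟨_, _, ctwo_refl hL C W, Or.inr ?_⟩
    clear_value w
    rw [← h4, h5, cf_add, add_smul]
    abel

private theorem TT_step (hL : Lat L) {x y : Ω → ℚ} (X : Rt L x) (T : TT L x) (Y : Rt L y)
    (h0 : y ⬝ᵥ x ≠ 0) : TT L y := by
  have e3 : y ⬝ᵥ x = x ⬝ᵥ y := dotProduct_comm _ _
  rcases lt_trichotomy (x ⬝ᵥ x) (y ⬝ᵥ y) with h1 | h1 | h1
  · exact (TT_diff hL Y X (by rwa [← e3]) h1).1
  · have e1 := cf_mul (f := y) (Rt_sq_ne X)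
    rcases Rt_cf X Y with c | c | c | c | c
    · rw [c] at e1
      have h3 : (y + x) ⬝ᵥ (y + x) = 0 := by
        rw [add_dotProduct, dotProduct_add, dotProduct_add]
        linarith
      have h4 : y = -x := by
        by_contra hne
        exact (dot_pos (fun h => hne (eq_neg_of_add_eq_zero_left h))).ne' h3
      rw [h4]
      exact TT_neg T
    · have := TT_same hL X Y.neg (by rw [cf_neg, c, neg_neg])
        (by rw [neg_dotProduct_neg, h1]) T
      have h2 := TT_neg this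
      rwa [neg_neg] at h2
    · rw [c] at e1
      exact absurd (by linarith) h0
    · exact TT_same hL X Y c h1.symm T
    · rw [c] at e1
      have h3 : (y - x) ⬝ᵥ (y - x) = 0 := by
        rw [sub_dotProduct, dotProduct_sub, dotProduct_sub]
        linarith
      have h4 : y = x := by
        by_contra hne
        exact (dot_pos (sub_ne_zero.2 hne)).ne' h3
      rw [h4]
      exact T
  · exact (TT_diff hL X Y h0 h1).2

private theorem cf_e_add {k k' : Ω → ℚ} (C : CTwo L k k') :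
    cf e k + cf e k' = 2 * cf e (k + k') := by
  have e1 := cf_mul (f := e) (Rt_sq_ne C.rk)
  have e2 := cf_mul (f := e) (Rt_sq_ne C.rk')
  have e3 := cf_mul (f := e) (Rt_sq_ne C.rs)
  have e4 : k' ⬝ᵥ k = 0 := by rw [dotProduct_comm]; exact C.orth
  have e5 : (k + k') ⬝ᵥ (k + k') = 2 * (k ⬝ᵥ k) := by
    rw [add_dotProduct, dotProduct_add, dotProduct_add, C.orth, e4, ← C.eq]
    ring
  rw [e5, add_dotProduct] at e3
  rw [← C.eq] at e2
  apply mul_right_cancel₀ (Rt_sq_ne C.rk)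
  linear_combination e1 + e2 - e3

/-- a root of degree one lies in a system of type `C₂` -/
theorem exists_ctwo (D : Dt L e) (h1 : ∃ h k, Rt L h ∧ Rt L k ∧ h ⬝ᵥ h ≠ k ⬝ᵥ k) :
    ∃ k k', CTwo L k k' ∧ cf e k = 1 ∧ cf e k' = 1 := by
  have hL := D.toLat
  obtain ⟨h₀, k₀, H₀, K₀, hne⟩ := h1
  have hT : ∃ x, Rt L x ∧ TT L x := by
    by_contra hcon
    push Not at hcon
    refine hne (D.all (fun x => h₀ ⬝ᵥ h₀ = x ⬝ᵥ x) ?_ ⟨h₀, H₀, rfl⟩ K₀)
    intro h H hh k K hkh
    rw [hh]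
    rcases lt_trichotomy (h ⬝ᵥ h) (k ⬝ᵥ k) with h2 | h2 | h2
    · exact absurd (TT_diff hL K H (by rwa [dotProduct_comm]) h2).1 (hcon k K)
    · exact h2
    · exact absurd (TT_diff hL H K hkh h2).1 (hcon h H)
  obtain ⟨x, ω, X, hx, -, -⟩ := D.ex_root
  have T : TT L x := D.all (TT L) (fun h H T k K h0 => TT_step hL H T K h0) hT X
  obtain ⟨k, k', C, h5 | h5⟩ := T
  · subst h5
    have h6 := cf_e_add (e := e) C
    rcases D.eps C.rs with h7 | h7 | h7 <;> rcases D.eps C.rk' with h8 | h8 | h8 <;>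
      rw [hx, h7, h8] at h6 <;>
      first
        | exact ⟨x, k', C, hx, h8⟩
        | exact ⟨x, -k', ctwo_negr C, hx, by rw [cf_neg_right, h8, neg_neg]⟩
        | exact absurd h6 (by norm_num)
  · rw [h5] at hx
    have h6 := cf_e_add (e := e) C
    rw [hx] at h6
    rcases D.eps C.rk with h7 | h7 | h7 <;> rcases D.eps C.rk' with h8 | h8 | h8 <;>
      rw [h7, h8] at h6 <;>
      first
        | exact ⟨k, k', C, h7, h8⟩
        | (exfalso; norm_num at h6)

end Pool.Agent.NumRank
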